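import Pool.Agent.H63.VM.Core4

set_option autoImplicit false
set_option linter.unusedSectionVars false

/-! # The two cases -/

namespace Pool.Agent.H63.VM

open PowerSeries Pool.Agent.H63.VH

variable {k σ : Type} [CommRing k] [Algebra ℂ k] [Fintype σ] [DecidableEq σ]

section Cases

variable (e : σ → ℕ) (he : ∀ t, e t ≠ 0) (D : ℕ) (hD0 : D ≠ 0) (d : σ → ℕ) (hd : ∀ t, d t ≠ 0)
  (hD : ∀ t, e t * d t = D) (b : σ → ℂ)
  (ξ : σ → MvPowerSeries σ ℂ) (κ a : σ → ℕ) (U : MvPowerSeries σ ℂ)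
  (hU : MvPowerSeries.constantCoeff U ≠ 0)
  (hJ : (Matrix.of fun t i => MvPowerSeries.pderiv ℂ t (ξ i)).det =
      (∏ t, MvPowerSeries.X t ^ κ t) * U)
  {ι : Type} [Fintype ι] [DecidableEq ι]
  (f0 f1 : Option ι → MvPolynomial σ ℂ) (h0 h1 : Option ι → MvPowerSeries σ ℂ)
  (hf0 : ∀ o, MvPolynomial.aeval ξ (f0 o) = (∏ t, MvPowerSeries.X t ^ a t) * h0 o)
  (hf1 : ∀ o, MvPolynomial.aeval ξ (f1 o) = (∏ t, MvPowerSeries.X t ^ a t) * h1 o)
  (hh1 : MvPowerSeries.constantCoeff (h1 none) = 1)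
  (hb' : ∀ t, MvPowerSeries.coeff (Finsupp.single t (d t)) (h0 none) = b t)
  (hh : ∀ μ, MvPowerSeries.coeff μ (h0 none) ≠ 0 → D < wt e μ ∨ ∃ t, μ = Finsupp.single t (d t))
  (δ : ι → σ →₀ ℕ) (β : ι → ℂ) (hβ : ∀ j, β j ≠ 0) (hL : ∀ j, Lead e (δ j) (β j) (h0 (some j)))
  (hδ : ∀ j, wt e (δ j) < D)
  (ε : k) (hunit : ∀ (r : ℂ) (x : k), r ≠ 0 → IsUnit (algebraMap ℂ k r + ε * x))

/-- the exponents of the leading monomials -/
def gam (δ : ι → σ →₀ ℕ) : Option ι → Gam σ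
  | none => (0, 1)
  | some j => (fun t => (δ j t : ℤ), 0)

include he hd hD hf0 hf1 hh1 hb' hh hβ hL hδ in
theorem exists_fac : ∃ (M : Option ι → ℕ) (β1 β2 : Option ι → k) (z : Option ι → (BB k σ)⟦X⟧),
    (∀ o, β1 o * β2 o = 1) ∧
    ∀ o, Fac (phi e he D d (fun t => algebraMap ℂ k (b t)) ξ (pen (f0 o) (f1 o))) a (M o)
      (gam δ o) (β1 o) (z o) := by
  have h : ∀ o : Option ι, ∃ (M : ℕ) (β1 β2 : k) (z : (BB k σ)⟦X⟧), β1 * β2 = 1 ∧
    Fac (phi e he D d (fun t => algebraMap ℂ k (b t)) ξ (pen (f0 o) (f1 o))) a M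
      (gam δ o) β1 z := by
    intro o
    rcases o with _ | j
    · obtain ⟨y, hy⟩ := fac_pen (k := k) e he D d b ξ (f0 none) (f1 none) a (h0 none) (h1 none)
        (hf0 none) (hf1 none) hh1 hd hD hb' hh
      exact ⟨_, 1, 1, y, mul_one _, hy⟩
    · obtain ⟨z, hz⟩ := fac_spec (k := k) e he D d b ξ (f0 (some j)) (f1 (some j)) a
        (h0 (some j)) (h1 (some j)) (hf0 _) (hf1 _) (δ j) (β j) (hβ j) (hL j) (hδ j)
      refine ⟨_, _, algebraMap ℂ k (β j)⁻¹, z, ?_, hz⟩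
      rw [← map_mul, mul_inv_cancel₀ (hβ j), map_one]
  choose M β1 β2 z h12 hz using h
  exact ⟨M, β1, β2, z, h12, hz⟩

include hd in
theorem hval_T (κ : σ → ℕ) (g : σ → ℤ → k) (p c : ℤ → k) (T : Finset σ)
    (hgT : ∀ t ∈ T, ∀ l : ℤ, 1 ≤ l → ∃ x, g t l = ε * x) (γ : Gam σ)
    (hγ : ZA (fun t => κ t + 1) T γ) : ∃ x, val d (fun t => κ t + 1) g p c γ =
      ε ^ T.card * x * c (-γ.2) := by
  by_cases h : Sup d (fun t => κ t + 1) γ
  · obtain ⟨x, hx⟩ := prod_eps ε T (fun t => g t (lt d (fun t => κ t + 1) γ t)) (fun t ht =>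
      hgT t ht _ (lt_pos d (fun t => κ t + 1) hd γ h t (hγ t ht)))
    refine ⟨x * p (-γ.2 - ∑ t, lt d (fun t => κ t + 1) γ t), ?_⟩
    rw [val_of d _ g p c γ h, hx]
    ring
  · exact ⟨0, by rw [val_not d _ g p c γ h]; ring⟩

include he hD0 hd hD hU hJ hf0 hf1 hh1 hb' hh hβ hL hδ hunit in
/-- **First case.** -/
theorem case_E1 (hδ0 : ∀ j, δ j = 0) (s0 σ0 : ℂ) (s : Option ι → k)
    (hsum : ∑ o, s o = algebraMap ℂ k s0 + ε) (hsn : s none = algebraMap ℂ k σ0)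
    (T : Finset σ) (hTa : ∀ t ∈ T, a t ≠ 0) (hT : ∀ t ∈ T, ((κ t + 1 : ℕ) : ℂ) + a t * s0 = 0)
    (hb : ∀ t, (b t ≠ 0 ∧ ∀ n : ℕ, 1 ≤ n → ((κ t + 1 : ℕ) : ℂ) + a t * s0 ≠ d t * n) ∨
      (b t = 0 ∧ ((κ t + 1 : ℕ) : k) + a t * (algebraMap ℂ k s0 + ε) = 0))
    (hσ : ∀ n : ℕ, -σ0 + n ≠ 0)
    (hND : ∀ n : ℕ, 1 ≤ n → -σ0 - ∑ t, (((κ t + 1 : ℕ) : ℂ) + a t * s0) / d t ≠ n)
    (hε : ε ^ T.card = 0) (N : ℕ) (S : Finset (List (σ ⊕ σ) × Ty (Option ι)))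
    (hS : ∀ w ∈ S, w.1.length + (na w.2.1 + 1) ≤ N)
    (r : List (σ ⊕ σ) × Ty (Option ι) → Polynomial k) (Q : Polynomial k)
    (heq : WEq3 (∏ o, pen (f0 o) (f1 o)) (om (fun o => pen (f0 o) (f1 o)) fun o =>
      Polynomial.C (s o)) (fun c : Ty (Option ι) => qt (fun o => pen (f0 o) (f1 o)) c.1)
      (fun c => na c.1 + 1) N S Q r) : Q = 0 := by
  obtain ⟨M, β1, β2, z, h12, hz⟩ := exists_fac (k := k) e he D d hd hD b ξ a f0 f1 h0 h1 hf0 hf1
    hh1 hb' hh δ β hβ hL hδ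
  obtain ⟨A, hAd⟩ : ∃ A : σ → k, A = fun t => ((κ t + 1 : ℕ) : k) +
    ∑ o, s o * (a t + ((gam δ o).1 t : k)) := ⟨_, rfl⟩
  have hA1 : ∀ t, A t = ((κ t + 1 : ℕ) : k) + a t * (algebraMap ℂ k s0 + ε) := by
    intro t
    rw [hAd, ← hsum, Finset.mul_sum]
    simp only
    congr 1
    refine Finset.sum_congr rfl fun o _ => ?_
    have h1 : (gam δ o).1 t = 0 := by
      rcases o with _ | j
      · rfl
      · change ((δ j t : ℕ) : ℤ) = 0
        rw [hδ0 j]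
        rfl
    rw [h1, Int.cast_zero, add_zero, mul_comm]
  have hsW : ∑ o, s o * ((gam δ o).2 : k) = algebraMap ℂ k σ0 + ε * 0 := by
    rw [Fintype.sum_option]
    have h1 : ∀ j, s (some j) * ((gam δ (some j)).2 : k) = 0 := by
      intro j
      change s (some j) * ((0 : ℤ) : k) = 0
      rw [Int.cast_zero, mul_zero]
    rw [Finset.sum_eq_zero fun j _ => h1 j, hsn]
    change algebraMap ℂ k σ0 * ((1 : ℤ) : k) + 0 = _
    rw [Int.cast_one]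
    ring
  obtain ⟨g, p, c, hg0, hp0, hc0, hg, hc, htp, hg2, -⟩ := rec_data ε hunit d hd b
    (fun t => ((κ t + 1 : ℕ) : ℂ) + a t * s0) (fun t => (a t : k)) A (fun t => by
      rw [hA1, map_add, map_mul, map_natCast, map_natCast]
      ring) (fun t => by
      rcases hb t with h | ⟨h, h'⟩
      · exact Or.inl h
      · exact Or.inr ⟨h, by rw [hA1]; exact h'⟩) σ0 0 _ hsW hσ hND (fun t => κ t + 1)
  have hzm : ∀ o, z o ∈ Rp (ZA (fun t => κ t + 1) T) := by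
    intro o
    refine (hz o).mem _ (ZA_adm _ T) fun γ hγ => ?_
    rcases o with _ | j
    · intro t ht
      have h1 := hγ t ht
      have h2 : (-gam δ none + γ : Gam σ).1 t = γ.1 t := by
        change -0 + γ.1 t = γ.1 t
        rw [neg_zero, zero_add]
      rw [h2]
      exact h1
    · intro t ht
      have h1 := hγ t ht
      have h2 : (-gam δ (some j) + γ : Gam σ).1 t = γ.1 t := by
        change -((δ j t : ℕ) : ℤ) + γ.1 t = γ.1 t
        rw [hδ0 j]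
        simp
      rw [h2]
      exact h1
  have hz' : ∀ o, ∃ z', (1 + z o) * z' = 1 ∧ z' ∈ Rp (ZA (fun t => κ t + 1) T) := by
    intro o
    obtain ⟨y', hy', -, hyp⟩ := exists_inv (Bp (ZA (fun t => κ t + 1) T)) (z o) (hz o).const (hzm o)
    exact ⟨y', hy', hyp⟩
  choose z' hz1 hz2 using hz'
  have hρ : ∀ o, ∃ ρ : (BB k σ)⟦X⟧, constantCoeff ρ = 1 ∧ ρ ∈ Rp (ZA (fun t => κ t + 1) T) ∧
      ∀ D' : Derivation k (BB k σ) (BB k σ), (1 + z o) * PD D' ρ = s o • (ρ * PD D' (z o)) := by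
    intro o
    exact exists_rho (Bp (ZA (fun t => κ t + 1) T)) (z o) (hz o).const (hzm o) (s o)
  choose ρ hρ1 hρ2 hρ3 using hρ
  have hval : ∀ γ, ZA (fun t => κ t + 1) T γ → val d (fun t => κ t + 1) g p c γ = 0 := by
    intro γ hγ
    obtain ⟨x, hx⟩ := hval_T d hd ε κ g p c T (fun t ht => hg2 t (hT t ht)) γ hγ
    rw [hx, hε]
    ring
  have key := chart_core4 e he D d (fun t => algebraMap ℂ k (b t)) ξ κ a U hJ
    (fun o => pen (f0 o) (f1 o)) s M (gam δ) β1 β2 h12 z z' ρ (fun o => (hz o).eq) hz1 hρ3 hd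
    g p c (fun t l => by rw [hg t l, hAd]) hc htp (fun i q' => ?_) N S hS r Q heq
  · have h2 := isUnit_PL e he d κ g p c U hU (∏ o, ρ o)
      (by rw [map_prod, Finset.prod_eq_one fun o _ => hρ1 o]) hg0 hp0 hc0
    exact aeval_X_pow_eq_zero D hD0 Q ((IsUnit.mul_left_eq_zero h2).1 key)
  · refine zero_Z d _ (ZA (fun t => κ t + 1) T) g p c hval _ (fun t ht => ?_) _ ?_
    · have h1 := Nat.one_le_iff_ne_zero.2 (hTa t ht)
      have h2 : (∑ o, i.1 o • gam δ o).1 t = 0 := by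
        rw [Prod.fst_sum, Finset.sum_apply]
        refine Finset.sum_eq_zero fun o _ => ?_
        rcases o with _ | j
        · change i.1 none • (0 : ℤ) = 0
          rw [smul_zero]
        · change i.1 (some j) • ((δ j t : ℕ) : ℤ) = 0
          rw [hδ0 j]
          simp
      change ((κ t + 1 : ℕ) : ℤ) + 1 ≤ (((κ t + 1 : ℕ) : ℤ) + a t) + (∑ o, i.1 o • gam δ o).1 t
      rw [h2]
      push_cast
      omega
    · exact (Rp _).mul_mem ((Rp _).mul_mem (SS_mem_Rp e _ (ZA_adm _ T) he U)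
        (phi_mem e he D d _ ξ _ (ZA_adm _ T) q')) ((Rp _).prod_mem fun o _ =>
        (Rp _).mul_mem (zp_mem _ ((Rp _).add_mem (Rp _).one_mem (hzm o)) (hz2 o) _) (hρ2 o))

end Cases

end Pool.Agent.H63.VM
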