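import Pool.Agent.H63.VM.Cases

set_option autoImplicit false
set_option linter.unusedSectionVars false

/-! # The second case -/

namespace Pool.Agent.H63.VM

open PowerSeries Pool.Agent.H63.VH

variable {k σ : Type} [CommRing k] [Algebra ℂ k] [Fintype σ] [DecidableEq σ]

/-- the elements which stabilise all the modules with a shift -/
noncomputable def PP (k : Type) [CommRing k] {σ : Type} [Fintype σ] [DecidableEq σ]
    (γ : Gam σ) : Subalgebra k (BB k σ) :=
  ⨅ Z : {Z : Gam σ → Prop // Adm Z ∧ ∀ δ, Z δ → Z (-γ + δ)}, Bp Z.1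

theorem mem_PP (γ : Gam σ) (v : BB k σ) : v ∈ PP k γ ↔
    ∀ Z : Gam σ → Prop, Adm Z → (∀ δ, Z δ → Z (-γ + δ)) → v ∈ Bp Z := by
  rw [PP, Algebra.mem_iInf]
  exact ⟨fun h Z h1 h2 => h ⟨Z, h1, h2⟩, fun h Z => h Z.1 Z.2.1 Z.2.2⟩

theorem mon_nsmul (γ : Gam σ) (n : ℕ) :
    (C (mon (n • γ)) : (BB k σ)⟦X⟧) = C (mon γ) ^ n := by
  induction n with
  | zero => rw [pow_zero, zero_smul, mon_zero, map_one]
  | succ n ih => rw [pow_succ, ← ih, ← map_mul, mon_mul, succ_nsmul]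

theorem split_one {ϰ : Type} [Fintype ϰ] [DecidableEq ϰ] (o : ϰ) (i : ϰ → ℤ) (m : ℕ)
    (hi : i o = 1 + m) (γ : ϰ → Gam σ) (γ0 : Gam σ) (z z' ρ : ϰ → (BB k σ)⟦X⟧)
    (B : (BB k σ)⟦X⟧) :
    C (mon (γ0 + ∑ o, i o • γ o)) * (B * ∏ o, (zp (1 + z o) (z' o) (i o) * ρ o)) =
      C (mon (γ0 + γ o + ∑ q ∈ Finset.univ.erase o, i q • γ q)) *
        ((B * (C (mon (γ o)) * (1 + z o)) ^ m *
          ∏ q ∈ Finset.univ.erase o, (zp (1 + z q) (z' q) (i q) * ρ q)) *
            ((1 + z o) * ρ o)) := by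
  have h1 : (C (mon (γ0 + ∑ o, i o • γ o)) : (BB k σ)⟦X⟧) =
      C (mon (γ0 + γ o + ∑ q ∈ Finset.univ.erase o, i q • γ q)) * C (mon (γ o)) ^ m := by
    rw [← mon_nsmul, ← map_mul, mon_mul, ← Finset.add_sum_erase _ _ (Finset.mem_univ o), hi,
      add_smul, one_smul, natCast_zsmul]
    congr 2
    abel
  have h2 : zp (1 + z o) (z' o) (i o) = (1 + z o) ^ m * (1 + z o) := by
    rw [zp, hi]
    have e1 : (1 + (m : ℤ)).toNat = m + 1 := by omega
    have e2 : (-(1 + (m : ℤ))).toNat = 0 := by omega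
    rw [e1, e2, pow_zero, mul_one, pow_succ]
  rw [h1, ← Finset.mul_prod_erase _ _ (Finset.mem_univ o), h2, mul_pow]
  ring

section Cases

variable (e : σ → ℕ) (he : ∀ t, e t ≠ 0) (D : ℕ) (hD0 : D ≠ 0) (d : σ → ℕ) (hd : ∀ t, d t ≠ 0)
  (hD : ∀ t, e t * d t = D) (b : σ → ℂ)
  (ξ : σ → MvPowerSeries σ ℂ) (κ a : σ → ℕ) (U : MvPowerSeries σ ℂ)
  (hU : MvPowerSeries.constantCoeff U ≠ 0)
  (hJ : (Matrix.of fun t i => MvPowerSeries.pderiv ℂ t (ξ i)).det =
      (∏ t, MvPowerSeries.X t ^ κ t) * U)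
  {ι : Type} [Fintype ι] [DecidableEq ι]
  (f0 f1 : Option ι → MvPolynomial σ ℂ) (h0 h1 : Option ι → MvPowerSeries σ ℂ)
  (hf0 : ∀ o, MvPolynomial.aeval ξ (f0 o) = (∏ t, MvPowerSeries.X t ^ a t) * h0 o)
  (hf1 : ∀ o, MvPolynomial.aeval ξ (f1 o) = (∏ t, MvPowerSeries.X t ^ a t) * h1 o)
  (hh1 : MvPowerSeries.constantCoeff (h1 none) = 1)
  (hb' : ∀ t, MvPowerSeries.coeff (Finsupp.single t (d t)) (h0 none) = b t)
  (hh : ∀ μ, MvPowerSeries.coeff μ (h0 none) ≠ 0 → D < wt e μ ∨ ∃ t, μ = Finsupp.single t (d t))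
  (β : ι → ℂ) (hβ : ∀ j, β j ≠ 0) (C' : ι → σ) (hC : Function.Injective C')
  (hL : ∀ j, Lead e (Finsupp.single (C' j) 1) (β j) (h0 (some j)))
  (hδ : ∀ j, wt e (Finsupp.single (C' j) 1) < D)
  (ε : k) (hunit : ∀ (r : ℂ) (x : k), r ≠ 0 → IsUnit (algebraMap ℂ k r + ε * x))

include he hD0 hd hD hU hJ hf0 hf1 hh1 hb' hh hβ hC hL hδ hunit in
/-- **Second case.** -/
theorem case_E2 (s0 : ℂ) (s : Option ι → k)
    (hsum : ∑ o, s o = algebraMap ℂ k s0 + ε) (hsn : s none = algebraMap ℂ k (-1) + ε)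
    (hsj : ∀ j, s (some j) = -1)
    (T : Finset σ) (hTC : ∀ j, C' j ∉ T) (hTa : ∀ t ∈ T, a t ≠ 0) (A0 : σ → ℂ)
    (hA0 : ∀ t, A0 t = ((κ t + 1 : ℕ) : ℂ) + a t * s0 - ∑ j, if C' j = t then 1 else 0)
    (hT : ∀ t ∈ T, A0 t = 0)
    (hb : ∀ t, (b t ≠ 0 ∧ ∀ n : ℕ, 1 ≤ n → A0 t ≠ d t * n) ∨ (b t = 0 ∧ A0 t = 0 ∧ a t = 0))
    (hbC : ∀ j, b (C' j) = 0)
    (hND : ∀ n : ℕ, 1 ≤ n → 1 - ∑ t, A0 t / d t ≠ n)
    (hε : ε ^ (T.card + 1) = 0) (N : ℕ) (S : Finset (List (σ ⊕ σ) × Ty (Option ι)))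
    (hS : ∀ w ∈ S, w.1.length + (na w.2.1 + 1) ≤ N)
    (r : List (σ ⊕ σ) × Ty (Option ι) → Polynomial k) (Q : Polynomial k)
    (heq : WEq3 (∏ o, pen (f0 o) (f1 o)) (om (fun o => pen (f0 o) (f1 o)) fun o =>
      Polynomial.C (s o)) (fun c : Ty (Option ι) => qt (fun o => pen (f0 o) (f1 o)) c.1)
      (fun c => na c.1 + 1) N S Q r) : Q = 0 := by
  obtain ⟨δ, hδd⟩ : ∃ δ : ι → σ →₀ ℕ, δ = fun j => Finsupp.single (C' j) 1 := ⟨_, rfl⟩
  obtain ⟨M, β1, β2, z, h12, hz⟩ := exists_fac (k := k) e he D d hd hD b ξ a f0 f1 h0 h1 hf0 hf1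
    hh1 hb' hh δ β hβ (fun j => by rw [hδd]; exact hL j) (fun j => by rw [hδd]; exact hδ j)
  have hg1 : ∀ t, (gam δ none).1 t = 0 := fun t => rfl
  have hg2 : (gam δ none).2 = 1 := rfl
  have hg3 : ∀ j t, (gam δ (some j)).1 t = if C' j = t then 1 else 0 := by
    intro j t
    change ((δ j t : ℕ) : ℤ) = _
    rw [hδd]
    simp only [Finsupp.single_apply]
    split_ifs <;> simp
  have hg4 : ∀ j, (gam δ (some j)).2 = 0 := fun j => rfl
  obtain ⟨A, hAd⟩ : ∃ A : σ → k, A = fun t => ((κ t + 1 : ℕ) : k) +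
    ∑ o, s o * (a t + ((gam δ o).1 t : k)) := ⟨_, rfl⟩
  have hA1 : ∀ t, A t = algebraMap ℂ k (A0 t) + ε * a t := by
    intro t
    have h1 : ∑ o, s o * (a t + ((gam δ o).1 t : k)) = (∑ o, s o) * a t -
        ∑ j, if C' j = t then 1 else 0 := by
      rw [Fintype.sum_option, Fintype.sum_option, hg1, Int.cast_zero, add_zero, add_mul,
        Finset.sum_mul, add_sub_assoc, ← Finset.sum_sub_distrib]
      congr 1
      refine Finset.sum_congr rfl fun j _ => ?_
      rw [hg3, hsj]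
      split_ifs
      · rw [Int.cast_one]; ring
      · rw [Int.cast_zero]; ring
    rw [hAd, hA0, map_sub, map_add, map_mul, map_natCast, map_natCast, map_sum]
    simp only
    rw [h1, hsum]
    have h2 : ∀ j, algebraMap ℂ k (if C' j = t then 1 else 0) = if C' j = t then 1 else 0 := by
      intro j
      split_ifs
      · exact map_one _
      · exact map_zero _
    rw [Finset.sum_congr rfl fun j _ => h2 j]
    ring
  have hsW : ∑ o, s o * ((gam δ o).2 : k) = algebraMap ℂ k (-1) + ε * 1 := by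
    rw [Fintype.sum_option, hg2, hsn]
    have h1 : ∀ j, s (some j) * ((gam δ (some j)).2 : k) = 0 := by
      intro j
      rw [hg4, Int.cast_zero, mul_zero]
    rw [Finset.sum_eq_zero fun j _ => h1 j, Int.cast_one]
    ring
  obtain ⟨g, p, c, hg0, hp0, hc0, hg, hc, htp, hgT, hgC⟩ := rec_data ε hunit d hd b
    A0 (fun t => (a t : k)) A hA1 (fun t => by
      rcases hb t with h | ⟨h, h', h''⟩
      · exact Or.inl h
      · exact Or.inr ⟨h, by rw [hA1, h', h'', map_zero, Nat.cast_zero, mul_zero, add_zero]⟩)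
    (-1) 1 _ hsW (fun n => by
      rw [neg_neg, add_comm]; exact Nat.cast_add_one_ne_zero n) (fun n hn => by
      rw [neg_neg]; exact hND n hn) (fun t => κ t + 1)
  have hzP : ∀ o n, coeff n (z o) ∈ PP k (gam δ o) := fun o n =>
    (mem_PP _ _).2 fun Z h1 h2 => (hz o).mem Z h1 h2 n
  obtain ⟨y', ρ0, w, hy', hρ01, hρ02, hw, hρw, hρ03⟩ :=
    exists_rho_minus (PP k (gam δ none)) (z none) (hz none).const (hzP none) ε
  have hinv : ∀ o, ∃ z' : (BB k σ)⟦X⟧, (1 + z o) * z' = 1 ∧ constantCoeff z' = 1 ∧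
      ∀ n, coeff n z' ∈ PP k (gam δ o) := fun o =>
    exists_inv (PP k (gam δ o)) (z o) (hz o).const (hzP o)
  choose z' hz1 hz2 hz3 using hinv
  obtain ⟨ρ, hρd⟩ : ∃ ρ : Option ι → (BB k σ)⟦X⟧,
    ρ = fun o => o.elim ρ0 fun j => z' (some j) := ⟨_, rfl⟩
  have hρn : ρ none = ρ0 := by rw [hρd]; rfl
  have hρj : ∀ j, ρ (some j) = z' (some j) := fun j => by rw [hρd]; rfl
  have hρP : ∀ o n, coeff n (ρ o) ∈ PP k (gam δ o) := by
    intro o n
    rcases o with _ | j
    · rw [hρn]; exact hρ02 n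
    · rw [hρj]; exact hz3 _ n
  have hρ1 : ∀ o, constantCoeff (ρ o) = 1 := by
    intro o
    rcases o with _ | j
    · rw [hρn]; exact hρ01
    · rw [hρj]; exact hz2 _
  have hρ3 : ∀ o (D' : Derivation k (BB k σ) (BB k σ)),
      (1 + z o) * PD D' (ρ o) = s o • (ρ o * PD D' (z o)) := by
    intro o D'
    rcases o with _ | j
    · rw [hρn, hsn]; exact hρ03 D'
    · rw [hρj, hsj]
      have h2 : PD D' ((1 + z (some j)) * z' (some j)) = 0 := by
        rw [hz1, Derivation.map_one_eq_zero]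
      rw [Derivation.leibniz, map_add, Derivation.map_one_eq_zero, zero_add] at h2
      simp only [smul_eq_mul] at h2
      rw [Algebra.smul_def, map_neg, map_one]
      linear_combination h2
  -- the elements are in the subalgebras
  have hmemF : ∀ o (i : ℤ) (Z : Gam σ → Prop), Adm Z → (∀ ζ, Z ζ → Z (-gam δ o + ζ)) →
      zp (1 + z o) (z' o) i * ρ o ∈ Rp Z := by
    intro o i Z h1 h2
    refine (Rp Z).mul_mem (zp_mem _ ((Rp Z).add_mem (Rp Z).one_mem ((hz o).mem Z h1 h2))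
      (fun n => (mem_PP _ _).1 (hz3 o n) Z h1 h2) i) (fun n => (mem_PP _ _).1 (hρP o n) Z h1 h2)
  have hval := hval_T d hd ε κ g p c T (fun t ht => hgT t (hT t ht))
  have hceps : ∀ m : ℤ, m ≤ -1 → ∃ y, c m = ε * y := by
    refine c_eps ε 1 c fun m => ?_
    rw [← hc m, hsW, map_neg, map_one]
  have hstabT : ∀ o ζ, ZA (fun t => κ t + 1) T ζ → ZA (fun t => κ t + 1) T (-gam δ o + ζ) := by
    intro o ζ hζ t ht
    have h1 := hζ t ht
    have h2 : (-gam δ o + ζ : Gam σ).1 t = ζ.1 t := by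
      change -(gam δ o).1 t + ζ.1 t = ζ.1 t
      rcases o with _ | j
      · rw [hg1]; ring
      · rw [hg3, if_neg fun h : C' j = t => hTC j (h ▸ ht)]; ring
    rw [h2]
    exact h1
  have key := chart_core4 e he D d (fun t => algebraMap ℂ k (b t)) ξ κ a U hJ
    (fun o => pen (f0 o) (f1 o)) s M (gam δ) β1 β2 h12 z z' ρ (fun o => (hz o).eq) hz1 hρ3 hd
    g p c (fun t l => by rw [hg t l, hAd]) hc htp (fun i q' => ?_) N S hS r Q heq
  · have h2 := isUnit_PL e he d κ g p c U hU (∏ o, ρ o)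
      (by rw [map_prod, Finset.prod_eq_one fun o _ => hρ1 o]) hg0 hp0 hc0
    exact aeval_X_pow_eq_zero D hD0 Q ((IsUnit.mul_left_eq_zero h2).1 key)
  · by_cases hi : ∃ j, 1 ≤ i.1 (some j)
    · obtain ⟨j, hj⟩ := hi
      obtain ⟨m, hm⟩ : ∃ m : ℕ, i.1 (some j) = 1 + m := ⟨(i.1 (some j) - 1).toNat, by omega⟩
      rw [split_one (some j) i.1 m hm, hρj, hz1, mul_one]
      have hstab : ∀ o, o ≠ some j → ∀ ζ, ZA (fun t => κ t + 1) {C' j} ζ →
          ZA (fun t => κ t + 1) {C' j} (-gam δ o + ζ) := by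
        intro o ho ζ hζ t ht
        have h1 := hζ t ht
        have h2 : (-gam δ o + ζ : Gam σ).1 t = ζ.1 t := by
          change -(gam δ o).1 t + ζ.1 t = ζ.1 t
          rcases o with _ | j'
          · rw [hg1]; ring
          · rw [hg3, if_neg, neg_zero, zero_add]
            intro h
            rw [Finset.mem_singleton.1 ht] at h
            exact ho (congrArg some (hC h))
        rw [h2]
        exact h1
      refine zero_Z d _ (ZA (fun t => κ t + 1) {C' j}) g p c (fun γ hγ => ?_) _ (fun t ht => ?_)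
        _ ?_
      · by_cases h : Sup d (fun t => κ t + 1) γ
        · have h1 := lt_pos d (fun t => κ t + 1) hd γ h (C' j) (hγ _ (Finset.mem_singleton_self _))
          rw [val_of d _ g p c γ h, ← Finset.mul_prod_erase _ _ (Finset.mem_univ (C' j)),
            hgC _ (hbC j) _ (by omega)]
          ring
        · exact val_not d _ g p c γ h
      · rw [Finset.mem_singleton.1 ht]
        have h1 : (∑ q ∈ Finset.univ.erase (some j), i.1 q • gam δ q).1 (C' j) = 0 := by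
          rw [Prod.fst_sum, Finset.sum_apply]
          refine Finset.sum_eq_zero fun o ho => ?_
          change i.1 o • (gam δ o).1 (C' j) = 0
          rcases o with _ | j'
          · rw [hg1, smul_zero]
          · rw [hg3, if_neg, smul_zero]
            intro h
            exact Finset.ne_of_mem_erase ho (congrArg some (hC h))
        change ((κ (C' j) + 1 : ℕ) : ℤ) + 1 ≤ (((κ (C' j) + 1 : ℕ) : ℤ) + a (C' j)) +
          (gam δ (some j)).1 (C' j) +
          (∑ q ∈ Finset.univ.erase (some j), i.1 q • gam δ q).1 (C' j)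
        rw [h1, hg3, if_pos rfl]
        push_cast
        omega
      · refine (Rp _).mul_mem ((Rp _).mul_mem ((Rp _).mul_mem (SS_mem_Rp e _ (ZA_adm _ _) he U)
          (phi_mem e he D d _ ξ _ (ZA_adm _ _) q')) ((Rp _).pow_mem ((hz _).mem' _ (ZA_adm _ _))
          _)) ((Rp _).prod_mem fun o ho => ?_)
        exact hmemF o _ _ (ZA_adm _ _) (hstab o (Finset.ne_of_mem_erase ho))
    · have hi0 : 1 ≤ i.1 none := by
        have h1 := i.2
        rw [Fintype.sum_option] at h1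
        have h2 : ∑ j, i.1 (some j) ≤ 0 := Finset.sum_nonpos fun j _ => by
          by_contra h
          exact hi ⟨j, by omega⟩
        omega
      obtain ⟨m, hm⟩ : ∃ m : ℕ, i.1 none = 1 + m := ⟨(i.1 none - 1).toNat, by omega⟩
      rw [split_one none i.1 m hm, hρn, mul_comm (1 + z none) ρ0, hρw]
      have hsum1 : ∀ t ∈ T, (∑ q ∈ Finset.univ.erase none, i.1 q • gam δ q).1 t = 0 := by
        intro t ht
        rw [Prod.fst_sum, Finset.sum_apply]
        refine Finset.sum_eq_zero fun o ho => ?_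
        change i.1 o • (gam δ o).1 t = 0
        rcases o with _ | j'
        · rw [hg1, smul_zero]
        · rw [hg3, if_neg fun h : C' j' = t => hTC j' (h ▸ ht), smul_zero]
      have hsum2 : (∑ q ∈ Finset.univ.erase none, i.1 q • gam δ q).2 = 0 := by
        rw [Prod.snd_sum]
        refine Finset.sum_eq_zero fun o ho => ?_
        change i.1 o • (gam δ o).2 = 0
        rcases o with _ | j'
        · exact absurd rfl (Finset.ne_of_mem_erase ho)
        · rw [hg4, smul_zero]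
      refine zero_B d (fun t => κ t + 1) T g p c ε ?_ ?_ _ ?_ ?_ _ w ?_ ?_ ?_
      · intro γ hγ
        obtain ⟨x, hx⟩ := hval γ hγ
        rw [hx]
        linear_combination (x * c (-γ.2)) * hε
      · intro γ hγ hγ2
        obtain ⟨x, hx⟩ := hval γ hγ
        obtain ⟨x', hx'⟩ := hceps (-γ.2) (by omega)
        rw [hx, hx']
        linear_combination (x * x') * hε
      · intro t ht
        have h1 := Nat.one_le_iff_ne_zero.2 (hTa t ht)
        change ((κ t + 1 : ℕ) : ℤ) + 1 ≤ (((κ t + 1 : ℕ) : ℤ) + a t) +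
          (gam δ none).1 t + (∑ q ∈ Finset.univ.erase none, i.1 q • gam δ q).1 t
        rw [hsum1 t ht, hg1]
        push_cast
        omega
      · change 1 ≤ 0 + (gam δ none).2 + (∑ q ∈ Finset.univ.erase none, i.1 q • gam δ q).2
        rw [hsum2, hg2]
        norm_num
      · refine (Rp _).mul_mem ((Rp _).mul_mem ((Rp _).mul_mem (SS_mem_Rp e _ (ZA_adm _ T) he U)
          (phi_mem e he D d _ ξ _ (ZA_adm _ T) q')) ((Rp _).pow_mem ((hz _).mem' _ (ZA_adm _ T))
          _)) ((Rp _).prod_mem fun o _ => ?_)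
        exact hmemF o _ _ (ZA_adm _ T) (hstabT o)
      · refine (Rp _).mul_mem ((Rp _).mul_mem ((Rp _).mul_mem (SS_mem_Rp e _ (ZB_adm _ T) he U)
          (phi_mem e he D d _ ξ _ (ZB_adm _ T) q')) ((Rp _).pow_mem ((hz _).mem' _ (ZB_adm _ T))
          _)) ((Rp _).prod_mem fun o ho => ?_)
        refine hmemF o _ _ (ZB_adm _ T) fun ζ hζ => ⟨hstabT o ζ hζ.1, ?_⟩
        rcases o with _ | j'
        · exact absurd rfl (Finset.ne_of_mem_erase ho)
        · change 1 ≤ -(gam δ (some j')).2 + ζ.2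
          rw [hg4]
          have := hζ.2
          omega
      · exact fun n => (mem_PP _ _).1 (hw n) _ (ZA_adm _ T) (hstabT none)

end Cases

end Pool.Agent.H63.VM
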