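import Pool.Agent.H63.VI.Defs

/-!
# The zeta function of an ideal generated by general members: definitions
-/

set_option autoImplicit false

namespace Pool.Agent.H63.VM

open Pool.Agent.H63.VI

/-- The zeta function with the numerical data `N i`, `ν i` (`i ∈ J`):
`∑_S (χ S + χ' S * c / (s + c)) ∏_{i ∈ S} 1 / (N i s + ν i)`. -/
noncomputable def zetaI {J : Type} [Fintype J] (c : ℕ) (N ν : J → ℕ) (χ χ' : Finset J → ℤ) :
    RatFunc ℂ :=
  ∑ S : Finset J, ((χ S : RatFunc ℂ) + (χ' S : RatFunc ℂ) * ((c : RatFunc ℂ) *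
    (RatFunc.X + (c : RatFunc ℂ))⁻¹)) *
    ∏ i ∈ S, ((N i : RatFunc ℂ) * RatFunc.X + (ν i : RatFunc ℂ))⁻¹

/-- `T` is the set of the `i ∈ S` with `ν i = α N i`, where `N i = a' i + m * a i` and
`ν i = k i + 1`. -/
def IsRatioSet {J : Type} (m : ℕ) (k a' a : J → ℕ) (S T : Finset J) (α : ℚ) : Prop :=
  ∀ i, i ∈ T ↔ i ∈ S ∧ (k i : ℚ) + 1 = α * (a' i + m * a i : ℕ)

/-- The weak condition on the resolution. For all `S` which contribute to the zeta function
(`χ S ≠ 0` or `χ' S ≠ 0`) and all rational numbers `α`, let `T` be the set of the `i ∈ S` with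
`ν i = α N i`. If `T` is not empty, or if `α = c` and `χ' S ≠ 0`, then there is a point on the `E i`,
`i ∈ T`, and on no others, at which the restriction to `⋂_{i ∈ T} E i` of the morphism given by the
`g j` is an immersion. -/
def CoveredW {n : ℕ} {ρ J : Type} (P : MvPolynomial (Fin n) ℂ) (g : ρ → MvPolynomial (Fin n) ℂ)
    (m c : ℕ) (k a' a : J → ℕ) (χ χ' : Finset J → ℤ) : Prop :=
  ∀ S, (χ S ≠ 0 ∨ χ' S ≠ 0) → ∀ (T : Finset J) (α : ℚ), IsRatioSet m k a' a S T α →
    (T.Nonempty ∨ (χ' S ≠ 0 ∧ α = c)) →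
    ∃ x e w, IsChart P g k a' a T x e w ∧ Immersion w {t | ∀ i ∈ T, e i ≠ t}

/-- The strong condition on the resolution. For all `S` and `α` as in `CoveredW`, with the set `T`,
there is a point on the `E i`, `i ∈ T`, and on no others, at which the morphism given by the `g j` is
an immersion. If `T` has only one element, and if it is not true that `α = c` and `χ' S ≠ 0`, then it
suffices that its restriction to `⋂_{i ∈ T} E i` is an immersion. -/
def CoveredS {n : ℕ} {ρ J : Type} (P : MvPolynomial (Fin n) ℂ) (g : ρ → MvPolynomial (Fin n) ℂ)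
    (m c : ℕ) (k a' a : J → ℕ) (χ χ' : Finset J → ℤ) : Prop :=
  ∀ S, (χ S ≠ 0 ∨ χ' S ≠ 0) → ∀ (T : Finset J) (α : ℚ), IsRatioSet m k a' a S T α →
    (T.Nonempty ∨ (χ' S ≠ 0 ∧ α = c)) →
    ∃ x e w, IsChart P g k a' a T x e w ∧ (Immersion w Set.univ ∨
      (T.card = 1 ∧ ¬ (χ' S ≠ 0 ∧ α = c) ∧ Immersion w {t | ∀ i ∈ T, e i ≠ t}))

end Pool.Agent.H63.VM
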