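import Pool.Agent.H63.VM.Pt
import Pool.Agent.H63.VM.Defs
import Pool.Agent.W574.RO.Equiv

set_option autoImplicit false
set_option linter.unusedSectionVars false

/-! # The roots which come from a chart: the form of the final theorem -/

namespace Pool.Agent.H63.VM

open MvPolynomial Pool.Agent.H63.VG Pool.Agent.H63.VI Pool.Agent.H63.VK Pool.Agent.H63.VL
open Pool.Agent.W574.SM

section Conv

variable {n c : ℕ} {ρ : Type} [Fintype ρ] [DecidableEq ρ] {P : MvPolynomial (Fin n) ℂ}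
  {g : ρ → MvPolynomial (Fin n) ℂ}

/-- The divisibility by `D` for general forms `G_1, …, G_c`. -/
def GenDvd (P : MvPolynomial (Fin n) ℂ) (g : ρ → MvPolynomial (Fin n) ℂ) (m c : ℕ)
    (D : Polynomial ℂ) : Prop :=
  ∃ Γ : MvPolynomial (Fin c × {ν : ρ →₀ ℕ // ν.degree = m}) ℂ, Γ ≠ 0 ∧
    ∀ G : Fin c → MvPolynomial ρ ℂ, (∀ i, (G i).IsHomogeneous m) →
      eval (fun p => (G p.1).coeff p.2.1) Γ ≠ 0 → ∀ b : Polynomial ℂ,
        IsFunctionalEq (fun i => P * aeval g (G i)) b → D ∣ b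

theorem GenDvd.one (m : ℕ) : GenDvd P g m c 1 :=
  ⟨1, one_ne_zero, fun _ _ _ _ _ => one_dvd _⟩

theorem conv (m : ℕ) (D : Polynomial ℂ)
    (h : ∃ Γ : MvPolynomial (Option (Fin c) × Ex ρ m) ℂ, Γ ≠ 0 ∧ ∀ cc : Option (Fin c) × Ex ρ m → ℂ,
      eval cc Γ ≠ 0 → ∀ b : Polynomial ℂ,
        IsFunctionalEq (fun o => ∑ ν, C (cc (o, ν)) * fsys P g m ν) b → D ∣ b) :
    GenDvd P g m (c + 1) D := by
  obtain ⟨Γ, hΓ, h⟩ := h
  obtain ⟨E, hE⟩ : ∃ E : Fin (c + 1) ≃ Option (Fin c), E = finSuccEquiv c := ⟨_, rfl⟩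
  obtain ⟨φ, hφ⟩ : ∃ φ : Option (Fin c) × Ex ρ m → Fin (c + 1) × {ν : ρ →₀ ℕ // ν.degree = m},
    φ = fun p => (E.symm p.1, p.2) := ⟨_, rfl⟩
  have hinj : Function.Injective φ := by
    rintro ⟨p1, p2⟩ ⟨q1, q2⟩ hpq
    rw [hφ] at hpq
    simp only [Prod.mk.injEq, EmbeddingLike.apply_eq_iff_eq] at hpq
    rw [hpq.1, hpq.2]
  refine ⟨rename φ Γ, fun h0 => hΓ ((map_eq_zero_iff _ (rename_injective _ hinj)).1 h0),
    fun G hG hne b hb => ?_⟩
  rw [eval_rename] at hne
  refine h _ hne b ?_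
  refine Pool.Agent.W574.RO.functionalEq_equiv (Equiv.refl _) E.symm _ _ (fun o => ?_) b hb
  rw [Equiv.coe_refl, rename_id_apply]
  have h1 := fsys_form (P := P) (g := g) m (G (E.symm o)) (hG _)
  rw [← h1]
  refine Finset.sum_congr rfl fun ν _ => ?_
  rw [Function.comp_apply, hφ]

end Conv

variable {J : Type} [DecidableEq J] {n : ℕ}
variable {ρ : Type} [Fintype ρ] [DecidableEq ρ] {P : MvPolynomial (Fin n) ℂ}
  {g : ρ → MvPolynomial (Fin n) ℂ} {k a' a : J → ℕ} {T : Finset J}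
  {x : Fin n → MvPowerSeries (Fin n) ℂ} {e : J → Fin n} {w : ρ → MvPowerSeries (Fin n) ℂ}
variable (h : IsChart P g k a' a T x e w) (m : ℕ) (hm : 2 ≤ m) (hN : ∀ i, 1 ≤ a' i + m * a i)
  (α : ℚ) (hα : 0 < α) (hT : ∀ i ∈ T, ((k i : ℚ) + 1) = α * (a' i + m * a i : ℕ)) (c : ℕ)

/-- the dual vectors -/
theorem dual_univ (hw : Immersion w Set.univ) : ∃ L : Option (Fin n) → ρ → ℂ,
    (∀ t, ∑ j, L t j * MvPowerSeries.constantCoeff (w j) = if t = none then 1 else 0) ∧
    ∀ t s, ∑ j, L (some t) j * MvPowerSeries.coeff (Finsupp.single s 1) (w j) =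
      if s = t then 1 else 0 := by
  classical
  obtain ⟨L, hL⟩ := exists_dual _ hw
  refine ⟨fun t => L (t.map fun s => ⟨s, Set.mem_univ s⟩), fun t => ?_, fun t s => ?_⟩
  · have h1 := hL (t.map fun s => ⟨s, Set.mem_univ s⟩) none
    rw [h1]
    cases t with
    | none => rfl
    | some t => rfl
  · have h1 := hL (some ⟨t, Set.mem_univ t⟩) (some ⟨s, Set.mem_univ s⟩)
    refine h1.trans ?_
    by_cases hst : s = t
    · rw [if_pos hst, if_pos (by rw [Option.some.injEq]; exact Subtype.ext hst)]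
    · rw [if_neg hst, if_neg fun h2 => hst (congrArg Subtype.val (Option.some_injective _ h2))]

include h hm hN hα hT in
theorem chart3_strong (hw : Immersion w Set.univ) :
    GenDvd P g m (c + 2) ((Polynomial.X - Polynomial.C (-(α : ℂ))) ^ T.card) := by
  classical
  obtain ⟨Λ, rfl⟩ := exists_loc h
  obtain ⟨L, hL0, hL1⟩ := dual_univ hw
  rw [← Finset.card_image_of_injOn h.inj]
  exact conv m _ (pt3_strong (ι := Fin (c + 1)) Λ m hm 0 L hL0 hL1 (T.image e) α
    (rat_of h.inj k a' a m hN α hα hT))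

include h hm hN hα hT in
theorem chart3_top (hw : Immersion w Set.univ) (hαc : α = ((c + 1 : ℕ) : ℚ))
    (hc : T.card + (c + 1) ≤ n) :
    GenDvd P g m (c + 1) ((Polynomial.X - Polynomial.C (-(α : ℂ))) ^ (T.card + 1)) := by
  classical
  obtain ⟨Λ, rfl⟩ := exists_loc h
  obtain ⟨L, hL0, hL1⟩ := dual_univ hw
  rw [← Finset.card_image_of_injOn h.inj] at hc ⊢
  refine conv m _ (pt3_top (ι := Fin c) Λ m hm L hL0 hL1 (T.image e) α
    (rat_of h.inj k a' a m hN α hα hT) ?_ ?_)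
  · rw [hαc, Fintype.card_fin]
    push_cast
    rfl
  · rw [Fintype.card_fin, Fintype.card_fin]
    exact hc

include h hm hN hα hT in
theorem chart3_weak (hw : Immersion w {t | ∀ i ∈ T, e i ≠ t}) (hTne : T.Nonempty) :
    GenDvd P g m (c + 2) ((Polynomial.X - Polynomial.C (-(α : ℂ))) ^ 1) := by
  classical
  obtain ⟨Λ, rfl⟩ := exists_loc h
  obtain ⟨L, hL⟩ := exists_dual _ hw
  have hmem : ∀ t, t ∉ T.image e ↔ ∀ i ∈ T, e i ≠ t := by
    intro t
    rw [Finset.mem_image]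
    push Not
    rfl
  refine conv m _ (pt3_weak (ι := Fin (c + 1)) Λ m hm 0 (fun t => match t with
    | none => L none
    | some t => if ht : ∀ i ∈ T, e i ≠ t then L (some ⟨t, ht⟩) else 0) (T.image e)
    (fun t ht => ?_) (fun t s ht hs => ?_) α (rat_of h.inj k a' a m hN α hα hT)
    (hTne.image e))
  · cases t with
    | none => exact hL none none
    | some t =>
      have ht' : ∀ i ∈ T, e i ≠ t := fun i hi h1 =>
        ht (e i) (Finset.mem_image_of_mem e hi) (congrArg some h1.symm)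
      have h1 := hL (some ⟨t, ht'⟩) none
      simp only [dif_pos ht']
      exact h1
  · have ht' := (hmem t).1 ht
    have hs' := (hmem s).1 hs
    have h1 := hL (some ⟨t, ht'⟩) (some ⟨s, hs'⟩)
    simp only [dif_pos ht']
    refine h1.trans ?_
    by_cases hst : s = t
    · rw [if_pos hst, if_pos (by rw [Option.some.injEq]; exact Subtype.ext hst)]
    · rw [if_neg hst, if_neg fun h2 => hst (congrArg Subtype.val (Option.some_injective _ h2))]

end Pool.Agent.H63.VM
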