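import Pool.Agent.H63.VM.Gen
import Pool.Agent.H63.VL.Core

set_option autoImplicit false
set_option linter.unusedSectionVars false

/-! # The engine in a chart, for ideals and arbitrary exponents -/

namespace Pool.Agent.H63.VM

open PowerSeries Pool.Agent.H63.VH

section Zp

variable {R : Type} [CommRing R]

/-- integral powers -/
def zp (G H : R) (c : ℤ) : R := G ^ c.toNat * H ^ (-c).toNat

theorem zp_mul (u v u' v' : R) (c : ℤ) : zp (u * v) (u' * v') c = zp u u' c * zp v v' c := by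
  rw [zp, zp, zp, mul_pow, mul_pow]
  ring

theorem zp_eq (G H : R) (h : G * H = 1) (n l : ℕ) (c : ℤ) (hc : (n : ℤ) - l = c) :
    G ^ n * H ^ l = zp G H c := by
  have h1 : ∀ m : ℕ, G ^ m * H ^ m = 1 := fun m => by rw [← mul_pow, h, one_pow]
  rw [zp]
  rcases le_or_gt l n with hle | hlt
  · obtain ⟨m, rfl⟩ := Nat.exists_eq_add_of_le hle
    have e1 : c.toNat = m := by omega
    have e2 : (-c).toNat = 0 := by omega
    rw [e1, e2, pow_zero, mul_one, pow_add]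
    linear_combination (G ^ m) * h1 l
  · obtain ⟨m, rfl⟩ := Nat.exists_eq_add_of_le hlt.le
    have e1 : c.toNat = 0 := by omega
    have e2 : (-c).toNat = m := by omega
    rw [e1, e2, pow_zero, one_mul, pow_add]
    linear_combination (H ^ m) * h1 n

theorem zp_mem {k : Type} [CommRing k] [Algebra k R] (S : Subalgebra k R) {G H : R} (hG : G ∈ S)
    (hH : H ∈ S) (c : ℤ) : zp G H c ∈ S :=
  S.mul_mem (S.pow_mem hG _) (S.pow_mem hH _)

end Zp

variable {k σ : Type} [CommRing k] [Algebra ℂ k] [Fintype σ] [DecidableEq σ]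

theorem zp_mon (γ : Gam σ) (c : ℤ) :
    zp (C (mon γ) : (BB k σ)⟦X⟧) (C (mon (-γ))) c = C (mon (c • γ)) := by
  have h1 : ∀ (γ : Gam σ) (n : ℕ), (C (mon γ) : (BB k σ)⟦X⟧) ^ n = C (mon (n • γ)) := by
    intro γ n
    induction n with
    | zero => rw [pow_zero, zero_smul, mon_zero, map_one]
    | succ n ih => rw [pow_succ, ih, ← map_mul, mon_mul, succ_nsmul]
  rw [zp, h1, h1, ← map_mul, mon_mul]
  congr 2
  rcases le_or_gt 0 c with h | h
  · obtain ⟨m, rfl⟩ := Int.eq_ofNat_of_zero_le h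
    have e1 : ((m : ℕ) : ℤ).toNat = m := by omega
    have e2 : (-((m : ℕ) : ℤ)).toNat = 0 := by omega
    rw [e1, e2, zero_smul, add_zero, natCast_zsmul]
  · obtain ⟨m, hm⟩ : ∃ m : ℕ, c = -(m : ℤ) := ⟨(-c).toNat, by omega⟩
    have e1 : c.toNat = 0 := by omega
    have e2 : (-c).toNat = m := by omega
    rw [e1, e2, zero_smul, zero_add, hm, neg_smul, smul_neg, natCast_zsmul]

theorem prod_mon {ι : Type} [Fintype ι] (γ : ι → Gam σ) :
    ∏ o, (C (mon (γ o)) : (BB k σ)⟦X⟧) = C (mon (∑ o, γ o)) := by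
  classical
  have h : ∀ s : Finset ι, ∏ o ∈ s, (C (mon (γ o)) : (BB k σ)⟦X⟧) = C (mon (∑ o ∈ s, γ o)) := by
    intro s
    induction s using Finset.induction_on with
    | empty => rw [Finset.prod_empty, Finset.sum_empty, mon_zero, map_one]
    | insert a s ha ih =>
      rw [Finset.prod_insert ha, Finset.sum_insert ha, ih, ← map_mul, mon_mul]
  exact h Finset.univ

section Twist

variable (d : σ → ℕ)

theorem TT_twist3 (β : σ → k) (K : σ → ℕ) (A : σ → k) (g : σ → ℤ → k) (p c : ℤ → k)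
    (ρ : (BB k σ)⟦X⟧) (η0 : σ → (BB k σ)⟦X⟧)
    (s : k) (hd : ∀ t, d t ≠ 0) (hρ : ∀ t, PD (Th d β t) ρ = η0 t * ρ)
    (hg : ∀ t l, (d t : k) * β t * g t (l + 1) = (d t * l + A t) * g t l)
    (hc : ∀ m : ℤ, (-s + m) * c (m + 1) = c m) (t : σ) (u : (BB k σ)⟦X⟧) :
    TT d K g p c ρ (PD (Th d β t) u + (η0 t + algebraMap k (BB k σ)⟦X⟧ (A t - K t) +
      algebraMap k (BB k σ)⟦X⟧ s * C (((d t : k) * β t) • mon (dl d t (-1)))) * u) = 0 := by
  obtain ⟨V, hV⟩ : ∃ V, V = u * ρ := ⟨_, rfl⟩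
  obtain ⟨E, hE⟩ : ∃ E, E = Th d β t := ⟨_, rfl⟩
  obtain ⟨M, hM⟩ : ∃ M : BB k σ, M = ((d t : k) * β t) • mon (dl d t (-1)) := ⟨_, rfl⟩
  have hρt := hρ t
  rw [← hE] at hρt ⊢
  rw [← hM]
  have hEV : PD E V = PD E u * ρ + u * PD E ρ := by
    rw [hV, Derivation.leibniz]
    simp only [smul_eq_mul]
    ring
  have key : (PD E u + (η0 t + algebraMap k (BB k σ)⟦X⟧ (A t - K t) +
      algebraMap k (BB k σ)⟦X⟧ s * C M) * u) * ρ =
      PD E V + algebraMap k (BB k σ)⟦X⟧ (A t - K t) * V +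
        algebraMap k (BB k σ)⟦X⟧ s * (C M * V) := by
    rw [hEV, hρt, hV]
    ring
  rw [TT_apply, key]
  refine PL_zero _ _ fun n => ?_
  have h3 : coeff n (PD E V + algebraMap k (BB k σ)⟦X⟧ (A t - K t) * V +
        algebraMap k (BB k σ)⟦X⟧ s * (C M * V)) =
      E (coeff n V) + (A t - K t) • coeff n V +
        (s * (d t * β t)) • (mon (dl d t (-1)) * coeff n V) := by
    rw [map_add, map_add, coeff_PD, coeff_algebraMap_mul, coeff_algebraMap_mul, coeff_C_mul, hM,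
      smul_mul_assoc, smul_smul]
  rw [h3]
  have h5 := lam_Th (A := A) (α := -s) d K g p c hd (fun t l => hg t l) hc (s := t) (coeff n V)
  have e2 : (s * (d t * β t)) • (mon (dl d t (-1)) * coeff n V) =
      -((-s * (d t * β t)) • (mon (dl d t (-1)) * coeff n V)) := by
    rw [← neg_smul, neg_mul, neg_neg]
  rw [e2, ← sub_eq_add_neg, hE]
  exact h5

end Twist

theorem final_step3 {R W κ : Type} [CommRing R] [AddCommGroup W]
    (φ : MvPolynomial σ (Polynomial k) →+* R) (f : MvPolynomial σ (Polynomial k))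
    (ω : σ → MvPolynomial σ (Polynomial k))
    (q : κ → MvPolynomial σ (Polynomial k)) (L : κ → ℕ)
    (x G H J : R) (M : ℕ) (hf : φ f = x ^ M * G) (hGH : G * H = 1)
    (T : R →+ W) (hTx : ∀ m u, T u = 0 → T (x ^ m * u) = 0)
    (heng : ∀ (w : List (σ ⊕ σ) × κ) p, T (J * φ p *
      (φ (q3 f ω (q w.2) (L w.2) w.1) * G * H ^ (w.1.length + L w.2))) = 0)
    (N : ℕ) (S : Finset (List (σ ⊕ σ) × κ)) (hS : ∀ w ∈ S, w.1.length + L w.2 ≤ N)
    (r : List (σ ⊕ σ) × κ → Polynomial k) (Q : Polynomial k)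
    (heq : WEq3 f ω q L N S Q r) :
    T (x ^ (M * N) * (φ (MvPolynomial.C Q) * J)) = 0 := by
  have h2 := congrArg (fun v => J * (φ v * H ^ N)) heq
  simp only [map_mul, map_sum, map_pow, hf] at h2
  have h3 : J * (φ (MvPolynomial.C Q) * (x ^ M * G) ^ N * H ^ N) =
      x ^ (M * N) * (φ (MvPolynomial.C Q) * J) := by
    have : (G * H) ^ N = 1 := by rw [hGH, one_pow]
    rw [mul_pow, ← pow_mul]
    linear_combination (J * φ (MvPolynomial.C Q) * x ^ (M * N)) * this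
  have h4 : ∀ w ∈ S, φ (MvPolynomial.C (r w)) * (x ^ M * G) ^ (N + 1 - (w.1.length + L w.2)) *
      φ (q3 f ω (q w.2) (L w.2) w.1) * H ^ N =
      x ^ (M * (N + 1 - (w.1.length + L w.2))) * (φ (MvPolynomial.C (r w)) *
        (φ (q3 f ω (q w.2) (L w.2) w.1) * G * H ^ (w.1.length + L w.2))) := by
    intro w hw
    have hwN := hS w hw
    obtain ⟨m, hm⟩ : ∃ m, N = (w.1.length + L w.2) + m := ⟨N - (w.1.length + L w.2), by omega⟩
    have e1 : N + 1 - (w.1.length + L w.2) = m + 1 := by omega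
    have : (G * H) ^ m = 1 := by rw [hGH, one_pow]
    rw [e1, hm, mul_pow, ← pow_mul, pow_add H (w.1.length + L w.2), pow_succ G]
    linear_combination (x ^ (M * (m + 1)) * φ (MvPolynomial.C (r w)) *
        (φ (q3 f ω (q w.2) (L w.2) w.1) * G * H ^ (w.1.length + L w.2))) * this
  rw [← h3, h2, Finset.sum_mul, Finset.mul_sum, map_sum]
  refine Finset.sum_eq_zero fun w hw => ?_
  rw [h4 w hw]
  have h7 : J * (x ^ (M * (N + 1 - (w.1.length + L w.2))) * (φ (MvPolynomial.C (r w)) *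
      (φ (q3 f ω (q w.2) (L w.2) w.1) * G * H ^ (w.1.length + L w.2)))) =
      x ^ (M * (N + 1 - (w.1.length + L w.2))) * (J * φ (MvPolynomial.C (r w)) *
        (φ (q3 f ω (q w.2) (L w.2) w.1) * G * H ^ (w.1.length + L w.2))) := by ring
  rw [h7]
  exact hTx _ _ (heng w _)

section Core

variable (e : σ → ℕ) (he : ∀ t, e t ≠ 0) (D : ℕ) (d : σ → ℕ) (β : σ → k)
  (ξ : σ → MvPowerSeries σ ℂ) {ι : Type} [Fintype ι] [DecidableEq ι]

include he in
theorem chart_core3 (κ : σ → ℕ) (U : MvPowerSeries σ ℂ)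
    (hJ : (Matrix.of fun t i => MvPowerSeries.pderiv ℂ t (ξ i)).det =
      (∏ t, MvPowerSeries.X t ^ κ t) * U)
    (f : ι → MvPolynomial σ (Polynomial k)) (s : ι → k) (M : ι → ℕ) (G H : ι → (BB k σ)⟦X⟧)
    (hf : ∀ o, phi e he D d β ξ (f o) = X ^ M o * G o) (hGH : ∀ o, G o * H o = 1)
    (lg : ι → σ → (BB k σ)⟦X⟧) (hlg : ∀ o t, PD (Th d β t) (G o) = G o * lg o t)
    (sW : k) (A : σ → k) (ρ : (BB k σ)⟦X⟧) (η0 : σ → (BB k σ)⟦X⟧)
    (hρ : ∀ t, PD (Th d β t) ρ = η0 t * ρ)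
    (hη : ∀ t, ∑ o, algebraMap k (BB k σ)⟦X⟧ (s o) * lg o t =
      η0 t + algebraMap k (BB k σ)⟦X⟧ (A t - ((κ t + 1 : ℕ) : k)) +
        algebraMap k (BB k σ)⟦X⟧ sW * C (((d t : k) * β t) • mon (dl d t (-1))))
    (hd : ∀ t, d t ≠ 0) (g : σ → ℤ → k) (p c : ℤ → k)
    (hg : ∀ t l, (d t : k) * β t * g t (l + 1) = (d t * l + A t) * g t l)
    (hc : ∀ m : ℤ, (-sW + m) * c (m + 1) = c m)
    (htp : ∀ v, lam d (fun t => κ t + 1) g p c (tp d β * v) = lam d (fun t => κ t + 1) g p c v)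
    (hzero : ∀ (i : Ty ι) q', PL (lam d (fun t => κ t + 1) g p c)
      (C (mon (fun t => ((κ t + 1 : ℕ) : ℤ), 0)) * SS e he U * phi e he D d β ξ q' *
        (∏ o, zp (G o) (H o) (i.1 o)) * ρ) = 0)
    (N : ℕ) (S : Finset (List (σ ⊕ σ) × Ty ι)) (hS : ∀ w ∈ S, w.1.length + (na w.2.1 + 1) ≤ N)
    (r : List (σ ⊕ σ) × Ty ι → Polynomial k) (Q : Polynomial k)
    (heq : WEq3 (∏ o, f o) (om f fun o => Polynomial.C (s o)) (fun c : Ty ι => qt f c.1)
      (fun c => na c.1 + 1) N S Q r) :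
    Polynomial.aeval (X ^ D : k⟦X⟧) Q * PL (lam d (fun t => κ t + 1) g p c)
      (C (mon (fun t => ((κ t + 1 : ℕ) : ℤ), 0)) * SS e he U * ρ) = 0 := by
  obtain ⟨K, hK⟩ : ∃ K : σ → ℕ, K = fun t => κ t + 1 := ⟨_, rfl⟩
  obtain ⟨φ, hφd⟩ : ∃ φ, φ = phi e he D d β ξ := ⟨_, rfl⟩
  obtain ⟨J, hJJ⟩ : ∃ J : (BB k σ)⟦X⟧, J = (Matrix.of fun t i =>
    PD (Th d β t) (phi e he D d β ξ (MvPolynomial.X i))).det := ⟨_, rfl⟩
  have hJ' : J = X ^ (∑ t, e t * (κ t + 1)) *
      (C (mon (fun t => ((κ t + 1 : ℕ) : ℤ), 0)) * SS e he U) := by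
    rw [hJJ]; exact jac_phi e he D d β ξ κ U hJ
  have hGHp : (∏ o, G o) * ∏ o, H o = 1 := by
    rw [← Finset.prod_mul_distrib]
    exact Finset.prod_eq_one fun o _ => hGH o
  have hfp : φ (∏ o, f o) = X ^ (∑ o, M o) * ∏ o, G o := by
    rw [hφd, map_prod, Finset.prod_congr rfl fun o _ => hf o, Finset.prod_mul_distrib,
      Finset.prod_pow_eq_pow_sum]
  obtain ⟨T, hT⟩ : ∃ T, T = TT d K g p c ρ := ⟨_, rfl⟩
  have hTX : ∀ m u, T u = 0 → T (X ^ m * u) = 0 := by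
    intro m u hu
    rw [hT, TT_X_pow, ← hT, hu, mul_zero]
  rw [← hK] at htp hzero ⊢
  rw [← hφd] at hzero
  -- the types
  have hzero' : ∀ (i : Ty ι) q', T (J * φ q' *
      (φ (qt f i.1) * (∏ o, G o) * (∏ o, H o) ^ (na i.1 + 1))) = 0 := by
    intro i q'
    have h1 : φ (qt f i.1) * (∏ o, G o) * (∏ o, H o) ^ (na i.1 + 1) =
        X ^ (∑ o, M o * (i.1 o + na i.1).toNat) * ∏ o, zp (G o) (H o) (i.1 o) := by
      rw [hφd, qt, map_prod, ← Finset.prod_pow, ← Finset.prod_mul_distrib,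
        ← Finset.prod_mul_distrib, ← Finset.prod_pow_eq_pow_sum, ← Finset.prod_mul_distrib]
      refine Finset.prod_congr rfl fun o _ => ?_
      have h2 := le_na i.1 o
      rw [map_pow, hf, mul_pow, ← pow_mul,
        ← zp_eq (G o) (H o) (hGH o) ((i.1 o + na i.1).toNat + 1) (na i.1 + 1) (i.1 o) (by omega),
        pow_succ]
      ring
    have h2 : J * φ q' * (φ (qt f i.1) * (∏ o, G o) * (∏ o, H o) ^ (na i.1 + 1)) * ρ =
        X ^ (∑ t, e t * (κ t + 1) + ∑ o, M o * (i.1 o + na i.1).toNat) *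
        (C (mon (fun t => ((κ t + 1 : ℕ) : ℤ), 0)) * SS e he U * φ q' *
        (∏ o, zp (G o) (H o) (i.1 o)) * ρ) := by
      rw [h1, hJ', pow_add]
      ring
    rw [hT, TT_apply, h2, PL_X_pow, hzero i q', mul_zero]
  have hCz : ∀ z : k, φ (MvPolynomial.C (Polynomial.C z)) = algebraMap k (BB k σ)⟦X⟧ z := by
    intro z
    rw [hφd, phi_C, psi, Polynomial.aeval_C]
  have hφder := phi_der (k := k) e he D d β ξ
  rw [← hφd] at hφder
  have hω : ∀ t, X ^ (∑ o, M o) * (∏ o, G o) * (∑ o, algebraMap k (BB k σ)⟦X⟧ (s o) * lg o t) =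
      ∑ i, PD (Th d β t) (φ (MvPolynomial.X i)) * φ (om f (fun o => Polynomial.C (s o)) i) := by
    intro t
    have h1 : ∀ o, PD (Th d β t) (φ (f o)) = φ (f o) * lg o t := by
      intro o
      rw [hφd, hf, Derivation.leibniz, PD_X_pow, smul_zero, add_zero, smul_eq_mul, hlg]
      ring
    have h2 : ∀ i, PD (Th d β t) (φ (MvPolynomial.X i)) *
        φ (om f (fun o => Polynomial.C (s o)) i) =
        ∑ o, algebraMap k (BB k σ)⟦X⟧ (s o) * ((∏ j ∈ Finset.univ.erase o, φ (f j)) *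
          (PD (Th d β t) (φ (MvPolynomial.X i)) * φ (MvPolynomial.pderiv i (f o)))) := by
      intro i
      rw [om, map_sum, Finset.mul_sum]
      refine Finset.sum_congr rfl fun o _ => ?_
      rw [map_mul, map_mul, map_prod, hCz]
      ring
    rw [Finset.sum_congr rfl fun i _ => h2 i, Finset.sum_comm, Finset.mul_sum]
    refine Finset.sum_congr rfl fun o _ => ?_
    rw [← Finset.mul_sum, ← Finset.mul_sum, ← hφder, h1, ← hfp, map_prod,
      ← Finset.prod_erase_mul _ _ (Finset.mem_univ o)]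
    ring
  have heng : ∀ (w : List (σ ⊕ σ) × Ty ι) q', T (J * φ q' *
      (φ (q3 (∏ o, f o) (om f fun o => Polynomial.C (s o)) (qt f w.2.1) (na w.2.1 + 1) w.1) *
        (∏ o, G o) * (∏ o, H o) ^ (w.1.length + (na w.2.1 + 1)))) = 0 := by
    intro w q'
    rw [hJJ, ← hφd]
    refine engine3 (fun t => (PD (Th d β t)).restrictScalars ℂ)
      (fun s t u => PD_comm _ _ (Th_comm d β s t) u) φ hφder
      (∏ o, f o) (om f fun o => Polynomial.C (s o))
      (fun t => ∑ o, algebraMap k (BB k σ)⟦X⟧ (s o) * lg o t)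
      (X ^ (∑ o, M o)) (∏ o, G o) (∏ o, H o) hfp hGHp
      (fun t => PD_X_pow (Th d β t) _) (fun t => hω t) T (hTX _) (fun t u => ?_) (qt f w.2.1)
      (na w.2.1 + 1) (fun q' => ?_) w.1 q'
    · have h1 := TT_twist3 d β K A g p c ρ η0 sW hd hρ hg hc t u
      have h2 := hη t
      rw [hT]
      have h3 : (A t - (K t : k)) = A t - ((κ t + 1 : ℕ) : k) := by rw [hK]
      rw [h3, ← h2] at h1
      exact h1
    · have := hzero' w.2 q'
      rw [hJJ, ← hφd] at this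
      exact this
  have h5 := final_step3 φ (∏ o, f o) (om f fun o => Polynomial.C (s o))
    (fun c : Ty ι => qt f c.1) (fun c => na c.1 + 1) X (∏ o, G o) (∏ o, H o) J _ hfp hGHp T hTX
    heng N S hS r Q heq
  rw [hT, TT_X_pow, hφd, phi_C, TT_psi D d β K g p c ρ htp, hJ', TT_X_pow, TT_apply] at h5
  have h6 : ∀ (m : ℕ) (v : k⟦X⟧), X ^ m * v = 0 → v = 0 := by
    intro m v hv
    ext n
    have := congrArg (coeff (n + m)) hv
    rwa [coeff_X_pow_mul, map_zero] at this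
  have h7 := h6 _ _ h5
  have h8 : X ^ (∑ t, e t * (κ t + 1)) * (Polynomial.aeval (X ^ D : k⟦X⟧) Q *
      PL (lam d K g p c) (C (mon (fun t => ((κ t + 1 : ℕ) : ℤ), 0)) * SS e he U * ρ)) = 0 := by
    rw [← h7]
    ring
  exact h6 _ _ h8

end Core

end Pool.Agent.H63.VM
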