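import Pool.Agent.H63.VM.Fac

set_option autoImplicit false
set_option linter.unusedSectionVars false

/-! # The engine in a chart, with factors -/

namespace Pool.Agent.H63.VM

open PowerSeries Pool.Agent.H63.VH

theorem map_zp {R S : Type} [CommRing R] [CommRing S] (h : R →+* S) (G H : R) (c : ℤ) :
    h (zp G H c) = zp (h G) (h H) c := by
  rw [zp, zp, map_mul, map_pow, map_pow]

variable {k σ : Type} [CommRing k] [Algebra ℂ k] [Fintype σ] [DecidableEq σ]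

theorem PD_C_mon (d : σ → ℕ) (β : σ → k) (t : σ) (γ : Gam σ) :
    PD (Th d β t) (C (mon γ)) = algebraMap k (BB k σ)⟦X⟧ (γ.1 t : k) * C (mon γ) +
      algebraMap k (BB k σ)⟦X⟧ (γ.2 : k) * C (((d t : k) * β t) • mon (dl d t (-1))) *
        C (mon γ) := by
  rw [PD_C, Th_mon]
  have h1 : ∀ (r : k) (v : BB k σ), (C (r • v) : (BB k σ)⟦X⟧) =
      algebraMap k (BB k σ)⟦X⟧ r * C v := by
    intro r v
    ext n
    rw [coeff_algebraMap_mul, coeff_C, coeff_C]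
    split_ifs
    · rfl
    · rw [smul_zero]
  rw [map_add, h1, h1, h1, ← mon_mul, map_mul, map_mul, map_mul]
  ring

theorem PL_algebraMap (l : BB k σ →ₗ[k] k) (r : k) (u : (BB k σ)⟦X⟧) :
    PL l (algebraMap k (BB k σ)⟦X⟧ r * u) = algebraMap k k⟦X⟧ r * PL l u := by
  rw [← Algebra.smul_def, ← Algebra.smul_def]
  ext n
  rw [coeff_PL, PowerSeries.coeff_smul, PowerSeries.coeff_smul, map_smul, coeff_PL]

section Core

variable (e : σ → ℕ) (he : ∀ t, e t ≠ 0) (D : ℕ) (d : σ → ℕ) (b : σ → k)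
  (ξ : σ → MvPowerSeries σ ℂ) {ι : Type} [Fintype ι] [DecidableEq ι]

include he in
theorem chart_core4 (κ a : σ → ℕ) (U : MvPowerSeries σ ℂ)
    (hJ : (Matrix.of fun t i => MvPowerSeries.pderiv ℂ t (ξ i)).det =
      (∏ t, MvPowerSeries.X t ^ κ t) * U)
    (f : ι → MvPolynomial σ (Polynomial k)) (s : ι → k) (M : ι → ℕ) (γ : ι → Gam σ)
    (β β' : ι → k) (hβ : ∀ o, β o * β' o = 1) (z z' ρ : ι → (BB k σ)⟦X⟧)
    (hf : ∀ o, phi e he D d b ξ (f o) = X ^ M o * (C (mon (fun t => (a t : ℤ), 0)) *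
      (C (mon (γ o)) * (algebraMap k (BB k σ)⟦X⟧ (β o) * (1 + z o)))))
    (hz' : ∀ o, (1 + z o) * z' o = 1)
    (hρ : ∀ o (D' : Derivation k (BB k σ) (BB k σ)),
      (1 + z o) * PD D' (ρ o) = s o • (ρ o * PD D' (z o)))
    (hd : ∀ t, d t ≠ 0) (g : σ → ℤ → k) (p c : ℤ → k)
    (hg : ∀ t l, (d t : k) * b t * g t (l + 1) = (d t * l + (((κ t + 1 : ℕ) : k) +
      ∑ o, s o * (a t + ((γ o).1 t : k)))) * g t l)
    (hc : ∀ m : ℤ, (-(∑ o, s o * ((γ o).2 : k)) + m) * c (m + 1) = c m)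
    (htp : ∀ v, lam d (fun t => κ t + 1) g p c (tp d b * v) = lam d (fun t => κ t + 1) g p c v)
    (hzero : ∀ (i : Ty ι) q', PL (lam d (fun t => κ t + 1) g p c)
      (C (mon ((fun t => ((κ t + 1 : ℕ) : ℤ) + a t, 0) + ∑ o, i.1 o • γ o)) *
        (SS e he U * phi e he D d b ξ q' * ∏ o, (zp (1 + z o) (z' o) (i.1 o) * ρ o))) = 0)
    (N : ℕ) (S : Finset (List (σ ⊕ σ) × Ty ι)) (hS : ∀ w ∈ S, w.1.length + (na w.2.1 + 1) ≤ N)
    (r : List (σ ⊕ σ) × Ty ι → Polynomial k) (Q : Polynomial k)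
    (heq : WEq3 (∏ o, f o) (om f fun o => Polynomial.C (s o)) (fun c : Ty ι => qt f c.1)
      (fun c => na c.1 + 1) N S Q r) :
    Polynomial.aeval (X ^ D : k⟦X⟧) Q * PL (lam d (fun t => κ t + 1) g p c)
      (C (mon (fun t => ((κ t + 1 : ℕ) : ℤ), 0)) * SS e he U * ∏ o, ρ o) = 0 := by
  obtain ⟨a0, ha0⟩ : ∃ a0 : Gam σ, a0 = (fun t => (a t : ℤ), 0) := ⟨_, rfl⟩
  obtain ⟨G, hG⟩ : ∃ G : ι → (BB k σ)⟦X⟧, G = fun o => C (mon (a0 + γ o)) *
    (algebraMap k (BB k σ)⟦X⟧ (β o) * (1 + z o)) := ⟨_, rfl⟩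
  obtain ⟨H, hH⟩ : ∃ H : ι → (BB k σ)⟦X⟧, H = fun o => C (mon (-(a0 + γ o))) *
    (algebraMap k (BB k σ)⟦X⟧ (β' o) * z' o) := ⟨_, rfl⟩
  have hββ : ∀ o, algebraMap k (BB k σ)⟦X⟧ (β o) * algebraMap k (BB k σ)⟦X⟧ (β' o) = 1 :=
    fun o => by rw [← map_mul, hβ, map_one]
  have hmm : ∀ γ : Gam σ, (C (mon γ) * C (mon (-γ)) : (BB k σ)⟦X⟧) = 1 := fun γ => by
    rw [← map_mul, mon_mul, add_neg_cancel, mon_zero, map_one]
  have hGH : ∀ o, G o * H o = 1 := by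
    intro o
    rw [hG, hH]
    linear_combination (algebraMap k (BB k σ)⟦X⟧ (β o) * (1 + z o) *
      (algebraMap k (BB k σ)⟦X⟧ (β' o) * z' o)) * hmm (a0 + γ o) +
      ((1 + z o) * z' o) * hββ o + hz' o
  obtain ⟨lg, hlgd⟩ : ∃ lg : ι → σ → (BB k σ)⟦X⟧, lg = fun o t =>
    algebraMap k (BB k σ)⟦X⟧ (a t + ((γ o).1 t : k)) +
      algebraMap k (BB k σ)⟦X⟧ ((γ o).2 : k) * C (((d t : k) * b t) • mon (dl d t (-1))) +
      PD (Th d b t) (z o) * z' o := ⟨_, rfl⟩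
  have hlg : ∀ o t, PD (Th d b t) (G o) = G o * lg o t := by
    intro o t
    have h1 : PD (Th d b t) (algebraMap k (BB k σ)⟦X⟧ (β o) * (1 + z o)) =
        algebraMap k (BB k σ)⟦X⟧ (β o) * PD (Th d b t) (z o) := by
      rw [← Algebra.smul_def, Derivation.map_smul, map_add, Derivation.map_one_eq_zero, zero_add,
        Algebra.smul_def]
    have e1 : (a0 + γ o).1 t = (a t : ℤ) + (γ o).1 t := by rw [ha0]; rfl
    have e2 : (a0 + γ o).2 = (γ o).2 := by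
      rw [ha0]
      change 0 + (γ o).2 = _
      rw [zero_add]
    rw [hG, hlgd]
    simp only
    rw [Derivation.leibniz, h1, PD_C_mon, smul_eq_mul, smul_eq_mul, e1, e2]
    push_cast
    linear_combination (-(C (mon (a0 + γ o)) * algebraMap k (BB k σ)⟦X⟧ (β o) *
      PD (Th d b t) (z o))) * hz' o
  refine chart_core3 e he D d b ξ κ U hJ f s M G H (fun o => ?_) hGH lg hlg
    (∑ o, s o * ((γ o).2 : k)) (fun t => ((κ t + 1 : ℕ) : k) + ∑ o, s o * (a t + ((γ o).1 t : k)))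
    (∏ o, ρ o) (fun t => ∑ o, algebraMap k (BB k σ)⟦X⟧ (s o) * (PD (Th d b t) (z o) * z' o))
    (fun t => ?_) (fun t => ?_) hd g p c hg hc htp (fun i q' => ?_) N S hS r Q heq
  · rw [hf o, hG, ha0]
    simp only
    rw [← mon_mul, map_mul]
    ring
  · have h1 : ∀ o, PD (Th d b t) (ρ o) =
        algebraMap k (BB k σ)⟦X⟧ (s o) * (PD (Th d b t) (z o) * z' o) * ρ o := by
      intro o
      have h2 := hρ o (Th d b t)
      rw [Algebra.smul_def] at h2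
      linear_combination z' o * h2 - PD (Th d b t) (ρ o) * hz' o
    have h2 : ∀ u : Finset ι, PD (Th d b t) (∏ o ∈ u, ρ o) =
        (∑ o ∈ u, algebraMap k (BB k σ)⟦X⟧ (s o) * (PD (Th d b t) (z o) * z' o)) *
          ∏ o ∈ u, ρ o := by
      intro u
      induction u using Finset.induction_on with
      | empty => simp
      | insert o u ho ih =>
        rw [Finset.prod_insert ho, Finset.sum_insert ho, Derivation.leibniz, ih, h1]
        simp only [smul_eq_mul]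
        ring
    exact h2 Finset.univ
  · rw [hlgd]
    simp only
    have h1 : ∀ o, algebraMap k (BB k σ)⟦X⟧ (s o) *
        (algebraMap k (BB k σ)⟦X⟧ (a t + ((γ o).1 t : k)) +
        algebraMap k (BB k σ)⟦X⟧ ((γ o).2 : k) * C (((d t : k) * b t) • mon (dl d t (-1))) +
        PD (Th d b t) (z o) * z' o) = algebraMap k (BB k σ)⟦X⟧ (s o * (a t + ((γ o).1 t : k))) +
        algebraMap k (BB k σ)⟦X⟧ (s o * ((γ o).2 : k)) *
          C (((d t : k) * b t) • mon (dl d t (-1))) +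
        algebraMap k (BB k σ)⟦X⟧ (s o) * (PD (Th d b t) (z o) * z' o) := by
      intro o
      rw [map_mul, map_mul]
      ring
    rw [Finset.sum_congr rfl fun o _ => h1 o, Finset.sum_add_distrib, Finset.sum_add_distrib,
      ← Finset.sum_mul, ← map_sum, ← map_sum, add_sub_cancel_left]
    ring
  · have h1 : ∏ o, zp (G o) (H o) (i.1 o) = C (mon (a0 + ∑ o, i.1 o • γ o)) *
        (algebraMap k (BB k σ)⟦X⟧ (∏ o, zp (β o) (β' o) (i.1 o)) *
          ∏ o, zp (1 + z o) (z' o) (i.1 o)) := by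
      have h2 : ∑ o, i.1 o • (a0 + γ o) = a0 + ∑ o, i.1 o • γ o := by
        have h3 : ∑ o, i.1 o • a0 = a0 := by rw [← Finset.sum_smul, i.2, one_smul]
        simp only [smul_add]
        rw [Finset.sum_add_distrib, h3]
      rw [← h2, ← prod_mon, map_prod, ← Finset.prod_mul_distrib, ← Finset.prod_mul_distrib]
      refine Finset.prod_congr rfl fun o _ => ?_
      rw [hG, hH]
      simp only
      rw [zp_mul, zp_mul, zp_mon, map_zp]
    have h2 : C (mon (fun t => ((κ t + 1 : ℕ) : ℤ), 0)) * SS e he U * phi e he D d b ξ q' *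
        (∏ o, zp (G o) (H o) (i.1 o)) * (∏ o, ρ o) =
        algebraMap k (BB k σ)⟦X⟧ (∏ o, zp (β o) (β' o) (i.1 o)) *
        (C (mon ((fun t => ((κ t + 1 : ℕ) : ℤ) + a t, 0) + ∑ o, i.1 o • γ o)) *
        (SS e he U * phi e he D d b ξ q' * ∏ o, (zp (1 + z o) (z' o) (i.1 o) * ρ o))) := by
      have h3 : (C (mon ((fun t => ((κ t + 1 : ℕ) : ℤ) + a t, 0) + ∑ o, i.1 o • γ o)) :
          (BB k σ)⟦X⟧) = C (mon (fun t => ((κ t + 1 : ℕ) : ℤ), 0)) *
            C (mon (a0 + ∑ o, i.1 o • γ o)) := by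
        rw [← map_mul, mon_mul, ha0, ← add_assoc]
        congr 3
      rw [h1, h3, Finset.prod_mul_distrib]
      ring
    rw [h2, PL_algebraMap, hzero, mul_zero]

end Core

/-- the vanishing of the functional -/
theorem zero_Z (d K : σ → ℕ) (Z : Gam σ → Prop) (g : σ → ℤ → k) (p c : ℤ → k)
    (hval : ∀ γ, Z γ → val d K g p c γ = 0) (γ0 : Gam σ) (hγ0 : Z γ0)
    (u : (BB k σ)⟦X⟧) (hu : u ∈ Rp Z) :
    PL (lam d K g p c) (C (mon γ0) * u) = 0 := by
  refine PL_zero _ _ fun n => ?_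
  rw [coeff_C_mul, mul_comm]
  have h1 := lam_Ip Z (⊥ : Ideal k) d K g p c (fun γ hγ => by
    rw [hval γ hγ]; exact Submodule.zero_mem _) _ (hu n (mon γ0) (Submodule.subset_span
      ⟨γ0, hγ0, rfl⟩))
  exact (Submodule.mem_bot k).1 h1

section Rec

variable (ε : k) (hunit : ∀ (r : ℂ) (x : k), r ≠ 0 → IsUnit (algebraMap ℂ k r + ε * x))
  (d : σ → ℕ) (hd : ∀ t, d t ≠ 0) (b : σ → ℂ) (A0 : σ → ℂ) (xA A : σ → k)
  (hA : ∀ t, A t = algebraMap ℂ k (A0 t) + ε * xA t)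
  (hb : ∀ t, (b t ≠ 0 ∧ ∀ n : ℕ, 1 ≤ n → A0 t ≠ d t * n) ∨ (b t = 0 ∧ A t = 0))

include hunit hd hA hb in
theorem exists_g3 :
    ∃ g : σ → ℤ → k, (∀ t, g t 0 = 1) ∧ (∀ t l, (d t : k) * algebraMap ℂ k (b t) * g t (l + 1) =
      (d t * l + A t) * g t l) ∧
      (∀ t, A0 t = 0 → ∀ l : ℤ, 1 ≤ l → ∃ x, g t l = ε * x) ∧
      ∀ t, b t = 0 → ∀ l : ℤ, l ≠ 0 → g t l = 0 := by
  have h : ∀ t, ∃ g : ℤ → k, g 0 = 1 ∧ (∀ l : ℤ, (d t : k) * algebraMap ℂ k (b t) * g (l + 1) =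
      (d t * l + A t) * g l) ∧ (A0 t = 0 → ∀ l : ℤ, 1 ≤ l → ∃ x, g l = ε * x) ∧
      (b t = 0 → ∀ l : ℤ, l ≠ 0 → g l = 0) := by
    intro t
    rcases hb t with ⟨hbt, hn⟩ | ⟨hbt, hz⟩
    · have hu : IsUnit ((d t : k) * algebraMap ℂ k (b t)) := by
        have h1 := hunit (d t * b t) 0 (mul_ne_zero (Nat.cast_ne_zero.2 (hd t)) hbt)
        rwa [mul_zero, add_zero, map_mul, map_natCast] at h1
      obtain ⟨g, hg0, hg⟩ := exists_rec (fun _ => (d t : k) * algebraMap ℂ k (b t))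
        (fun l => d t * l + A t) (fun _ _ => hu) (fun n hn' => by
          obtain ⟨m, rfl⟩ : ∃ m : ℕ, n = -(m : ℤ) := ⟨(-n).toNat, by omega⟩
          have h1 := hunit (-(d t * m) + A0 t) (xA t) (by
            intro h0
            exact hn m (by omega) (by linear_combination h0))
          have h2 : (d t : k) * ((-(m : ℤ) : ℤ) : k) + A t =
              algebraMap ℂ k (-(d t * m) + A0 t) + ε * xA t := by
            rw [hA, map_add, map_neg, map_mul, map_natCast, map_natCast]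
            push_cast
            ring
          rw [h2]
          exact h1)
      refine ⟨g, hg0, hg, fun h0 l hl => ?_, fun h0 => absurd h0 hbt⟩
      exact g_eps ε _ hu g (d t) (A t) ⟨xA t, by rw [hA, h0, map_zero, zero_add]⟩ hg l hl
    · refine ⟨fun l => if l = 0 then 1 else 0, if_pos rfl, fun l => ?_, fun _ l hl => ?_,
        fun _ l hl => if_neg hl⟩
      · rw [hz, hbt, map_zero, mul_zero, zero_mul, add_zero]
        by_cases hl : l = 0
        · rw [hl, Int.cast_zero, mul_zero, zero_mul]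
        · simp only [if_neg hl, mul_zero]
      · refine ⟨0, ?_⟩
        simp only [if_neg (show l ≠ 0 by omega), mul_zero]
  choose g hg0 hg hg2 hg3 using h
  exact ⟨g, hg0, hg, hg2, hg3⟩

include hunit hd hA hb in
theorem rec_data (σ0 : ℂ) (xσ sW : k) (hsW : sW = algebraMap ℂ k σ0 + ε * xσ)
    (hσ : ∀ n : ℕ, -σ0 + n ≠ 0) (hND : ∀ n : ℕ, 1 ≤ n → -σ0 - ∑ t, A0 t / d t ≠ n)
    (K : σ → ℕ) :
    ∃ (g : σ → ℤ → k) (p c : ℤ → k), (∀ t, g t 0 = 1) ∧ p 0 = 1 ∧ c 0 = 1 ∧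
      (∀ t l, (d t : k) * algebraMap ℂ k (b t) * g t (l + 1) = (d t * l + A t) * g t l) ∧
      (∀ m : ℤ, (-sW + m) * c (m + 1) = c m) ∧
      (∀ v, lam d K g p c (tp d (fun t => algebraMap ℂ k (b t)) * v) = lam d K g p c v) ∧
      (∀ t, A0 t = 0 → ∀ l : ℤ, 1 ≤ l → ∃ x, g t l = ε * x) ∧
      ∀ t, b t = 0 → ∀ l : ℤ, l ≠ 0 → g t l = 0 := by
  obtain ⟨g, hg0, hg, hg2, hg3⟩ := exists_g3 ε hunit d hd b A0 xA A hA hb
  obtain ⟨c, hc0, hc⟩ := exists_rec (fun m : ℤ => -sW + (m : k)) (fun _ => 1)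
    (fun n hn => by
      obtain ⟨m, rfl⟩ : ∃ m : ℕ, n = m := ⟨n.toNat, by omega⟩
      have h1 := hunit (-σ0 + m) (-xσ) (hσ m)
      have h2 : -sW + (((m : ℕ) : ℤ) : k) = algebraMap ℂ k (-σ0 + m) + ε * (-xσ) := by
        rw [hsW, map_add, map_neg, map_natCast]
        push_cast
        ring
      rw [h2]
      exact h1) (fun _ _ => isUnit_one)
  have hc' : ∀ m : ℤ, (-sW + m) * c (m + 1) = c m := fun m => by rw [hc, one_mul]
  obtain ⟨p, hp0, hp⟩ := exists_p ε hunit (-σ0 - ∑ t, A0 t / d t)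
    (-xσ - ∑ t, xA t * algebraMap ℂ k (d t : ℂ)⁻¹) hND
  have hdi : ∀ t, (d t : k) * algebraMap ℂ k (d t : ℂ)⁻¹ = 1 := by
    intro t
    rw [← map_natCast (algebraMap ℂ k), ← map_mul, mul_inv_cancel₀ (Nat.cast_ne_zero.2 (hd t)),
      map_one]
  refine ⟨g, p, c, hg0, hp0, hc0, hg, hc', ?_, hg2, hg3⟩
  refine lam_tp d K g p c hd (fun t => algebraMap ℂ k (d t : ℂ)⁻¹) hdi hg hc' hp ?_
  rw [hsW, map_sub, map_neg, map_sum, mul_sub, Finset.mul_sum]
  have h1 : ∀ t, A t * algebraMap ℂ k (d t : ℂ)⁻¹ = algebraMap ℂ k (A0 t / d t) +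
        ε * (xA t * algebraMap ℂ k (d t : ℂ)⁻¹) := by
    intro t
    rw [hA, div_eq_mul_inv, map_mul]
    ring
  rw [Finset.sum_congr rfl fun t _ => h1 t, Finset.sum_add_distrib]
  ring

end Rec

end Pool.Agent.H63.VM
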