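import Pool.Agent.H63.VL.Eng

set_option autoImplicit false
set_option linter.unusedSectionVars false

/-! # The engine for arbitrary closed forms -/

namespace Pool.Agent.H63.VM

open MvPolynomial Pool.Agent.H63.VG Pool.Agent.H628R4.TP

section Words

variable {σ A : Type} [CommRing A]

/-- The polynomial `q_w` with `w (q g ^ (1 - l) Ψ) = q_w g ^ (1 - l - |w|) Ψ` if
`∂ i Ψ = (ω i / g) Ψ`. -/
noncomputable def q3 (g : MvPolynomial σ A) (ω : σ → MvPolynomial σ A) (q : MvPolynomial σ A)
    (l : ℕ) : List (σ ⊕ σ) → MvPolynomial σ A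
  | [] => q
  | Sum.inl i :: w => X i * g * q3 g ω q l w
  | Sum.inr i :: w => g * pderiv i (q3 g ω q l w) +
      (ω i + C (1 - ((w.length + l : ℕ) : A)) * pderiv i g) * q3 g ω q l w

theorem map_q3 {A' : Type} [CommRing A'] (h : A →+* A') (g : MvPolynomial σ A)
    (ω : σ → MvPolynomial σ A) (q : MvPolynomial σ A) (l : ℕ) (w : List (σ ⊕ σ)) :
    map h (q3 g ω q l w) = q3 (map h g) (fun i => map h (ω i)) (map h q) l w := by
  induction w with
  | nil => simp [q3]
  | cons a w ih =>
    cases a with
    | inl i => simp [q3, ih]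
    | inr i => simp only [q3, map_add, map_mul, ← ih, pderiv_map, map_C, map_sub, map_one,
        map_natCast]

theorem act_q3 (g Φ q : MvPolynomial σ ℂ) (ω : σ → MvPolynomial σ ℂ) (l : ℕ)
    (hΦ : ∀ i, pderiv i Φ * g = (ω i + C (1 - (l : ℂ)) * pderiv i g) * Φ) (w : List (σ ⊕ σ)) :
    act w (q * Φ) * g ^ w.length = q3 g ω q l w * Φ := by
  induction w with
  | nil => simp [act, q3]
  | cons a w ih =>
    cases a with
    | inl i =>
      simp only [act, q3, List.length_cons, pow_succ, Module.End.mul_apply, LinearMap.mulLeft_apply]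
      linear_combination (X i * g) * ih
    | inr i =>
      simp only [act, q3, List.length_cons, Module.End.mul_apply]
      set G := act w (q * Φ) with hG
      have h1 := congrArg (pderiv i) ih
      rw [Derivation.leibniz, Derivation.leibniz, Derivation.leibniz_pow] at h1
      simp only [smul_eq_mul, nsmul_eq_mul] at h1
      have e1 : (w.length : MvPolynomial σ ℂ) * (g ^ (w.length - 1) * g) = w.length * g ^ w.length := by
        rcases Nat.eq_zero_or_pos w.length with h | h
        · rw [h]; simp
        · rw [← pow_succ]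
          congr 2
          omega
      have e2 : (C (1 - ((w.length + l : ℕ) : ℂ)) : MvPolynomial σ ℂ) =
          C (1 - (l : ℂ)) - (w.length : MvPolynomial σ ℂ) := by
        have h2 : (1 : ℂ) - ((w.length + l : ℕ) : ℂ) = (1 - (l : ℂ)) - (w.length : ℂ) := by
          push_cast
          ring
        rw [h2, map_sub, map_natCast]
      change pderiv i G * g ^ (w.length + 1) = _
      rw [e2, pow_succ g w.length]
      linear_combination g * h1 - G * pderiv i g * e1 + q3 g ω q l w * hΦ i -
        (w.length : MvPolynomial σ ℂ) * pderiv i g * ih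

end Words

section Engine

variable {σ A R W : Type} [Fintype σ] [DecidableEq σ] [CommRing A] [CommRing R] [Algebra ℂ R]
  [AddCommGroup W]

theorem engine3 (θ : σ → Derivation ℂ R R) (hcomm : ∀ s t u, θ s (θ t u) = θ t (θ s u))
    (φ : MvPolynomial σ A →+* R)
    (hφ : ∀ t p, θ t (φ p) = ∑ i, θ t (φ (X i)) * φ (pderiv i p))
    (g : MvPolynomial σ A) (ω : σ → MvPolynomial σ A) (η : σ → R)
    (e G H : R) (hf : φ g = e * G) (hH : G * H = 1) (he : ∀ t, θ t e = 0)
    (hω : ∀ t, e * G * η t = ∑ i, θ t (φ (X i)) * φ (ω i))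
    (T : R →+ W) (hTe : ∀ u, T u = 0 → T (e * u) = 0)
    (hT : ∀ t u, T (θ t u + η t * u) = 0) (q : MvPolynomial σ A) (l : ℕ)
    (h0 : ∀ p, T ((Matrix.of fun t k => θ t (φ (X k))).det * φ p * (φ q * G * H ^ l)) = 0)
    (w : List (σ ⊕ σ)) (p : MvPolynomial σ A) :
    T ((Matrix.of fun t k => θ t (φ (X k))).det * φ p *
      (φ (q3 g ω q l w) * G * H ^ (w.length + l))) = 0 := by
  set M : Matrix σ σ R := Matrix.of fun t k => θ t (φ (X k)) with hM
  have hθH : ∀ t, θ t H = -(H ^ 2 * θ t G) := by
    intro t
    have h1 : θ t (G * H) = 0 := by rw [hH, Derivation.map_one_eq_zero]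
    rw [Derivation.leibniz, smul_eq_mul, smul_eq_mul] at h1
    have h2 : H * (G * θ t H + H * θ t G) = 0 := by rw [h1, mul_zero]
    linear_combination h2 - θ t H * hH
  have hηω : ∀ i, e * G * (∑ t, M.adjugate i t * η t) = M.det * φ (ω i) := by
    intro i
    have h1 : ∀ t, e * G * (M.adjugate i t * η t) = ∑ k, M.adjugate i t * M t k * φ (ω k) := by
      intro t
      have h2 : e * G * (M.adjugate i t * η t) = M.adjugate i t * (e * G * η t) := by ring
      rw [h2, hω, Finset.mul_sum]
      refine Finset.sum_congr rfl fun k _ => ?_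
      rw [hM, Matrix.of_apply]
      ring
    rw [Finset.mul_sum, Finset.sum_congr rfl fun t _ => h1 t, Finset.sum_comm]
    have h2 : ∀ k, ∑ t, M.adjugate i t * M t k * φ (ω k) =
        (M.adjugate * M) i k * φ (ω k) := by
      intro k
      rw [Matrix.mul_apply, Finset.sum_mul]
    rw [Finset.sum_congr rfl fun k _ => h2 k, Matrix.adjugate_mul, Finset.sum_eq_single i]
    · rw [Matrix.smul_apply, Matrix.one_apply_eq, smul_eq_mul, mul_one]
    · intro k _ hk
      rw [Matrix.smul_apply, Matrix.one_apply_ne (Ne.symm hk), smul_zero, zero_mul]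
    · intro h; exact absurd (Finset.mem_univ i) h
  induction w generalizing p with
  | nil =>
    have := h0 p
    simpa [q3] using this
  | cons a w ih =>
    cases a with
    | inl i =>
      have h1 := hTe _ (ih (p * X i))
      rw [← h1]
      congr 1
      have e1 : (Sum.inl i :: w : List (σ ⊕ σ)).length + l = w.length + l + 1 := by
        rw [List.length_cons]; omega
      rw [e1]
      simp only [q3, map_mul, pow_succ, hf]
      linear_combination (M.det * φ p * φ (X i) * e * φ (q3 g ω q l w) * G *
        H ^ (w.length + l)) * hH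
    | inr i =>
      set Q := q3 g ω q l w with hQ
      set n := w.length + l with hn
      set u : R := φ p * φ Q * G * H ^ n with hu
      have h1 := hTe _ (T_piola θ hcomm T η hT (fun k => φ (X k)) i u)
      have h2 := hTe _ (ih (pderiv i p))
      have hθu : ∀ t, θ t u + η t * u =
          θ t (φ p) * (φ Q * G * H ^ n) + θ t (φ Q) * (φ p * G * H ^ n) +
          (1 - n) * (θ t G * (φ p * φ Q * H ^ n)) + η t * (φ p * φ Q * G * H ^ n) := by
        intro t
        have h3 : θ t (H ^ n) = -(n * H ^ (n + 1) * θ t G) := by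
          rw [Derivation.leibniz_pow, hθH t, nsmul_eq_mul, smul_eq_mul]
          rcases Nat.eq_zero_or_pos n with h0 | h0
          · rw [h0]; simp
          · obtain ⟨m, hm⟩ : ∃ m, n = m + 1 := ⟨n - 1, by omega⟩
            rw [hm]
            simp only [Nat.add_sub_cancel]
            ring
        rw [hu, Derivation.leibniz, Derivation.leibniz, Derivation.leibniz, h3]
        simp only [smul_eq_mul]
        rw [pow_succ]
        linear_combination (-(n : R) * φ p * φ Q * H ^ n * θ t G) * hH
      have hG : e * ∑ t, M.adjugate i t * θ t G = M.det * φ (pderiv i g) := by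
        rw [← adj_apply θ φ hφ i g, Finset.mul_sum]
        refine Finset.sum_congr rfl fun t _ => ?_
        rw [hf, Derivation.leibniz, he t, smul_zero, add_zero, smul_eq_mul]
        ring
      have hsum : ∑ t, M.adjugate i t * (θ t u + η t * u) =
          (∑ t, M.adjugate i t * θ t (φ p)) * (φ Q * G * H ^ n) +
          (∑ t, M.adjugate i t * θ t (φ Q)) * (φ p * G * H ^ n) +
          (1 - n) * ((∑ t, M.adjugate i t * θ t G) * (φ p * φ Q * H ^ n)) +
          (∑ t, M.adjugate i t * η t) * (φ p * φ Q * G * H ^ n) := by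
        rw [Finset.sum_mul, Finset.sum_mul, Finset.sum_mul, Finset.sum_mul, Finset.mul_sum,
          ← Finset.sum_add_distrib, ← Finset.sum_add_distrib, ← Finset.sum_add_distrib]
        refine Finset.sum_congr rfl fun t _ => ?_
        rw [hθu t]
        ring
      rw [hsum, adj_apply θ φ hφ i p, adj_apply θ φ hφ i Q] at h1
      have e1 : (Sum.inr i :: w : List (σ ⊕ σ)).length + l = n + 1 := by
        rw [List.length_cons]; omega
      have h3 : M.det * φ p * (φ (q3 g ω q l (Sum.inr i :: w)) * G *
          H ^ ((Sum.inr i :: w : List (σ ⊕ σ)).length + l)) =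
          e * (M.det * φ (pderiv i p) * (φ Q * G * H ^ n) +
            M.det * φ (pderiv i Q) * (φ p * G * H ^ n) +
          (1 - n) * ((∑ t, M.adjugate i t * θ t G) * (φ p * φ Q * H ^ n)) +
          (∑ t, M.adjugate i t * η t) * (φ p * φ Q * G * H ^ n))
          - e * (M.det * φ (pderiv i p) * (φ Q * G * H ^ n)) := by
        have h4 : φ (q3 g ω q l (Sum.inr i :: w)) = e * G * φ (pderiv i Q) +
            (φ (ω i) + (1 - n) * φ (pderiv i g)) * φ Q := by
          simp only [q3, ← hQ, map_add, map_mul, hf, map_sub, map_natCast, map_one, ← hn]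
        rw [h4, e1, pow_succ]
        linear_combination (-(1 - n) * (φ p * φ Q * H ^ n)) * hG -
          (φ p * φ Q * H ^ n) * hηω i +
          (M.det * φ p * H ^ n * (e * G * φ (pderiv i Q) +
            (φ (ω i) + (1 - n) * φ (pderiv i g)) * φ Q)) * hH
      rw [h3, map_sub, h1, h2, sub_zero]

end Engine

end Pool.Agent.H63.VM
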