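import Pool.Agent.H63.VM.Core

set_option autoImplicit false
set_option linter.unusedSectionVars false

/-! # The pencils in a chart -/

namespace Pool.Agent.H63.VM

open PowerSeries Pool.Agent.H63.VH

theorem X_cancel {B : Type} [CommRing B] (m : ℕ) (u v : B⟦X⟧) (h : X ^ m * u = X ^ m * v) :
    u = v := by
  ext n
  have := congrArg (coeff (n + m)) h
  rwa [coeff_X_pow_mul, coeff_X_pow_mul] at this

variable {k σ : Type} [CommRing k] [Algebra ℂ k] [Fintype σ] [DecidableEq σ] (e : σ → ℕ)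
  (he : ∀ t, e t ≠ 0)

theorem SS_high3 (f : MvPowerSeries σ ℂ) (N : ℕ)
    (hf : ∀ μ, MvPowerSeries.coeff μ f ≠ 0 → N ≤ wt e μ) :
    ∃ r : (BB k σ)⟦X⟧, (∀ Z, Adm Z → r ∈ Rp Z) ∧ SS e he f = X ^ N * r := by
  obtain ⟨r, -, hr⟩ := SS_high (k := k) e (fun _ => False) (fun _ _ _ _ h => h) he f N hf
  refine ⟨r, fun Z hZ => ?_, hr⟩
  obtain ⟨r', hr', h'⟩ := SS_high (k := k) e Z hZ he f N hf
  rw [X_cancel N r r' (hr.symm.trans h')]
  exact hr'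

theorem SS_low3 (d : σ → ℕ) (b : σ → ℂ) (hd : ∀ t, d t ≠ 0) (D : ℕ) (hD : ∀ t, e t * d t = D)
    (h : MvPowerSeries σ ℂ)
    (hb' : ∀ t, MvPowerSeries.coeff (Finsupp.single t (d t)) h = b t)
    (hh : ∀ μ, MvPowerSeries.coeff μ h ≠ 0 → D < wt e μ ∨ ∃ t, μ = Finsupp.single t (d t)) :
    ∃ r : (BB k σ)⟦X⟧, (∀ Z, Adm Z → r ∈ Rp Z) ∧ SS e he h =
      X ^ D * (C (∑ t, algebraMap ℂ k (b t) • mon (dl d t 0)) + X * r) := by
  obtain ⟨r, -, hr⟩ := SS_low (k := k) e (fun _ => False) (fun _ _ _ _ h => h) he d b hd D hD h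
    hb' hh
  refine ⟨r, fun Z hZ => ?_, hr⟩
  obtain ⟨r', hr', h'⟩ := SS_low (k := k) e Z hZ he d b hd D hD h hb' hh
  have h1 := add_left_cancel (X_cancel D _ _ (hr.symm.trans h'))
  rw [X_cancel 1 r r' (by rwa [pow_one])]
  exact hr'

/-- a factor in the chart -/
structure Fac (Φ : (BB k σ)⟦X⟧) (a : σ → ℕ) (M : ℕ) (γ : Gam σ) (β : k)
    (z : (BB k σ)⟦X⟧) : Prop where
  eq : Φ = X ^ M * (C (mon (fun t => (a t : ℤ), 0)) *
    (C (mon γ) * (algebraMap k (BB k σ)⟦X⟧ β * (1 + z))))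
  const : constantCoeff z = 0
  mem : ∀ Z, Adm Z → (∀ δ, Z δ → Z (-γ + δ)) → z ∈ Rp Z
  mem' : ∀ Z, Adm Z → C (mon γ) * (1 + z) ∈ Rp Z

variable (D : ℕ) (d : σ → ℕ) (b : σ → ℂ) (ξ : σ → MvPowerSeries σ ℂ)

theorem fac_pen (f0 f1 : MvPolynomial σ ℂ) (a : σ → ℕ) (h0 h1 : MvPowerSeries σ ℂ)
    (hf0 : MvPolynomial.aeval ξ f0 = (∏ t, MvPowerSeries.X t ^ a t) * h0)
    (hf1 : MvPolynomial.aeval ξ f1 = (∏ t, MvPowerSeries.X t ^ a t) * h1)
    (hh1 : MvPowerSeries.constantCoeff h1 = 1)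
    (hd : ∀ t, d t ≠ 0) (hD : ∀ t, e t * d t = D)
    (hb' : ∀ t, MvPowerSeries.coeff (Finsupp.single t (d t)) h0 = b t)
    (hh : ∀ μ, MvPowerSeries.coeff μ h0 ≠ 0 →
      D < wt e μ ∨ ∃ t, μ = Finsupp.single t (d t)) :
    ∃ y, Fac (phi e he D d (fun t => algebraMap ℂ k (b t)) ξ (pen f0 f1)) a
      (∑ t, e t * a t + D) (0, 1) 1 y := by
  obtain ⟨r, hr, hr'⟩ := SS_low3 (k := k) e he d b hd D hD h0 hb' hh
  obtain ⟨r1, hr1, hr1'⟩ := SS_high3 (k := k) e he (h1 - 1) 1 (by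
    intro μ hμ
    by_contra hlt
    have h2 : wt e μ = 0 := by omega
    have h3 : μ = 0 := by
      ext t
      rw [wt, Finset.sum_eq_zero_iff] at h2
      rcases Nat.mul_eq_zero.1 (h2 t (Finset.mem_univ t)) with h' | h'
      · exact absurd h' (he t)
      · exact h'
    apply hμ
    rw [h3, MvPowerSeries.coeff_zero_eq_constantCoeff_apply, map_sub, hh1, map_one, sub_self])
  obtain ⟨b', hb1⟩ : ∃ b' : σ → k, b' = fun t => algebraMap ℂ k (b t) := ⟨_, rfl⟩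
  have h4 : SS e he h1 = 1 + X * r1 := by
    rw [map_sub, map_one, pow_one] at hr1'
    linear_combination hr1'
  have h6 : (C (mon (0, 1)) * C (mon (0, -1)) : (BB k σ)⟦X⟧) = 1 := by
    rw [← map_mul, mon_mul]
    have : ((0, 1) + (0, -1) : Gam σ) = 0 := by ext t <;> simp
    rw [this, mon_zero, map_one]
  have hbt : ∀ t, algebraMap ℂ k (b t) = b' t := fun t => by rw [hb1]
  simp only [hbt] at hr' ⊢
  refine ⟨X * (C (mon (0, -1)) * (r + C (tp d b') * r1)), ⟨?_, ?_, fun Z hZ hZ' => ?_,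
    fun Z hZ => ?_⟩⟩
  · have h7 : C (tp d b') = (C (mon (0, 1)) - C (∑ t, b' t • mon (dl d t 0)) : (BB k σ)⟦X⟧) := by
      rw [tp, map_sub]
    rw [pen, map_add, map_mul, phi_map, phi_map, phi_C, hf0, hf1, map_mul, map_mul, SS_prod,
      hr', h4, psi, Polynomial.aeval_X, pow_add, map_one]
    linear_combination (C (mon (fun t => (a t : ℤ), 0)) * X ^ (∑ t, e t * a t) * X ^ D) * h7 -
      (C (mon (fun t => (a t : ℤ), 0)) * X ^ (∑ t, e t * a t) * X ^ D * X *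
        (r + C (tp d b') * r1)) * h6
  · rw [map_mul, constantCoeff_X, zero_mul]
  · refine (Rp Z).mul_mem (X_mem_Rp Z) ((Rp Z).mul_mem (C_mem_Rp Z _ (mon_mem_Bp Z _ fun δ hδ => ?_))
      ((Rp Z).add_mem (hr Z hZ) ((Rp Z).mul_mem (C_mem_Rp Z _ (tp_mem_Bp Z hZ d b')) (hr1 Z hZ))))
    have h := hZ' δ hδ
    have e1 : (-(0, 1) + δ : Gam σ) = (0, -1) + δ := by
      congr 1
    rwa [e1] at h
  · have e1 : C (mon (0, 1)) * (1 + X * (C (mon (0, -1)) * (r + C (tp d b') * r1))) =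
        C (mon (0, 1)) + X * (r + C (tp d b') * r1) := by
      linear_combination (X * (r + C (tp d b') * r1)) * h6
    rw [e1]
    exact (Rp Z).add_mem (C_mem_Rp Z _ (mon_mem_Bp Z _ fun δ hδ => hZ _ δ (fun t => le_refl _)
      (by simp) hδ)) ((Rp Z).mul_mem (X_mem_Rp Z) ((Rp Z).add_mem (hr Z hZ)
        ((Rp Z).mul_mem (C_mem_Rp Z _ (tp_mem_Bp Z hZ d b')) (hr1 Z hZ))))

/-- power series with a leading monomial -/
structure Lead (e : σ → ℕ) (δ : σ →₀ ℕ) (β : ℂ) (h : MvPowerSeries σ ℂ) : Prop where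
  co : MvPowerSeries.coeff δ h = β
  wt : ∀ μ, MvPowerSeries.coeff μ h ≠ 0 → μ = δ ∨ wt e δ < VH.wt e μ

theorem coeff_prod_X (δ μ : σ →₀ ℕ) :
    MvPowerSeries.coeff μ (∏ t, (MvPowerSeries.X t : MvPowerSeries σ ℂ) ^ δ t) =
      if μ = δ then 1 else 0 := by
  have h1 : (∏ t, (MvPowerSeries.X t : MvPowerSeries σ ℂ) ^ δ t) =
      MvPowerSeries.monomial δ 1 := by
    have h2 := MvPolynomial.monomial_eq (R := ℂ) (s := δ) (a := 1)
    rw [MvPolynomial.C_1, one_mul, Finsupp.prod_fintype _ _ fun _ => pow_zero _] at h2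
    have h3 := congrArg (fun p : MvPolynomial σ ℂ => (p : MvPowerSeries σ ℂ)) h2
    simp only [MvPolynomial.coe_monomial] at h3
    rw [h3]
    change _ = MvPolynomial.coeToMvPowerSeries.ringHom (∏ x, MvPolynomial.X x ^ δ x)
    rw [map_prod]
    refine Finset.prod_congr rfl fun t _ => ?_
    rw [map_pow]
    congr 1
    exact (MvPolynomial.coe_X t).symm
  rw [h1, MvPowerSeries.coeff_monomial]

theorem fac_spec (f0 f1 : MvPolynomial σ ℂ) (a : σ → ℕ) (h0 h1 : MvPowerSeries σ ℂ)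
    (hf0 : MvPolynomial.aeval ξ f0 = (∏ t, MvPowerSeries.X t ^ a t) * h0)
    (hf1 : MvPolynomial.aeval ξ f1 = (∏ t, MvPowerSeries.X t ^ a t) * h1)
    (δ : σ →₀ ℕ) (β : ℂ) (hβ : β ≠ 0) (hL : Lead e δ β h0) (hδ : wt e δ < D) :
    ∃ z, Fac (phi e he D d (fun t => algebraMap ℂ k (b t)) ξ (pen f0 f1)) a
      (∑ t, e t * a t + wt e δ) (fun t => (δ t : ℤ), 0) (algebraMap ℂ k β) z := by
  obtain ⟨r, hr, hr'⟩ := SS_high3 (k := k) e he (h0 - β • ∏ t, MvPowerSeries.X t ^ δ t)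
    (wt e δ + 1) (by
    intro μ hμ
    rw [map_sub, MvPowerSeries.coeff_smul, coeff_prod_X] at hμ
    by_cases h : μ = δ
    · rw [h, if_pos rfl, mul_one, hL.co, sub_self] at hμ
      exact absurd rfl hμ
    · rw [if_neg h, mul_zero, sub_zero] at hμ
      exact (hL.wt μ hμ).resolve_left h)
  obtain ⟨D', hD'⟩ : ∃ D', D = wt e δ + 1 + D' := ⟨D - (wt e δ + 1), by omega⟩
  obtain ⟨b', hb1⟩ : ∃ b' : σ → k, b' = fun t => algebraMap ℂ k (b t) := ⟨_, rfl⟩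
  have hbt : ∀ t, algebraMap ℂ k (b t) = b' t := fun t => by rw [hb1]
  simp only [hbt]
  obtain ⟨c1, hc1⟩ : ∃ c1, c1 = algebraMap k (BB k σ)⟦X⟧ (algebraMap ℂ k β) := ⟨_, rfl⟩
  obtain ⟨c2, hc2⟩ : ∃ c2, c2 = algebraMap k (BB k σ)⟦X⟧ (algebraMap ℂ k β⁻¹) := ⟨_, rfl⟩
  have h12 : c1 * c2 = 1 := by
    rw [hc1, hc2, ← map_mul, ← map_mul, mul_inv_cancel₀ hβ, map_one, map_one]
  have h6 : (C (mon (fun t => (δ t : ℤ), 0)) * C (mon (-(fun t => (δ t : ℤ), 0))) :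
      (BB k σ)⟦X⟧) = 1 := by
    rw [← map_mul, mon_mul, add_neg_cancel, mon_zero, map_one]
  have h0' : SS e he h0 = X ^ wt e δ * (c1 * C (mon (fun t => (δ t : ℤ), 0)) + X * r) := by
    have h7 : SS e he (β • ∏ t, MvPowerSeries.X t ^ δ t) =
        c1 * (C (mon (fun t => (δ t : ℤ), 0)) * X ^ wt e δ : (BB k σ)⟦X⟧) := by
      rw [map_smul, SS_prod, hc1, ← IsScalarTower.algebraMap_apply, ← Algebra.smul_def]
      rfl
    rw [map_sub, h7, pow_succ] at hr'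
    linear_combination hr'
  obtain ⟨R, hR⟩ : ∃ R, R = r + X ^ D' * (C (tp d b') * SS e he h1) := ⟨_, rfl⟩
  have hRm : ∀ Z, Adm Z → R ∈ Rp Z := fun Z hZ => by
    rw [hR]
    exact (Rp Z).add_mem (hr Z hZ) ((Rp Z).mul_mem ((Rp Z).pow_mem (X_mem_Rp Z) _)
      ((Rp Z).mul_mem (C_mem_Rp Z _ (tp_mem_Bp Z hZ d b')) (SS_mem_Rp e Z hZ he h1)))
  refine ⟨c2 * (C (mon (-(fun t => (δ t : ℤ), 0))) * (X * R)), ⟨?_, ?_, fun Z hZ hZ' => ?_,
    fun Z hZ => ?_⟩⟩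
  · rw [pen, map_add, map_mul, phi_map, phi_map, phi_C, hf0, hf1, map_mul, map_mul, SS_prod,
      h0', psi, Polynomial.aeval_X, ← hc1, hR, pow_add]
    have hXD : (X : (BB k σ)⟦X⟧) ^ D = X ^ wt e δ * X * X ^ D' := by
      conv_lhs => rw [hD']
      rw [pow_add, pow_succ]
    rw [hXD]
    linear_combination (-(C (mon (fun t => (a t : ℤ), 0)) * X ^ (∑ t, e t * a t) * X ^ wt e δ *
      X * (r + X ^ D' * (C (tp d b') * SS e he h1)))) * h12 -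
      (C (mon (fun t => (a t : ℤ), 0)) * X ^ (∑ t, e t * a t) * X ^ wt e δ *
      X * (r + X ^ D' * (C (tp d b') * SS e he h1)) * c1 * c2) * h6
  · rw [map_mul, map_mul, map_mul, constantCoeff_X, zero_mul, mul_zero, mul_zero]
  · rw [hc2]
    exact (Rp Z).mul_mem ((Rp Z).algebraMap_mem _) ((Rp Z).mul_mem (C_mem_Rp Z _
      (mon_mem_Bp Z _ hZ')) ((Rp Z).mul_mem (X_mem_Rp Z) (hRm Z hZ)))
  · have e1 : C (mon (fun t => (δ t : ℤ), 0)) *
        (1 + c2 * (C (mon (-(fun t => (δ t : ℤ), 0))) * (X * R))) =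
        C (mon (fun t => (δ t : ℤ), 0)) + c2 * (X * R) := by
      linear_combination (c2 * (X * R)) * h6
    rw [e1, hc2]
    exact (Rp Z).add_mem (C_mem_Rp Z _ (mon_mem_Bp Z _ fun δ hδ => hZ _ δ
      (fun t => Int.natCast_nonneg _) (le_refl _) hδ))
      ((Rp Z).mul_mem ((Rp Z).algebraMap_mem _) ((Rp Z).mul_mem (X_mem_Rp Z) (hRm Z hZ)))

end Pool.Agent.H63.VM
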