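import Pool.Agent.H63.VM.Chart
import Pool.Agent.H63.VI.Main

set_option autoImplicit false
set_option linter.unusedSectionVars false

/-! # The strong monodromy conjecture for ideals generated by general members: the proof -/

namespace Pool.Agent.H63.VM

open Pool.Agent.H63.VI Polynomial
open Pool.Agent.W574.SM (IsFunctionalEq)

section Zeta

variable {J : Type} [Fintype J] (c : ℕ) (N k : J → ℕ) (hN : ∀ i, 1 ≤ N i) (χ χ' : Finset J → ℤ)

open Classical in
/-- the order of the pole of a term -/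
noncomputable def ordI (z : ℂ) (S : Finset J) : ℕ :=
  (if z = -(c : ℂ) ∧ χ' S ≠ 0 then 1 else 0) +
    (S.filter fun i => (N i : ℂ) * z + (k i + 1 : ℕ) = 0).card

include hN in
theorem zetaI_pole (z : ℂ) (M : ℕ)
    (hM : ∀ S, (χ S ≠ 0 ∨ χ' S ≠ 0) → ordI c N k χ' z S ≤ M) :
    PoleLE z M (zetaI c N (fun i => k i + 1) χ χ') := by
  classical
  unfold zetaI
  refine PoleLE.sum _ _ fun S _ => ?_
  by_cases hS : χ S ≠ 0 ∨ χ' S ≠ 0
  · refine PoleLE.mono ?_ (hM S hS)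
    unfold ordI
    refine PoleLE.mul ?_ ?_
    · by_cases h' : χ' S = 0
      · rw [h', Int.cast_zero, zero_mul, add_zero]
        exact (PoleLE.int _).mono (Nat.zero_le _)
      · have h1 := PoleLE.lin 1 c (le_refl _) z
        have e1 : ((1 : ℕ) : RatFunc ℂ) * RatFunc.X + (c : RatFunc ℂ) =
            RatFunc.X + (c : RatFunc ℂ) := by
          simp
        have e2 : (((1 : ℕ) : ℂ) * z + (c : ℂ) = 0) ↔ (z = -(c : ℂ) ∧ χ' S ≠ 0) := by
          rw [Nat.cast_one, one_mul]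
          constructor
          · intro h
            exact ⟨by linear_combination h, h'⟩
          · rintro ⟨h, -⟩
            rw [h]; ring
        rw [e1] at h1
        have h2 : PoleLE z (if z = -(c : ℂ) ∧ χ' S ≠ 0 then 1 else 0)
            ((RatFunc.X + (c : RatFunc ℂ))⁻¹) := by
          convert h1 using 2
          exact e2.symm
        refine ((PoleLE.int _).mono (Nat.zero_le _)).add ?_
        have h3 := (PoleLE.int (z := z) (χ' S)).mul ((PoleLE.int (z := z) (c : ℤ)).mul h2)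
        rw [Int.cast_natCast] at h3
        rwa [zero_add, zero_add] at h3
    · rw [Finset.card_filter]
      refine PoleLE.prod _ _ _ fun i _ => ?_
      exact PoleLE.lin (N i) (k i + 1) (hN i) z
  · push Not at hS
    rw [hS.1, hS.2, Int.cast_zero, zero_mul, add_zero, zero_mul]
    exact PoleLE.zero.mono (Nat.zero_le _)

end Zeta

variable {n : ℕ} {ρ J : Type} [Fintype ρ] [Fintype J]
    (P : MvPolynomial (Fin n) ℂ) (g : ρ → MvPolynomial (Fin n) ℂ) (m : ℕ) (hm : 2 ≤ m)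
    (k a' a : J → ℕ) (hN : ∀ i, 1 ≤ a' i + m * a i) (c : ℕ)

/-- the divisibilities which belong to a set of divisors -/
def Keys {n : ℕ} {ρ J : Type}
    (P : MvPolynomial (Fin n) ℂ) (g : ρ → MvPolynomial (Fin n) ℂ) (m : ℕ)
    (k a' a : J → ℕ) (c : ℕ) (b : ℂ[X]) (T : Finset J) : Prop :=
  ∀ α : ℚ, (∀ i ∈ T, ((k i : ℚ) + 1) = α * (a' i + m * a i : ℕ)) →
      (∃ x e w, IsChart P g k a' a T x e w ∧ Immersion w Set.univ) →
        (T.Nonempty → (X - C (-(α : ℂ))) ^ T.card ∣ b) ∧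
        (α = c → T.card + c ≤ n → (X - C (-(α : ℂ))) ^ (T.card + 1) ∣ b)

/-- the divisibilities which belong to a set of divisors, weak form -/
def KeyW {n : ℕ} {ρ J : Type}
    (P : MvPolynomial (Fin n) ℂ) (g : ρ → MvPolynomial (Fin n) ℂ) (m : ℕ)
    (k a' a : J → ℕ) (b : ℂ[X]) (T : Finset J) : Prop :=
  ∀ α : ℚ, (∀ i ∈ T, ((k i : ℚ) + 1) = α * (a' i + m * a i : ℕ)) → T.Nonempty →
      (∃ x e w, IsChart P g k a' a T x e w ∧ Immersion w {t | ∀ i ∈ T, e i ≠ t}) →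
        (X - C (-(α : ℂ))) ^ 1 ∣ b

include hm hN in
theorem exists_gamma3 (T : Finset J) :
    ∃ Γ : MvPolynomial (Fin (c + 2) × {ν : ρ →₀ ℕ // ν.degree = m}) ℂ, Γ ≠ 0 ∧
      ∀ G : Fin (c + 2) → MvPolynomial ρ ℂ, (∀ i, (G i).IsHomogeneous m) →
      MvPolynomial.eval (fun p => (G p.1).coeff p.2.1) Γ ≠ 0 →
      ∀ b : ℂ[X], IsFunctionalEq (fun i => P * MvPolynomial.aeval g (G i)) b →
        Keys P g m k a' a (c + 2) b T ∧ KeyW P g m k a' a b T := by
  classical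
  have hposc : (0 : ℚ) < ((c + 1 + 1 : ℕ) : ℚ) := by positivity
  obtain ⟨Γ0, hΓ0, h0⟩ : ∃ Γ : MvPolynomial (Fin (c + 2) × {ν : ρ →₀ ℕ // ν.degree = m}) ℂ, Γ ≠ 0 ∧
      ∀ G : Fin (c + 2) → MvPolynomial ρ ℂ, (∀ i, (G i).IsHomogeneous m) →
      MvPolynomial.eval (fun p => (G p.1).coeff p.2.1) Γ ≠ 0 →
      ∀ b : ℂ[X], IsFunctionalEq (fun i => P * MvPolynomial.aeval g (G i)) b →
      (∀ i ∈ T, ((k i : ℚ) + 1) = ((c + 1 + 1 : ℕ) : ℚ) * (a' i + m * a i : ℕ)) →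
      T.card + (c + 2) ≤ n → (∃ x e w, IsChart P g k a' a T x e w ∧ Immersion w Set.univ) →
      (X - C (-(((c + 1 + 1 : ℕ) : ℚ) : ℂ))) ^ (T.card + 1) ∣ b := by
    by_cases h : (∀ i ∈ T, ((k i : ℚ) + 1) = ((c + 1 + 1 : ℕ) : ℚ) * (a' i + m * a i : ℕ)) ∧
        T.card + (c + 2) ≤ n ∧ ∃ x e w, IsChart P g k a' a T x e w ∧ Immersion w Set.univ
    · obtain ⟨hT, hcn, x, e, w, hc, hw⟩ := h
      obtain ⟨Γ, hΓ, hΓ'⟩ := chart3_top hc m hm hN ((c + 1 + 1 : ℕ) : ℚ) hposc hT (c + 1) hw rfl hcn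
      exact ⟨Γ, hΓ, fun G hG hne b hb _ _ _ => hΓ' G hG hne b hb⟩
    · exact ⟨1, one_ne_zero, fun G _ _ b _ h1 h2 h3 => absurd ⟨h1, h2, h3⟩ h⟩
  by_cases h : T.Nonempty ∧ ∃ α : ℚ, ∀ i ∈ T, ((k i : ℚ) + 1) = α * (a' i + m * a i : ℕ)
  · obtain ⟨⟨i0, hi0⟩, α, hα⟩ := h
    have hN0 : (0 : ℚ) < (a' i0 + m * a i0 : ℕ) := by exact_mod_cast hN i0
    have hpos : 0 < α := by
      have h1 := hα i0 hi0
      by_contra hle
      rw [not_lt] at hle
      have h2 := mul_nonpos_of_nonpos_of_nonneg hle hN0.le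
      rw [← h1] at h2
      have h3 : (0 : ℚ) ≤ k i0 := by positivity
      linarith
    have huniq : ∀ α' : ℚ, (∀ i ∈ T, ((k i : ℚ) + 1) = α' * (a' i + m * a i : ℕ)) → α' = α := by
      intro α' h'
      have h1 := hα i0 hi0
      rw [h' i0 hi0] at h1
      exact mul_right_cancel₀ hN0.ne' h1
    obtain ⟨Γ1, hΓ1, h1⟩ : ∃ Γ : MvPolynomial (Fin (c + 2) × {ν : ρ →₀ ℕ // ν.degree = m}) ℂ,
        Γ ≠ 0 ∧ ∀ G : Fin (c + 2) → MvPolynomial ρ ℂ, (∀ i, (G i).IsHomogeneous m) →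
        MvPolynomial.eval (fun p => (G p.1).coeff p.2.1) Γ ≠ 0 →
        ∀ b : ℂ[X], IsFunctionalEq (fun i => P * MvPolynomial.aeval g (G i)) b →
        (∃ x e w, IsChart P g k a' a T x e w ∧ Immersion w Set.univ) →
          (X - C (-(α : ℂ))) ^ T.card ∣ b := by
      by_cases hc : ∃ x e w, IsChart P g k a' a T x e w ∧ Immersion w Set.univ
      · obtain ⟨x, e, w, hc, hw⟩ := hc
        obtain ⟨Γ, hΓ, hΓ'⟩ := chart3_strong hc m hm hN α hpos hα c hw
        exact ⟨Γ, hΓ, fun G hG hne b hb _ => hΓ' G hG hne b hb⟩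
      · exact ⟨1, one_ne_zero, fun G _ _ b _ h => absurd h hc⟩
    obtain ⟨Γ2, hΓ2, h2⟩ : ∃ Γ : MvPolynomial (Fin (c + 2) × {ν : ρ →₀ ℕ // ν.degree = m}) ℂ,
        Γ ≠ 0 ∧ ∀ G : Fin (c + 2) → MvPolynomial ρ ℂ, (∀ i, (G i).IsHomogeneous m) →
        MvPolynomial.eval (fun p => (G p.1).coeff p.2.1) Γ ≠ 0 →
        ∀ b : ℂ[X], IsFunctionalEq (fun i => P * MvPolynomial.aeval g (G i)) b →
        (∃ x e w, IsChart P g k a' a T x e w ∧ Immersion w {t | ∀ i ∈ T, e i ≠ t}) →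
          (X - C (-(α : ℂ))) ^ 1 ∣ b := by
      by_cases hc : ∃ x e w, IsChart P g k a' a T x e w ∧ Immersion w {t | ∀ i ∈ T, e i ≠ t}
      · obtain ⟨x, e, w, hc, hw⟩ := hc
        obtain ⟨Γ, hΓ, hΓ'⟩ := chart3_weak hc m hm hN α hpos hα c hw ⟨i0, hi0⟩
        exact ⟨Γ, hΓ, fun G hG hne b hb _ => hΓ' G hG hne b hb⟩
      · exact ⟨1, one_ne_zero, fun G _ _ b _ h => absurd h hc⟩
    refine ⟨Γ0 * (Γ1 * Γ2), mul_ne_zero hΓ0 (mul_ne_zero hΓ1 hΓ2), fun G hG hne b hb => ?_⟩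
    rw [map_mul, map_mul] at hne
    have hne0 := left_ne_zero_of_mul hne
    have hne1 := left_ne_zero_of_mul (right_ne_zero_of_mul hne)
    have hne2 := right_ne_zero_of_mul (right_ne_zero_of_mul hne)
    refine ⟨fun α' hα' hc => ⟨fun _ => ?_, fun hαc hcn => ?_⟩, fun α' hα' _ hc => ?_⟩
    · rw [huniq α' hα']
      exact h1 G hG hne1 b hb hc
    · subst hαc
      exact h0 G hG hne0 b hb hα' hcn hc
    · rw [huniq α' hα']
      exact h2 G hG hne2 b hb hc
  · refine ⟨Γ0, hΓ0, fun G hG hne b hb => ⟨fun α' hα' hc => ⟨fun hT => absurd ⟨hT, α', hα'⟩ h,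
      fun hαc hcn => ?_⟩, fun α' hα' hT _ => absurd ⟨hT, α', hα'⟩ h⟩⟩
    subst hαc
    exact h0 G hG hne b hb hα' hcn hc

section Last

variable {b : ℂ[X]} (hkey : ∀ T : Finset J, Keys P g m k a' a c b T)
  (hkeyW : ∀ T : Finset J, KeyW P g m k a' a b T) (χ χ' : Finset J → ℤ)
  (hχ : ∀ S, χ' S ≠ 0 → S.card + c ≤ n) (hb0 : b ≠ 0)

include hN in
/-- the set `T` -/
theorem exists_ratio (z : ℂ) (S : Finset J)
    (hlt : ordI c (fun i => a' i + m * a i) k χ' z S ≠ 0) :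
    ∃ (T : Finset J) (α : ℚ), z = -(α : ℂ) ∧ IsRatioSet m k a' a S T α ∧
      (T.Nonempty ∨ (χ' S ≠ 0 ∧ α = c)) ∧
      (¬ (χ' S ≠ 0 ∧ α = c) → ordI c (fun i => a' i + m * a i) k χ' z S = T.card) ∧
      ordI c (fun i => a' i + m * a i) k χ' z S ≤ T.card + 1 := by
  classical
  obtain ⟨T, hTd⟩ : ∃ T, T = S.filter (fun i => ((a' i + m * a i : ℕ) : ℂ) * z +
    (k i + 1 : ℕ) = 0) := ⟨_, rfl⟩
  have hord : ordI c (fun i => a' i + m * a i) k χ' z S =
      (if z = -(c : ℂ) ∧ χ' S ≠ 0 then 1 else 0) + T.card := by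
    rw [ordI, hTd]
  -- the value of `z`
  obtain ⟨α, hαz, hne⟩ : ∃ α : ℚ, z = -(α : ℂ) ∧ (T.Nonempty ∨ (χ' S ≠ 0 ∧ α = c)) := by
    by_cases hz : z = -(c : ℂ) ∧ χ' S ≠ 0
    · exact ⟨c, by rw [hz.1, Rat.cast_natCast], Or.inr ⟨hz.2, rfl⟩⟩
    · rw [hord, if_neg hz, zero_add] at hlt
      obtain ⟨i0, hi0⟩ := Finset.card_pos.1 (Nat.pos_of_ne_zero hlt)
      have hTne : T.Nonempty := ⟨i0, hi0⟩
      rw [hTd] at hi0
      have h1 := (Finset.mem_filter.1 hi0).2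
      have h2 : ((a' i0 + m * a i0 : ℕ) : ℂ) ≠ 0 := Nat.cast_ne_zero.2 (by have := hN i0; omega)
      refine ⟨(k i0 + 1 : ℕ) / (a' i0 + m * a i0 : ℕ), ?_, Or.inl hTne⟩
      rw [Rat.cast_div, Rat.cast_natCast, Rat.cast_natCast, eq_comm, neg_eq_iff_eq_neg,
        div_eq_iff h2]
      linear_combination h1
  have hzc : z = -(c : ℂ) ↔ α = c := by
    rw [hαz, neg_inj]
    exact_mod_cast Iff.rfl
  refine ⟨T, α, hαz, fun i => ?_, hne, fun h => ?_, ?_⟩
  · rw [hTd, Finset.mem_filter]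
    refine and_congr_right fun _ => ?_
    rw [hαz]
    constructor
    · intro h
      have h1 : ((k i : ℂ) + 1) = (α : ℂ) * ((a' i + m * a i : ℕ) : ℂ) := by
        push_cast at h ⊢
        linear_combination h
      exact_mod_cast h1
    · intro h
      have h1 : ((k i : ℂ) + 1) = (α : ℂ) * ((a' i + m * a i : ℕ) : ℂ) := by exact_mod_cast h
      push_cast at h1 ⊢
      linear_combination h1
  · rw [hord, if_neg fun h' => h ⟨h'.2, hzc.1 h'.1⟩, zero_add]
  · rw [hord]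
    split_ifs <;> omega

include hN hkey hkeyW hχ hb0 in
theorem final_S (H : CoveredS P g m c k a' a χ χ') (z : ℂ) :
    (zetaI c (fun i => a' i + m * a i) (fun i => k i + 1) χ χ').denom.rootMultiplicity z ≤
        b.rootMultiplicity z := by
  classical
  refine (zetaI_pole c _ k hN χ χ' z _ fun S hS => ?_).order
  by_cases h0 : ordI c (fun i => a' i + m * a i) k χ' z S = 0
  · rw [h0]; exact Nat.zero_le _
  obtain ⟨T, α, hαz, hT, hne, hord, hord'⟩ := exists_ratio m k a' a hN c χ' z S h0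
  have hα : ∀ i ∈ T, ((k i : ℚ) + 1) = α * (a' i + m * a i : ℕ) := fun i hi => ((hT i).1 hi).2
  obtain ⟨x, e, w, hc, hw⟩ := H S hS T α hT hne
  by_cases htop : χ' S ≠ 0 ∧ α = c
  · have hw' : Immersion w Set.univ := by
      rcases hw with hw | ⟨-, h, -⟩
      · exact hw
      · exact absurd htop h
    have hcard : T.card + c ≤ n := by
      have h1 := hχ S htop.1
      have h2 := Finset.card_le_card (show T ⊆ S from fun i hi => ((hT i).1 hi).1)
      omega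
    have h1 := (hkey T α hα ⟨x, e, w, hc, hw'⟩).2 htop.2 hcard
    rw [← hαz, ← le_rootMultiplicity_iff hb0] at h1
    omega
  · have hTne : T.Nonempty := hne.resolve_right htop
    rw [hord htop]
    rcases hw with hw | ⟨hT1, -, hw⟩
    · have h1 := (hkey T α hα ⟨x, e, w, hc, hw⟩).1 hTne
      rwa [← hαz, ← le_rootMultiplicity_iff hb0] at h1
    · have h1 := hkeyW T α hα hTne ⟨x, e, w, hc, hw⟩
      rw [← hαz, ← le_rootMultiplicity_iff hb0] at h1
      omega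

include hN hkey hkeyW hχ hb0 in
theorem final_W (H : CoveredW P g m c k a' a χ χ') (z : ℂ)
    (hz : (zetaI c (fun i => a' i + m * a i) (fun i => k i + 1) χ χ').denom.eval z = 0) :
    b.eval z = 0 := by
  classical
  by_contra hbz
  have h1 : (zetaI c (fun i => a' i + m * a i) (fun i => k i + 1) χ χ').denom.rootMultiplicity z ≤
      0 := by
    refine (zetaI_pole c _ k hN χ χ' z _ fun S hS => ?_).order
    rw [Nat.le_zero]
    by_contra h0
    obtain ⟨T, α, hαz, hT, hne, -, -⟩ := exists_ratio m k a' a hN c χ' z S h0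
    have hα : ∀ i ∈ T, ((k i : ℚ) + 1) = α * (a' i + m * a i : ℕ) := fun i hi => ((hT i).1 hi).2
    obtain ⟨x, e, w, hc, hw⟩ := H S hS T α hT hne
    rcases Finset.eq_empty_or_nonempty T with hT0 | hTne
    · have htop : χ' S ≠ 0 ∧ α = c := hne.resolve_left (by rw [hT0]; exact Finset.not_nonempty_empty)
      have hcard : T.card + c ≤ n := by
        have h1 := hχ S htop.1
        rw [hT0, Finset.card_empty]
        omega
      have hw' : Immersion w Set.univ := by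
        have h2 : {t | ∀ i ∈ T, e i ≠ t} = Set.univ := by
          rw [hT0]
          ext t
          simp
        rwa [h2] at hw
      have h1 := (hkey T α hα ⟨x, e, w, hc, hw'⟩).2 htop.2 hcard
      rw [← hαz, hT0, Finset.card_empty, zero_add, pow_one, dvd_iff_isRoot] at h1
      exact hbz h1
    · have h1 := hkeyW T α hα hTne ⟨x, e, w, hc, hw⟩
      rw [← hαz, pow_one, dvd_iff_isRoot] at h1
      exact hbz h1
  have h2 : 0 < (zetaI c (fun i => a' i + m * a i) (fun i => k i + 1)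
      χ χ').denom.rootMultiplicity z :=
    (rootMultiplicity_pos (RatFunc.denom_ne_zero _)).2 hz
  omega

end Last

/-- `b Z` is a polynomial if every pole of `Z` is a root of `b`, of at least the same order -/
theorem mul_poly {b : ℂ[X]} {Z : RatFunc ℂ} (hb0 : b ≠ 0)
    (h : ∀ z, Z.denom.rootMultiplicity z ≤ b.rootMultiplicity z) :
    ∃ R : ℂ[X], algebraMap ℂ[X] (RatFunc ℂ) b * Z = algebraMap ℂ[X] (RatFunc ℂ) R := by
  classical
  have h1 : Z.denom ∣ b := by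
    rw [IsAlgClosed.dvd_iff_roots_le_roots (RatFunc.denom_ne_zero Z) hb0, Multiset.le_iff_count]
    intro z
    rw [count_roots, count_roots]
    exact h z
  obtain ⟨q, hq⟩ := h1
  refine ⟨q * Z.num, ?_⟩
  have h2 : algebraMap ℂ[X] (RatFunc ℂ) Z.denom ≠ 0 :=
    RatFunc.algebraMap_ne_zero (RatFunc.denom_ne_zero Z)
  have h3 := (div_eq_iff h2).1 (RatFunc.num_div_denom Z)
  rw [map_mul, h3, hq, map_mul]
  ring

end Pool.Agent.H63.VM
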