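import Pool.Agent.H63.VM.Words
import Pool.Agent.H63.VL.Gen

set_option autoImplicit false
set_option linter.unusedSectionVars false

/-! # Very general ideals: the reduction, with multiplicities, for arbitrary exponents -/

namespace Pool.Agent.H63.VM

open MvPolynomial Pool.Agent.H628R4.TP Pool.Agent.H63.VG Pool.Agent.H63.VH

section Descent

variable {σ κ : Type}

/-- the equation in terms of words -/
def WEq3 {A : Type} [CommRing A] (g : MvPolynomial σ A) (ω : σ → MvPolynomial σ A)
    (q : κ → MvPolynomial σ A) (L : κ → ℕ)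
    (N : ℕ) (S : Finset (List (σ ⊕ σ) × κ)) (P : A) (c : List (σ ⊕ σ) × κ → A) : Prop :=
  C P * g ^ N = ∑ w ∈ S, C (c w) * g ^ (N + 1 - (w.1.length + L w.2)) *
    q3 g ω (q w.2) (L w.2) w.1

theorem WEq3.map {A B : Type} [CommRing A] [CommRing B] {g : MvPolynomial σ A}
    {ω : σ → MvPolynomial σ A}
    {q : κ → MvPolynomial σ A} {L : κ → ℕ} {N : ℕ} {S : Finset (List (σ ⊕ σ) × κ)} {P : A}
    {c : List (σ ⊕ σ) × κ → A} (h : WEq3 g ω q L N S P c) (j : A →+* B) :
    WEq3 (MvPolynomial.map j g) (fun k => MvPolynomial.map j (ω k))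
      (fun i => MvPolynomial.map j (q i)) L N S (j P)
      (fun w => j (c w)) := by
  have h1 := congrArg (MvPolynomial.map j) h
  rw [map_mul, map_C, map_pow, map_sum] at h1
  rw [WEq3, h1]
  refine Finset.sum_congr rfl fun w _ => ?_
  rw [map_mul (MvPolynomial.map j) (_ * _), map_mul (MvPolynomial.map j) (C _), map_C, map_pow,
    map_q3]

/-- the descent of a functional equation -/
theorem descent_poly3 (K : Subfield ℂ) (g : MvPolynomial σ K)
    (ω : σ → MvPolynomial σ (Polynomial K)) (q : κ → MvPolynomial σ K)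
    (L : κ → ℕ) (b : Polynomial ℂ)
    (hb0 : b ≠ 0) (z : K) (N : ℕ) (S : Finset (List (σ ⊕ σ) × κ))
    (c : List (σ ⊕ σ) × κ → Polynomial ℂ)
    (h : WEq3 (map Polynomial.C (map (algebraMap K ℂ) g))
      (fun k => map (Polynomial.mapRingHom (algebraMap K ℂ)) (ω k))
      (fun i => map Polynomial.C (map (algebraMap K ℂ) (q i))) L N S b c) :
    ∃ (b' : Polynomial K) (c' : List (σ ⊕ σ) × κ → Polynomial K), b'.eval z = 1 ∧
      WEq3 (map Polynomial.C g) ω (fun i => map Polynomial.C (q i)) L N S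
        ((Polynomial.X - Polynomial.C z) ^ b.rootMultiplicity (z : ℂ) * b') c' := by
  obtain ⟨b1, hb1, hb2⟩ := Polynomial.exists_eq_pow_rootMultiplicity_mul_and_not_dvd b hb0 (z : ℂ)
  have hb3 : b1.eval (z : ℂ) ≠ 0 := fun h0 => hb2 (Polynomial.dvd_iff_isRoot.2 h0)
  obtain ⟨l, hl⟩ := exists_functional K _ hb3
  have hLb : Lc l b = (Polynomial.X - Polynomial.C z) ^ b.rootMultiplicity (z : ℂ) * Lc l b1 := by
    have h1 : ((Polynomial.X - Polynomial.C z) ^ b.rootMultiplicity (z : ℂ) :
        Polynomial K).map (algebraMap K ℂ) =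
        (Polynomial.X - Polynomial.C (z : ℂ)) ^ b.rootMultiplicity (z : ℂ) := by
      rw [Polynomial.map_pow, Polynomial.map_sub, Polynomial.map_X, Polynomial.map_C]
      rfl
    conv_lhs => rw [hb1]
    rw [mul_comm, ← h1, Lc_mul, mul_comm]
  refine ⟨Lc l b1, fun w => Lc l (c w), by rw [eval_Lc, hl], ?_⟩
  rw [← hLb]
  have hf : ∀ f : MvPolynomial σ K, map Polynomial.C (map (algebraMap K ℂ) f) =
      map (Polynomial.mapRingHom (algebraMap K ℂ)) (map Polynomial.C f) := by
    intro f
    rw [map_map, map_map]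
    congr 2
    ext1 r
    simp
  rw [WEq3] at h ⊢
  simp only [hf] at h
  refine MvPolynomial.ext _ _ fun μ => ?_
  have h1 : Lc l (coeff μ _) = Lc l (coeff μ _) := congrArg (fun p => Lc l (coeff μ p)) h
  have h2 : ∀ (r : Polynomial ℂ) (p : MvPolynomial σ (Polynomial K)),
      Lc l (coeff μ (C r * map (Polynomial.mapRingHom (algebraMap K ℂ)) p)) =
      Lc l r * coeff μ p := by
    intro r p
    rw [coeff_C_mul, coeff_map, Polynomial.coe_mapRingHom, Lc_mul]
  rw [← map_pow, h2] at h1
  rw [coeff_C_mul, h1, coeff_sum, coeff_sum, Lc_sum]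
  refine Finset.sum_congr rfl fun w _ => ?_
  rw [← map_pow, ← map_q3, mul_assoc, ← map_mul, h2, mul_assoc, coeff_C_mul]

theorem map_q3_poly {A K : Type} [CommRing A] [CommRing K] (j : A →+* K) (g q : MvPolynomial σ A)
    (ω : σ → MvPolynomial σ (Polynomial A))
    (l : ℕ) (w : List (σ ⊕ σ)) : map (Polynomial.mapRingHom j)
      (q3 (map Polynomial.C g) ω (map Polynomial.C q) l w) =
      q3 (map Polynomial.C (map j g)) (fun k => map (Polynomial.mapRingHom j) (ω k))
        (map Polynomial.C (map j q)) l w := by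
  rw [map_q3, map_C_poly, map_C_poly]

theorem clear_den3 {A K : Type} [CommRing A] [IsDomain A] [Field K] (g : A →+* K)
    (hinj : Function.Injective g) (hfrac : ∀ x : K, ∃ n d : A, g d ≠ 0 ∧ x * g d = g n)
    (U : MvPolynomial σ A) (ω : σ → MvPolynomial σ (Polynomial A)) (q : κ → MvPolynomial σ A)
    (L : κ → ℕ) (z : A) (N ν : ℕ)
    (S : Finset (List (σ ⊕ σ) × κ)) (b' : Polynomial K)
    (c' : List (σ ⊕ σ) × κ → Polynomial K) (hb'z : b'.eval (g z) = 1)
    (hc' : WEq3 (map Polynomial.C (map g U)) (fun k => map (Polynomial.mapRingHom g) (ω k))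
      (fun i => map Polynomial.C (map g (q i))) L N S
      ((Polynomial.X - Polynomial.C (g z)) ^ ν * b') c') :
    ∃ (D1 : Polynomial A) (r : List (σ ⊕ σ) × κ → Polynomial A), D1.eval z ≠ 0 ∧
      WEq3 (map Polynomial.C U) ω (fun i => map Polynomial.C (q i)) L N S
        ((Polynomial.X - Polynomial.C z) ^ ν * D1) r := by
  classical
  choose δ P hδ hP using exists_den g hfrac
  refine ⟨Polynomial.C (∏ w ∈ S, δ (c' w)) * P b', fun w =>
    Polynomial.C (δ b' * ∏ w' ∈ S.erase w, δ (c' w')) * P (c' w), ?_, ?_⟩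
  · intro h2
    have h3 := congrArg g h2
    rw [map_zero, Polynomial.eval_mul, Polynomial.eval_C, map_mul, map_prod,
      ← Polynomial.eval_map_apply, hP, Polynomial.eval_mul, Polynomial.eval_C, hb'z, mul_one] at h3
    exact mul_ne_zero (Finset.prod_ne_zero_iff.2 fun w _ => hδ _) (hδ _) h3
  · rw [WEq3] at hc' ⊢
    refine map_injective (Polynomial.mapRingHom g) (Polynomial.map_injective g hinj) ?_
    have hmm := map_C_poly g U
    rw [map_mul, map_C, map_pow, hmm, map_sum]
    simp only [Polynomial.coe_mapRingHom, Polynomial.map_mul, Polynomial.map_pow,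
      Polynomial.map_sub, Polynomial.map_X, Polynomial.map_C, hP]
    have h2 : C ((Polynomial.X - Polynomial.C (g z)) ^ ν *
        (Polynomial.C (g (∏ w ∈ S, δ (c' w))) * (Polynomial.C (g (δ b')) * b'))) *
        (map Polynomial.C (map g U)) ^ N =
        C (Polynomial.C (g (∏ w ∈ S, δ (c' w))) * Polynomial.C (g (δ b'))) *
        (C ((Polynomial.X - Polynomial.C (g z)) ^ ν * b') *
          (map Polynomial.C (map g U)) ^ N) := by
      simp only [map_mul]
      ring
    rw [h2, hc', Finset.mul_sum]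
    refine Finset.sum_congr rfl fun w hw => ?_
    rw [map_mul (map (Polynomial.mapRingHom g)) (_ * _),
      map_mul (map (Polynomial.mapRingHom g)) (C _), map_C,
      map_pow (map (Polynomial.mapRingHom g)), hmm, map_q3_poly]
    simp only [Polynomial.coe_mapRingHom, Polynomial.map_mul, Polynomial.map_C, hP]
    rw [← Finset.mul_prod_erase S _ hw]
    simp only [map_mul]
    ring

/-- the functional equation for very general coefficients, with polynomial coefficients -/
theorem universal_poly3 {ι : Type} {F : Subfield ℂ} (c : ι → ℂ) (hc : AlgebraicIndependent F c)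
    (U : MvPolynomial σ (MvPolynomial ι F)) (ω : σ → MvPolynomial σ (Polynomial (MvPolynomial ι F)))
    (q : κ → MvPolynomial σ (MvPolynomial ι F))
    (L : κ → ℕ) (b : Polynomial ℂ) (ev : MvPolynomial ι F →+* ℂ)
    (hev : ev = (aeval c : MvPolynomial ι F →ₐ[F] ℂ).toRingHom)
    (N : ℕ) (S : Finset (List (σ ⊕ σ) × κ)) (c1 : List (σ ⊕ σ) × κ → Polynomial ℂ)
    (h1 : WEq3 (map Polynomial.C (map ev U)) (fun k => map (Polynomial.mapRingHom ev) (ω k))
      (fun i => map Polynomial.C (map ev (q i))) L N S b c1) (hb0 : b ≠ 0) (z : F) :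
    ∃ (D1 : Polynomial (MvPolynomial ι F))
      (r : List (σ ⊕ σ) × κ → Polynomial (MvPolynomial ι F)), D1.eval (C z) ≠ 0 ∧
      WEq3 (map Polynomial.C U) ω (fun i => map Polynomial.C (q i)) L N S
        ((Polynomial.X - Polynomial.C (C z)) ^ b.rootMultiplicity (z : ℂ) * D1) r := by
  classical
  have hinj : Function.Injective ev := by rw [hev]; exact hc
  -- the field of definition
  obtain ⟨K, hK⟩ : ∃ K : IntermediateField F ℂ, K = IntermediateField.adjoin F (Set.range c) :=
    ⟨_, rfl⟩
  have hevK : ∀ x, ev x ∈ K.toSubfield := by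
    intro x
    rw [hev]
    change aeval c x ∈ K
    rw [hK, IntermediateField.mem_adjoin_range_iff]
    exact ⟨x, 1, by rw [map_one, div_one]⟩
  obtain ⟨evK, hevKd⟩ : ∃ evK : MvPolynomial ι F →+* K.toSubfield,
    evK = ev.codRestrict K.toSubfield hevK := ⟨_, rfl⟩
  have hcomp : (algebraMap K.toSubfield ℂ).comp evK = ev := by
    rw [hevKd]
    rfl
  have hevKinj : Function.Injective evK := by
    intro x y hxy
    have h2 := congrArg (algebraMap K.toSubfield ℂ) hxy
    rw [← RingHom.comp_apply, ← RingHom.comp_apply, hcomp] at h2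
    exact hinj h2
  have hfK : ∀ f : MvPolynomial σ (MvPolynomial ι F),
      map (algebraMap K.toSubfield ℂ) (map evK f) = map ev f := by
    intro f
    rw [map_map, hcomp]
  have hfP : ∀ f : MvPolynomial σ (Polynomial (MvPolynomial ι F)),
      map (Polynomial.mapRingHom (algebraMap K.toSubfield ℂ)) (map (Polynomial.mapRingHom evK) f) =
        map (Polynomial.mapRingHom ev) f := by
    intro f
    rw [map_map, Polynomial.mapRingHom_comp, hcomp]
  have hzK : ((evK (C z) : K.toSubfield) : ℂ) = z := by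
    have h2 : ((evK (C z) : K.toSubfield) : ℂ) = ev (C z) := RingHom.congr_fun hcomp (C z)
    rw [h2, hev]
    change aeval c (C z) = (z : ℂ)
    rw [aeval_C]
    rfl
  have hfrac : ∀ x : K.toSubfield, ∃ n d : MvPolynomial ι F, evK d ≠ 0 ∧ x * evK d = evK n := by
    intro x
    have h2' : ∀ t : ℂ, t ∈ K → t ∈ IntermediateField.adjoin F (Set.range c) := by
      intro t ht
      rwa [hK] at ht
    obtain ⟨n, d, h3⟩ := (IntermediateField.mem_adjoin_range_iff F c _).1 (h2' _ x.2)
    have hvn : ∀ y, ((evK y : K.toSubfield) : ℂ) = aeval c y := by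
      intro y
      have h4 : ((evK y : K.toSubfield) : ℂ) = ev y := RingHom.congr_fun hcomp y
      rw [h4, hev]
      rfl
    by_cases hd : aeval c d = (0 : ℂ)
    · refine ⟨0, 1, by rw [map_one]; exact one_ne_zero, ?_⟩
      rw [map_one, mul_one, map_zero]
      refine Subtype.ext ?_
      rw [h3, hd, div_zero]
      rfl
    · refine ⟨n, d, fun h => hd (by rw [← hvn, h]; rfl), ?_⟩
      refine Subtype.ext ?_
      change (x : ℂ) * ((evK d : K.toSubfield) : ℂ) = ((evK n : K.toSubfield) : ℂ)
      rw [hvn, hvn, h3]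
      exact div_mul_cancel₀ _ hd
  obtain ⟨b', c', hb'z, hc'⟩ := descent_poly3 K.toSubfield (map evK U)
    (fun k => map (Polynomial.mapRingHom evK) (ω k)) (fun i => map evK (q i)) L b
    hb0 (evK (C z)) N S c1 (by
      rw [WEq3]
      simp only [hfK, hfP]
      exact h1)
  rw [hzK] at hc'
  obtain ⟨D1, r, h2, h3⟩ := clear_den3 evK hevKinj hfrac U ω q L (C z) N
    (b.rootMultiplicity (z : ℂ)) S b' c' hb'z hc'
  exact ⟨D1, r, h2, h3⟩

/-- the specialisation of the equation -/
theorem spec_eq3 {A B : Type} [CommRing A] [CommRing B] (h : A →+* B) (s : B)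
    (U : MvPolynomial σ A) (ω : σ → MvPolynomial σ (Polynomial A)) (q : κ → MvPolynomial σ A)
    (L : κ → ℕ) (z : A) (N ν : ℕ)
    (S : Finset (List (σ ⊕ σ) × κ)) (D1 : Polynomial A)
    (r : List (σ ⊕ σ) × κ → Polynomial A)
    (heq : WEq3 (map Polynomial.C U) ω (fun i => map Polynomial.C (q i)) L N S
      ((Polynomial.X - Polynomial.C z) ^ ν * D1) r) :
    WEq3 (map h U) (fun k => map (Polynomial.eval₂RingHom h s) (ω k)) (fun i => map h (q i)) L N S
      ((s - h z) ^ ν * D1.eval₂ h s) fun w => (r w).eval₂ h s := by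
  have h1 := heq.map (Polynomial.eval₂RingHom h s)
  have h2 : ∀ U : MvPolynomial σ A,
      map (Polynomial.eval₂RingHom h s) (map Polynomial.C U) = map h U := by
    intro U
    rw [map_map]
    congr 2
    refine RingHom.ext fun r => ?_
    simp
  have h3 : (Polynomial.eval₂RingHom h s) ((Polynomial.X - Polynomial.C z) ^ ν * D1) =
      (s - h z) ^ ν * D1.eval₂ h s := by
    rw [map_mul, map_pow, map_sub]
    simp
  simp only [h2, h3] at h1
  exact h1

end Descent

section Spec

variable {k σ ι K : Type} [CommRing k] [Algebra ℂ k] [Fintype ι] [DecidableEq ι] [Fintype K]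
  {F : Subfield ℂ} (G : K → MvPolynomial σ F)

/-- the universal members -/
noncomputable def univM (o : ι) : MvPolynomial σ (MvPolynomial (ι × K) F) :=
  ∑ μ, C (X (o, μ)) * map C (G μ)

theorem map_univM {A : Type} [CommRing A] (g : MvPolynomial (ι × K) F →+* A) (o : ι) :
    map g (univM G o) = ∑ μ, C (g (X (o, μ))) * map (g.comp C) (G μ) := by
  rw [univM, map_sum]
  refine Finset.sum_congr rfl fun μ _ => ?_
  rw [map_mul, map_C, map_map]

/-- the specialisation to a pencil -/
noncomputable def specP (c0 e : ι → K → ℂ) : MvPolynomial (ι × K) F →+* Polynomial k :=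
  eval₂Hom (cst.comp (algebraMap F ℂ)) fun q => cst (c0 q.1 q.2) + cst (e q.1 q.2) * Polynomial.X

theorem specP_C (c0 e : ι → K → ℂ) :
    (specP c0 e : MvPolynomial (ι × K) F →+* Polynomial k).comp C = cst.comp (algebraMap F ℂ) := by
  ext1 r
  rw [RingHom.comp_apply, specP, coe_eval₂Hom, eval₂_C]

theorem specP_univ (c0 e : ι → K → ℂ) (o : ι) :
    map (specP (k := k) c0 e) (univM G o) =
      VH.pen (member G (c0 o)) (member G (e o)) := by
  rw [map_univM, VH.pen, member, member, map_sum, map_sum, Finset.mul_sum, ← Finset.sum_add_distrib]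
  refine Finset.sum_congr rfl fun μ _ => ?_
  have h1 : (specP c0 e : MvPolynomial (ι × K) F →+* Polynomial k) (X (o, μ)) =
      cst (c0 o μ) + cst (e o μ) * Polynomial.X := by
    rw [specP, coe_eval₂Hom, eval₂_X]
  rw [h1, specP_C, map_mul, map_mul, map_C, map_C, map_map, map_add, map_mul]
  ring

/-- the specialisation to a pencil, over `ℂ` -/
noncomputable def specD (c0 e : ι → K → ℂ) : MvPolynomial (ι × K) F →+* Polynomial ℂ :=
  eval₂Hom (Polynomial.C.comp (algebraMap F ℂ)) fun q =>
    Polynomial.C (c0 q.1 q.2) + Polynomial.C (e q.1 q.2) * Polynomial.X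

theorem specD_eval (c0 e : ι → K → ℂ) (t : ℂ) (Q : MvPolynomial (ι × K) F) :
    (specD c0 e Q).eval t = aeval (fun q : ι × K => c0 q.1 q.2 + e q.1 q.2 * t) Q := by
  have h : (Polynomial.evalRingHom t).comp (specD c0 e) =
      (aeval (fun q : ι × K => c0 q.1 q.2 + e q.1 q.2 * t) :
        MvPolynomial (ι × K) F →ₐ[F] ℂ).toRingHom := by
    refine ringHom_ext (fun r => ?_) fun μ => ?_
    · rw [RingHom.comp_apply, specD, coe_eval₂Hom, eval₂_C]
      change _ = aeval _ (C r)
      rw [aeval_C]
      simp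
    · rw [RingHom.comp_apply, specD, coe_eval₂Hom, eval₂_X]
      change _ = aeval _ (X μ)
      rw [aeval_X]
      simp
  exact RingHom.congr_fun h Q

theorem specD_zero (o0 : ι) (c0 : ι → K → ℂ) (v : K → ℂ) (hv : ∃ μ, v μ ≠ 0)
    (hv0 : ∑ μ, c0 o0 μ * v μ = 0) (D : MvPolynomial (ι × K) F)
    (h : ∀ e : ι → K → ℂ, ∑ μ, e o0 μ * v μ = 1 → specD c0 e D = 0) : D = 0 := by
  have h2 : ∀ y : ι × K → ℂ, ∑ μ, y (o0, μ) * v μ ≠ 0 → aeval y D = (0 : ℂ) := by
    intro y hy
    obtain ⟨t, ht⟩ : ∃ t, t = ∑ μ, y (o0, μ) * v μ := ⟨_, rfl⟩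
    rw [← ht] at hy
    obtain ⟨e, he⟩ : ∃ e : ι → K → ℂ, e = fun o μ => (y (o, μ) - c0 o μ) / t := ⟨_, rfl⟩
    have h3 : ∑ μ, e o0 μ * v μ = 1 := by
      have h4 : ∑ μ, e o0 μ * v μ = (∑ μ, y (o0, μ) * v μ - ∑ μ, c0 o0 μ * v μ) / t := by
        rw [← Finset.sum_sub_distrib, Finset.sum_div]
        refine Finset.sum_congr rfl fun μ _ => ?_
        rw [he]
        ring
      rw [h4, hv0, sub_zero, ← ht, div_self hy]
    have h7 := congrArg (Polynomial.eval t) (h e h3)
    rw [specD_eval, Polynomial.eval_zero] at h7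
    rw [← h7]
    congr 2
    funext q
    rw [he]
    field_simp
    ring
  have h3 : map (algebraMap F ℂ) D * (∑ μ, C (v μ) * X (o0, μ)) = 0 := by
    refine MvPolynomial.funext fun y => ?_
    rw [map_mul, eval_map, map_zero]
    by_cases hy : ∑ μ, y (o0, μ) * v μ = 0
    · have h4 : eval y (∑ μ, C (v μ) * X (o0, μ)) = 0 := by
        rw [map_sum, ← hy]
        refine Finset.sum_congr rfl fun μ _ => ?_
        rw [map_mul, eval_C, eval_X, mul_comm]
      rw [h4, mul_zero]
    · have h4 := h2 y hy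
      rw [aeval_def] at h4
      rw [h4, zero_mul]
  rcases mul_eq_zero.1 h3 with h4 | h4
  · refine map_injective (algebraMap F ℂ) (algebraMap F ℂ).injective ?_
    rw [h4, map_zero]
  · obtain ⟨μ, hμ⟩ := hv
    classical
    have h5 := congrArg (eval fun ν : ι × K => if ν.2 = μ then (1 : ℂ) else 0) h4
    rw [map_sum, map_zero, Finset.sum_eq_single μ] at h5
    · rw [map_mul, eval_C, eval_X, if_pos rfl, mul_one] at h5
      exact absurd h5 hμ
    · intro ν _ hν
      rw [map_mul, eval_C, eval_X, if_neg hν, mul_zero]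
    · intro h; exact absurd (Finset.mem_univ _) h

/-- the values of the exponents -/
noncomputable def sv {F : Subfield ℂ} (τ : Polynomial F) (s : k) : k :=
  τ.eval₂ ((algebraMap ℂ k).comp (algebraMap F ℂ)) s

/-- **The reduction.** -/
theorem mult_main3 (c : ι × K → ℂ) (hc : AlgebraicIndependent F c)
    (b : Polynomial ℂ) (hne : ∀ o, member G (fun μ => c (o, μ)) ≠ 0)
    (hb : Pool.Agent.W574.SM.IsFunctionalEq (fun o => member G fun μ => c (o, μ)) b)
    (τ : ι → Polynomial F) (hτ : ∑ o, τ o = Polynomial.X)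
    (z : F) (o0 : ι) (c0 : ι → K → ℂ) (v : K → ℂ)
    (hv : ∃ μ, v μ ≠ 0) (hv0 : ∑ μ, c0 o0 μ * v μ = 0) (ε : k) (π : k →+* ℂ)
    (hπ : ∀ r, π (algebraMap ℂ k r) = r) (hπε : π ε = 0) (m c' : ℕ)
    (hK : ∀ ν < m, ∀ x : k, ε ^ (ν + c') * x = 0 → π x = 0)
    (heng : ∀ (e : ι → K → ℂ), ∑ μ, e o0 μ * v μ = 1 →
      ∀ (N : ℕ) (S : Finset (List (σ ⊕ σ) × Ty ι)),
      (∀ w ∈ S, w.1.length + (na w.2.1 + 1) ≤ N) →
      ∀ (r : List (σ ⊕ σ) × Ty ι → Polynomial k) (Q : Polynomial k),
      WEq3 (∏ o, VH.pen (member G (c0 o)) (member G (e o)))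
        (om (fun o => VH.pen (member G (c0 o)) (member G (e o)))
          fun o => Polynomial.C (sv (τ o) (algebraMap ℂ k (z : ℂ) + ε)))
        (fun c : Ty ι => qt (fun o => VH.pen (member G (c0 o)) (member G (e o))) c.1)
        (fun c => na c.1 + 1) N S Q r → Polynomial.C (ε ^ c') * Q = 0) :
    (Polynomial.X - Polynomial.C (z : ℂ)) ^ m ∣ b := by
  by_cases hb0 : b = 0
  · rw [hb0]; exact dvd_zero _
  rw [← Polynomial.le_rootMultiplicity_iff hb0]
  by_contra hlt
  rw [not_le] at hlt
  obtain ⟨ev, hev⟩ : ∃ ev : MvPolynomial (ι × K) F →+* ℂ,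
    ev = (aeval c : MvPolynomial (ι × K) F →ₐ[F] ℂ).toRingHom := ⟨_, rfl⟩
  have hevC : ev.comp C = algebraMap F ℂ := by
    ext1 r
    rw [hev]
    change aeval c (C r) = algebraMap F ℂ r
    rw [aeval_C]
  have hmem : ∀ o, map ev (univM G o) = member G fun μ => c (o, μ) := by
    intro o
    rw [map_univM, member]
    refine Finset.sum_congr rfl fun μ _ => ?_
    have h1 : ev (X (o, μ)) = c (o, μ) := by
      rw [hev]
      change aeval c (X (o, μ)) = c (o, μ)
      rw [aeval_X]
    rw [h1, hevC]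
  obtain ⟨N, S, c1, hS, hw⟩ := words3_poly hne b (rep3_ideal b hb)
  -- the exponents
  have hw2 : WEq3 (map C (∏ i, member G fun μ => c (i, μ)))
      (om (fun i => map C (member G fun μ => c (i, μ))) X)
      (fun w : Ty ι => map C (qt (fun i => member G fun μ => c (i, μ)) w.1))
      (fun w => na w.1 + 1) N S (Polynomial.aeval (∑ i, X i : MvPolynomial ι ℂ) b) c1 := hw
  obtain ⟨ψ, hψ⟩ : ∃ ψ : MvPolynomial ι ℂ →ₐ[ℂ] Polynomial ℂ,
    ψ = aeval fun o => (τ o).map (algebraMap F ℂ) := ⟨_, rfl⟩
  have hψC : ∀ p : MvPolynomial σ ℂ, map (ψ : MvPolynomial ι ℂ →+* Polynomial ℂ) (map C p) =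
      map Polynomial.C p := by
    intro p
    rw [map_map]
    congr 2
    ext1 r
    rw [RingHom.comp_apply, hψ]
    change aeval _ (C r) = _
    rw [aeval_C]
    rfl
  have hψb : ψ (Polynomial.aeval (∑ i, X i : MvPolynomial ι ℂ) b) = b := by
    rw [← Polynomial.aeval_algHom_apply, map_sum, hψ]
    simp only [aeval_X]
    rw [← Polynomial.map_sum, hτ, Polynomial.map_X, Polynomial.aeval_X_left_apply]
  have hw3 := hw2.map (ψ : MvPolynomial ι ℂ →+* Polynomial ℂ)
  have hψb' : (ψ : MvPolynomial ι ℂ →+* Polynomial ℂ)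
      (Polynomial.aeval (∑ i, X i : MvPolynomial ι ℂ) b) = b := hψb
  rw [hψb'] at hw3
  have hψX : ∀ o, (ψ : MvPolynomial ι ℂ →+* Polynomial ℂ) (X o) =
      (τ o).map (algebraMap F ℂ) := by
    intro o
    rw [hψ]
    exact aeval_X _ _
  have hw4 : WEq3 (map Polynomial.C (∏ o, member G fun μ => c (o, μ)))
      (om (fun o => map Polynomial.C (member G fun μ => c (o, μ)))
        (fun o => (τ o).map (algebraMap F ℂ)))
      (fun w : Ty ι => map Polynomial.C (qt (fun o => member G fun μ => c (o, μ)) w.1))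
      (fun w => na w.1 + 1) N S b fun w => (ψ : MvPolynomial ι ℂ →+* Polynomial ℂ) (c1 w) := by
    have e3 : (fun k => map (ψ : MvPolynomial ι ℂ →+* Polynomial ℂ)
        (om (fun i => map C (member G fun μ => c (i, μ))) X k)) =
        om (fun o => map Polynomial.C (member G fun μ => c (o, μ)))
          (fun o => (τ o).map (algebraMap F ℂ)) := by
      funext k
      refine (map_om _ _ _ _).trans ?_
      congr 1
      · funext o
        exact hψC _
      · funext o
        exact hψX o
    rw [hψC, e3] at hw3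
    simp only [hψC] at hw3
    exact hw3
  obtain ⟨D1, r, hD1, heq⟩ := universal_poly3 c hc (∏ o, univM G o)
    (om (fun o => map Polynomial.C (univM G o)) fun o => (τ o).map C)
    (fun c : Ty ι => qt (univM G) c.1) (fun c => na c.1 + 1) b ev hev N S _ (by
      have e1 : ∀ p : MvPolynomial σ (MvPolynomial (ι × K) F),
          map (Polynomial.mapRingHom ev) (map Polynomial.C p) = map Polynomial.C (map ev p) :=
        fun p => map_C_poly ev p
      have e2 : ∀ o, (Polynomial.mapRingHom ev) ((τ o).map C) = (τ o).map (algebraMap F ℂ) := by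
        intro o
        rw [Polynomial.coe_mapRingHom, Polynomial.map_map, hevC]
      have e3 : (fun k => (map (Polynomial.mapRingHom ev)) (om (fun o => map Polynomial.C
          (univM G o)) (fun o => (τ o).map C) k)) =
          om (fun o => map Polynomial.C (member G fun μ => c (o, μ)))
            (fun o => (τ o).map (algebraMap F ℂ)) := by
        funext k
        refine (map_om _ _ _ _).trans ?_
        congr 1
        · funext o
          rw [e1, hmem]
        · funext o
          exact e2 o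
      have e4 : map ev (∏ o, univM G o) = ∏ o, member G fun μ => c (o, μ) := by
        rw [map_prod]
        exact Finset.prod_congr rfl fun o _ => hmem o
      have e5 : (fun w : Ty ι => map ev (qt (univM G) w.1)) =
          fun w : Ty ι => qt (fun o => member G fun μ => c (o, μ)) w.1 := by
        funext w
        rw [map_qt]
        congr 1
        funext o
        exact hmem o
      have e6 := congrFun e5
      simp only [e4, e6]
      rw [e3]
      exact hw4) hb0 z
  refine hD1 (specD_zero o0 c0 v hv hv0 _ fun e he => ?_)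
  have h1 := spec_eq3 (specP (k := k) c0 e) (Polynomial.C (algebraMap ℂ k (z : ℂ) + ε))
    (∏ o, univM G o) (om (fun o => map Polynomial.C (univM G o)) fun o => (τ o).map C)
    (fun c : Ty ι => qt (univM G) c.1) (fun c => na c.1 + 1) (C z) N _ S D1 r heq
  have e3 : ∀ p : MvPolynomial σ (MvPolynomial (ι × K) F),
      map (Polynomial.eval₂RingHom (specP (k := k) c0 e)
        (Polynomial.C (algebraMap ℂ k (z : ℂ) + ε))) (map Polynomial.C p) =
        map (specP (k := k) c0 e) p := by
    intro p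
    rw [map_map]
    congr 2
    refine RingHom.ext fun r => ?_
    simp
  have e4 : ∀ o, (Polynomial.eval₂RingHom (specP (k := k) c0 e)
        (Polynomial.C (algebraMap ℂ k (z : ℂ) + ε))) ((τ o).map C) =
        Polynomial.C (sv (τ o) (algebraMap ℂ k (z : ℂ) + ε)) := by
    intro o
    rw [Polynomial.coe_eval₂RingHom, Polynomial.eval₂_map, specP_C, sv, Polynomial.hom_eval₂]
    rfl
  simp only [map_om, map_qt, map_prod, e3, e4, specP_univ] at h1
  have h2 := heng e he N S hS _ _ h1
  have hzc : (specP (k := k) c0 e) (C z) = Polynomial.C (algebraMap ℂ k (z : ℂ)) := by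
    rw [specP, coe_eval₂Hom, eval₂_C]
    rfl
  have h3 : (Polynomial.C (algebraMap ℂ k (z : ℂ) + ε) - specP c0 e (C z)) =
      Polynomial.C ε := by
    rw [hzc, ← Polynomial.C_sub, add_sub_cancel_left]
  rw [h3, ← Polynomial.C_pow, ← mul_assoc, ← Polynomial.C_mul, mul_comm (ε ^ c'), ← pow_add] at h2
  have h4 : (Polynomial.eval₂ (specP c0 e) (Polynomial.C (algebraMap ℂ k (z : ℂ) + ε)) D1).map π
      = 0 := by
    ext1 n
    rw [Polynomial.coeff_map, Polynomial.coeff_zero]
    refine hK _ hlt _ ?_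
    have := congrArg (fun p => Polynomial.coeff p n) h2
    simp only [Polynomial.coeff_C_mul, Polynomial.coeff_zero] at this
    exact this
  have h5 : (Polynomial.mapRingHom π).comp
      (Polynomial.eval₂RingHom (specP (k := k) c0 e)
        (Polynomial.C (algebraMap ℂ k (z : ℂ) + ε))) =
      (specD c0 e).comp (Polynomial.evalRingHom (C z)) := by
    refine Polynomial.ringHom_ext' ?_ ?_
    · refine MvPolynomial.ringHom_ext (fun r => ?_) fun μ => ?_
      · simp [specP, specD, cst, hπ]
      · simp [specP, specD, cst, hπ]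
    · have e1 : (specD c0 e) (C z) = Polynomial.C (z : ℂ) := by
        rw [specD, coe_eval₂Hom, eval₂_C]
        rfl
      simp only [RingHom.coe_comp, Function.comp_apply, Polynomial.coe_eval₂RingHom,
        Polynomial.eval₂_X, Polynomial.coe_mapRingHom, Polynomial.map_C,
        Polynomial.coe_evalRingHom, Polynomial.eval_X]
      rw [e1, map_add, hπ, hπε, add_zero]
  have h6 := RingHom.congr_fun h5 D1
  change (Polynomial.eval₂ (specP c0 e) (Polynomial.C (algebraMap ℂ k (z : ℂ) + ε)) D1).map π =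
    specD c0 e (D1.eval (C z)) at h6
  rw [← h6, h4]

end Spec

end Pool.Agent.H63.VM
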