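import Pool.Agent.H63.VM.Cases2
import Pool.Agent.H63.VL.Lin

set_option autoImplicit false
set_option linter.unusedSectionVars false

/-! # The roots which come from a chart, for ideals and arbitrary exponents -/

namespace Pool.Agent.H63.VM

open MvPolynomial Pool.Agent.H63.VG Pool.Agent.H63.VI Pool.Agent.H63.VK Pool.Agent.H628R4.TP
open Pool.Agent.W574.SM (IsFunctionalEq)

section Sv

variable {k : Type} [CommRing k] [Algebra ℂ k] {F : Subfield ℂ}

theorem sum_sv {ϰ : Type} [Fintype ϰ] (τ : ϰ → Polynomial F) (hτ : ∑ o, τ o = Polynomial.X)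
    (s : k) : ∑ o, sv (τ o) s = s := by
  have h1 := Polynomial.eval₂_finsetSum ((algebraMap ℂ k).comp (algebraMap F ℂ)) Finset.univ τ s
  rw [hτ, Polynomial.eval₂_X] at h1
  exact h1.symm

theorem sv_C (r : F) (s : k) : sv (Polynomial.C r) s = algebraMap ℂ k (r : ℂ) := by
  rw [sv, Polynomial.eval₂_C]
  rfl

theorem sv_add (p q : Polynomial F) (s : k) : sv (p + q) s = sv p s + sv q s := by
  rw [sv, Polynomial.eval₂_add]
  rfl

theorem sv_X (s : k) : sv (Polynomial.X : Polynomial F) s = s := by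
  rw [sv, Polynomial.eval₂_X]

end Sv

variable {K τ ι : Type} [Fintype K] [Fintype τ] [DecidableEq τ] [Fintype ι] [DecidableEq ι]

theorem member_ne {F : Subfield ℂ} {G : K → MvPolynomial τ F} (hG : ∃ μ, G μ ≠ 0)
    (c : Option ι × K → ℂ) (hc : AlgebraicIndependent F c) (o : Option ι) :
    member G (fun μ => c (o, μ)) ≠ 0 := by
  obtain ⟨ev, hev⟩ : ∃ ev : MvPolynomial (Option ι × K) F →+* ℂ,
    ev = (aeval c : MvPolynomial (Option ι × K) F →ₐ[F] ℂ).toRingHom := ⟨_, rfl⟩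
  have hmem : map ev (VL.univO G ι o) = member G fun μ => c (o, μ) := by
    rw [VL.map_univO, member]
    refine Finset.sum_congr rfl fun μ _ => ?_
    have h1 : ev (X (o, μ)) = c (o, μ) := by
      rw [hev]
      change aeval c (X (o, μ)) = c (o, μ)
      rw [aeval_X]
    have h2 : ev.comp C = algebraMap F ℂ := by
      ext1 r
      rw [hev]
      change aeval c (C r) = algebraMap F ℂ r
      rw [aeval_C]
    rw [h1, h2]
  rw [← hmem]
  have hinj : Function.Injective ev := by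
    rw [hev]
    exact hc
  exact fun h => VL.univO_ne G hG o ((map_eq_zero_iff _ (map_injective ev hinj)).1 h)

section Point

variable {F : Subfield ℂ} {G : K → MvPolynomial τ F} {κ A : τ → ℕ}
  (Λ : LS (fun μ => map (algebraMap F ℂ) (G μ)) κ A)
  (c : Option ι × K → ℂ) (hind : AlgebraicIndependent F c) (b : Polynomial ℂ)
  (hb : IsFunctionalEq (fun o => member G fun μ => c (o, μ)) b)
  (hv : ∃ μ, MvPowerSeries.constantCoeff (Λ.h μ) ≠ 0) (c0 : Option ι → K → ℂ)

include hind hb hv in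
theorem ls3_core (ex : Option ι → Polynomial F) (hex : ∑ o, ex o = Polynomial.X)
    (hc0 : MvPowerSeries.constantCoeff (Λ.mem (c0 none)) = 0) (z : F) (M : ℕ) (hM : M ≠ 0)
    (hcase : ∀ (f0 f1 : Option ι → MvPolynomial τ ℂ) (h1 : Option ι → MvPowerSeries τ ℂ),
      (∀ o, aeval Λ.x (f0 o) = (∏ t, MvPowerSeries.X t ^ A t) * Λ.mem (c0 o)) →
      (∀ o, aeval Λ.x (f1 o) = (∏ t, MvPowerSeries.X t ^ A t) * h1 o) →
      MvPowerSeries.constantCoeff (h1 none) = 1 →
      ∀ (N : ℕ) (S : Finset (List (τ ⊕ τ) × Ty (Option ι))),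
      (∀ w ∈ S, w.1.length + (na w.2.1 + 1) ≤ N) →
      ∀ (r : List (τ ⊕ τ) × Ty (Option ι) → Polynomial (VH.KK M)) (Q : Polynomial (VH.KK M)),
      WEq3 (∏ o, VH.pen (f0 o) (f1 o)) (om (fun o => VH.pen (f0 o) (f1 o)) fun o =>
        Polynomial.C (sv (ex o) (algebraMap ℂ (VH.KK M) (z : ℂ) + VH.epsK M)))
        (fun c : Ty (Option ι) => qt (fun o => VH.pen (f0 o) (f1 o)) c.1)
        (fun c => na c.1 + 1) N S Q r → Q = 0) :
    (Polynomial.X - Polynomial.C (z : ℂ)) ^ M ∣ b := by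
  refine mult_main3 G c hind b (member_ne (ls_ne Λ hv) c hind) hb ex hex z none
    c0 (fun μ => MvPowerSeries.constantCoeff (Λ.h μ)) hv ?_ (VH.epsK M) (VH.piK M hM)
    (VH.piK_algebraMap M hM) (VH.piK_eps M hM) M 0 (fun ν hν x hx => ?_) ?_
  · rw [← Λ.const_mem, hc0]
  · exact VH.piK_zero M hM _ (by omega) x hx
  · intro f hf N S hS r Q heq
    rw [pow_zero, map_one, one_mul]
    exact hcase _ _ (fun o => Λ.mem (f o)) (fun o => Λ.aeval_mem (c0 o))
      (fun o => Λ.aeval_mem (f o)) (by rw [Λ.const_mem]; exact hf) N S hS r Q heq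

variable (e d : τ → ℕ) (he : ∀ t, e t ≠ 0) (hd : ∀ t, d t ≠ 0) (hed : ∀ t, e t * d t = 6)
  (bt : τ → ℂ)

variable {T : Finset τ} {α : ℚ} (hT : VI.Rat κ A T α)

include hind hb hv he hd hed hT in
/-- **the order of the root, first case** -/
theorem ls3_E1 (j0 : ι) (M : ℕ) (hM : M ≤ T.card) (hd2 : ∀ t, t ∉ T → 2 ≤ d t)
    (hbt : ∀ t, bt t ≠ 0 ∨ (bt t = 0 ∧ t ∈ T ∧ M = 1))
    (H : Tan e d Finset.univ bt (Λ.mem (c0 none)))
    (hc0 : ∀ j, MvPowerSeries.constantCoeff (Λ.mem (c0 (some j))) ≠ 0) :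
    (Polynomial.X - Polynomial.C (-(α : ℂ))) ^ M ∣ b := by
  rcases Nat.eq_zero_or_pos M with h0 | h0
  · rw [h0, pow_zero]; exact one_dvd _
  obtain ⟨ex, hexd⟩ : ∃ ex : Option ι → Polynomial F, ex = fun o => o.elim (Polynomial.C (1 / 5))
    fun j => if j = j0 then Polynomial.X + Polynomial.C (-(1 / 5)) else 0 := ⟨_, rfl⟩
  have hex : ∑ o, ex o = Polynomial.X := by
    rw [Fintype.sum_option, hexd]
    simp only [Option.elim_none, Option.elim_some]
    rw [Finset.sum_ite_eq' Finset.univ j0, if_pos (Finset.mem_univ j0), Polynomial.C_neg]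
    ring
  have key := ls3_core Λ c hind b hb hv c0 ex hex (VL.tan_const H hd) ((-α : ℚ) : F) M
    h0.ne' ?_
  · rwa [coe_neg] at key
  intro f0 f1 h1 hf0 hf1 hh1 N S hS r Q heq
  rw [coe_neg] at heq
  refine case_E1 (k := VH.KK M) e he 6 (by norm_num) d hd hed bt Λ.x κ A Λ.U Λ.hU Λ.jac f0 f1
    (fun o => Λ.mem (c0 o)) h1 hf0 hf1 hh1 (fun t => H.co t (Finset.mem_univ t)) (fun μ hμ => ?_)
    (fun _ => 0) (fun j => MvPowerSeries.constantCoeff (Λ.mem (c0 (some j)))) hc0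
    (fun j => ⟨MvPowerSeries.coeff_zero_eq_constantCoeff_apply _, fun μ _ => ?_⟩) (fun j => ?_)
    (VH.epsK M) (fun r x hr => VH.epsK_unit M r x hr) (fun j => rfl) (-(α : ℂ)) (1 / 5)
    _ (sum_sv ex hex _) ?_ T (fun t ht => (hT.mem t ht).1) (fun t ht => hT.zero t ht)
    (fun t => ?_) (fun n => ?_) (fun n hn => ?_) (pow_eq_zero_of_le hM (VH.epsK_pow M))
    N S hS r Q heq
  · rcases H.wt μ hμ with h | ⟨t, -, h⟩
    · exact Or.inl h
    · exact Or.inr ⟨t, h⟩
  · by_cases hμ : μ = 0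
    · exact Or.inl hμ
    · right
      have h1 : VH.wt e (0 : τ →₀ ℕ) = 0 := by simp [VH.wt]
      rw [h1]
      obtain ⟨t, ht⟩ := Finsupp.ne_iff.1 hμ
      refine lt_of_lt_of_le ?_ (Finset.single_le_sum (f := fun t => e t * μ t)
        (fun _ _ => Nat.zero_le _) (Finset.mem_univ t))
      exact Nat.mul_pos (Nat.pos_of_ne_zero (he t)) (Nat.pos_of_ne_zero ht)
  · simp [VH.wt]
  · rw [hexd]
    change sv (Polynomial.C (1 / 5)) _ = _
    rw [sv_C]
    push_cast
    rfl
  · rcases hbt t with h | ⟨h, hTt, hM1⟩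
    · exact Or.inl ⟨h, fun n hn => VL.rat_hA d hT hd hd2 t n hn⟩
    · refine Or.inr ⟨h, ?_⟩
      have h1 : VH.epsK M = 0 := VL.epsK_one _ hM1
      have h2 := congrArg (algebraMap ℂ (VH.KK M)) (hT.zero t hTt)
      rw [map_add, map_mul, map_natCast, map_natCast, map_zero] at h2
      rw [h1, add_zero]
      exact h2
  · intro h
    have h2 : (5 * n : ℂ) = 1 := by linear_combination 5 * h
    have h3 : 5 * n = 1 := by exact_mod_cast h2
    omega
  · intro h
    have h2 : ∀ t, (((κ t + 1 : ℕ) : ℂ) + A t * -(α : ℂ)) / d t =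
        ((if t ∈ T then 0 else e t : ℕ) : ℂ) / 6 := by
      intro t
      by_cases ht : t ∈ T
      · rw [hT.zero t ht, if_pos ht]
        simp
      · obtain ⟨h3, h4⟩ := hT.notMem t ht
        rw [h3, h4, if_neg ht]
        have h5 : (e t : ℂ) * d t = 6 := by exact_mod_cast hed t
        have h6 : (d t : ℂ) ≠ 0 := Nat.cast_ne_zero.2 (hd t)
        field_simp
        push_cast
        linear_combination -h5
    rw [Finset.sum_congr rfl fun t _ => h2 t, ← Finset.sum_div, ← Nat.cast_sum] at h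
    obtain ⟨E, hE⟩ : ∃ E : ℕ, E = ∑ t, if t ∈ T then 0 else e t := ⟨_, rfl⟩
    rw [← hE] at h
    have h3 : ((6 + 5 * E + 30 * n : ℕ) : ℂ) = 0 := by
      push_cast
      linear_combination (-30) * h
    have h4 : 6 + 5 * E + 30 * n = 0 := by exact_mod_cast h3
    omega

include hind hb hv he hd hed hT in
/-- **the order of the root, second case** -/
theorem ls3_E2 (hα : α = Fintype.card ι + 1) (C' : ι → τ) (hC : Function.Injective C')
    (hTC : ∀ j, C' j ∉ T) (o : τ) (hoT : o ∉ T) (hoC : ∀ j, C' j ≠ o)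
    (hd2 : ∀ t, t ∉ T → 2 ≤ d t) (heC : ∀ j, e (C' j) = 3)
    (hbt : ∀ t, (∀ j, C' j ≠ t) → bt t ≠ 0) (hbC : ∀ j, bt (C' j) = 0)
    (H : Tan e d Finset.univ bt (Λ.mem (c0 none))) (β : ι → ℂ) (hβ : ∀ j, β j ≠ 0)
    (hL : ∀ j, Lead e (Finsupp.single (C' j) 1) (β j) (Λ.mem (c0 (some j)))) :
    (Polynomial.X - Polynomial.C (-(α : ℂ))) ^ (T.card + 1) ∣ b := by
  obtain ⟨ex, hexd⟩ : ∃ ex : Option ι → Polynomial F, ex = fun o => o.elim
    (Polynomial.X + Polynomial.C (Fintype.card ι : F)) fun _ => Polynomial.C (-1) := ⟨_, rfl⟩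
  have hex : ∑ o, ex o = Polynomial.X := by
    rw [Fintype.sum_option, hexd]
    simp only [Option.elim_none, Option.elim_some]
    rw [Finset.sum_const, Finset.card_univ, nsmul_eq_mul, Polynomial.C_neg, map_natCast,
      Polynomial.C_1]
    ring
  have key := ls3_core Λ c hind b hb hv c0 ex hex (VL.tan_const H hd) ((-α : ℚ) : F) (T.card + 1)
    (Nat.succ_ne_zero _) ?_
  · rwa [coe_neg] at key
  intro f0 f1 h1 hf0 hf1 hh1 N S hS r Q heq
  rw [coe_neg] at heq
  have hwt : ∀ j, VH.wt e (Finsupp.single (C' j) 1) = 3 := by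
    intro j
    rw [VH.wt, Finset.sum_eq_single (C' j)]
    · rw [Finsupp.single_eq_same, heC]
    · intro t _ ht
      rw [Finsupp.single_eq_of_ne ht, mul_zero]
    · intro h; exact absurd (Finset.mem_univ _) h
  have hA0 : ∀ t, ((κ t + 1 : ℕ) : ℂ) + A t * -(α : ℂ) - (∑ j, if C' j = t then 1 else 0) =
      if t ∈ T ∨ ∃ j, C' j = t then 0 else 1 := by
    intro t
    by_cases ht : t ∈ T
    · rw [hT.zero t ht, if_pos (Or.inl ht), Finset.sum_eq_zero, sub_zero]
      intro j _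
      rw [if_neg fun h : C' j = t => hTC j (h ▸ ht)]
    · obtain ⟨h3, h4⟩ := hT.notMem t ht
      rw [h3, h4]
      by_cases hj : ∃ j, C' j = t
      · obtain ⟨j, rfl⟩ := hj
        rw [if_pos (Or.inr ⟨j, rfl⟩), Finset.sum_eq_single j]
        · simp
        · intro i _ hi
          rw [if_neg fun h => hi (hC h)]
        · intro h; exact absurd (Finset.mem_univ _) h
      · rw [if_neg (by rintro (h | h); exacts [ht h, hj h]), Finset.sum_eq_zero]
        · simp
        · intro j _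
          rw [if_neg fun h => hj ⟨j, h⟩]
  refine case_E2 (k := VH.KK (T.card + 1)) e he 6 (by norm_num) d hd hed bt Λ.x κ A Λ.U Λ.hU
    Λ.jac f0 f1 (fun o => Λ.mem (c0 o)) h1 hf0 hf1 hh1 (fun t => H.co t (Finset.mem_univ t))
    (fun μ hμ => ?_) β hβ C' hC hL (fun j => by rw [hwt]; norm_num) (VH.epsK (T.card + 1))
    (fun r x hr => VH.epsK_unit (T.card + 1) r x hr) (-(α : ℂ)) _ (sum_sv ex hex _) ?_ ?_ T hTC
    (fun t ht => (hT.mem t ht).1) _ (fun t => rfl) (fun t ht => ?_) (fun t => ?_) hbC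
    (fun n hn => ?_) (VH.epsK_pow _) N S hS r Q heq
  · rcases H.wt μ hμ with h | ⟨t, -, h⟩
    · exact Or.inl h
    · exact Or.inr ⟨t, h⟩
  · rw [hexd]
    change sv (Polynomial.X + Polynomial.C (Fintype.card ι : F)) _ = _
    rw [sv_add, sv_X, sv_C, hα]
    have h2 : (((Fintype.card ι : ℕ) : F) : ℂ) = ((Fintype.card ι : ℕ) : ℂ) := by push_cast; rfl
    rw [h2]
    push_cast
    ring
  · intro j
    rw [hexd]
    change sv (Polynomial.C (-1)) _ = _
    have h2 : ((-1 : F) : ℂ) = -1 := by push_cast; rfl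
    rw [sv_C, h2, map_neg, map_one]
  · simp only [hA0]
    rw [if_pos (Or.inl ht)]
  · simp only [hA0]
    by_cases hj : ∃ j, C' j = t
    · obtain ⟨j, rfl⟩ := hj
      exact Or.inr ⟨hbC j, if_pos (Or.inr ⟨j, rfl⟩), (hT.notMem _ (hTC j)).2⟩
    · left
      refine ⟨hbt t fun j h => hj ⟨j, h⟩, fun n hn => ?_⟩
      by_cases ht : t ∈ T
      · rw [if_pos (Or.inl ht)]
        exact (mul_ne_zero (Nat.cast_ne_zero.2 (hd t)) (Nat.cast_ne_zero.2 (by omega))).symm
      · rw [if_neg (by rintro (h | h); exacts [ht h, hj h])]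
        intro h3
        have h4 : 1 = d t * n := by exact_mod_cast h3
        have := hd2 t ht
        nlinarith
  · simp only [hA0]
    classical
    have h2 : ∀ t, ((if t ∈ T ∨ ∃ j, C' j = t then 0 else 1 : ℂ)) / d t =
        ((if t ∈ T ∨ ∃ j, C' j = t then 0 else 1 / d t : ℝ) : ℂ) := by
      intro t
      split_ifs <;> simp
    rw [Finset.sum_congr rfl fun t _ => h2 t, ← Complex.ofReal_sum]
    intro h3
    have h4 : (1 : ℝ) - ∑ t, (if t ∈ T ∨ ∃ j, C' j = t then 0 else 1 / d t : ℝ) = n := by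
      exact_mod_cast h3
    have h5 : (1 : ℝ) ≤ n := by exact_mod_cast hn
    have h6 : (0 : ℝ) < ∑ t, (if t ∈ T ∨ ∃ j, C' j = t then 0 else 1 / d t : ℝ) := by
      refine Finset.sum_pos' (fun t _ => ?_) ⟨o, Finset.mem_univ _, ?_⟩
      · split_ifs
        · exact le_refl _
        · positivity
      · rw [if_neg (by rintro (h | ⟨j, h⟩); exacts [hoT h, hoC j h])]
        have := Nat.pos_of_ne_zero (hd o)
        positivity
    linarith

end Point

end Pool.Agent.H63.VM
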