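import Pool.Agent.H63.VM.Trans
import Pool.Agent.H63.VL.Pt
import Pool.Agent.H63.VK.Tang

set_option autoImplicit false
set_option linter.unusedSectionVars false

/-! # The roots which come from a point, for ideals generated by at least two forms -/

namespace Pool.Agent.H63.VM

open MvPolynomial Pool.Agent.H63.VG Pool.Agent.H63.VI Pool.Agent.H63.VK Pool.Agent.H63.VL
open Pool.Agent.W574.SM

section Lin

variable {ρ σ : Type} [Fintype ρ] [DecidableEq ρ] [Fintype σ] [DecidableEq σ]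

theorem aeval_lin {S : Type} [CommRing S] [Algebra ℂ S] (w : ρ → S) (l : ρ → ℂ) :
    aeval w (VI.lin l) = ∑ j, algebraMap ℂ S (l j) * w j := by
  simp only [VI.lin, map_sum, map_mul, aeval_C, aeval_X]

theorem coeff_lin (w : ρ → MvPowerSeries σ ℂ) (l : ρ → ℂ) (μ : σ →₀ ℕ) :
    MvPowerSeries.coeff μ (aeval w (VI.lin l)) = ∑ j, l j * MvPowerSeries.coeff μ (w j) := by
  rw [aeval_lin, map_sum]
  refine Finset.sum_congr rfl fun j _ => ?_
  rw [MvPowerSeries.algebraMap_apply, Algebra.algebraMap_self, RingHom.id_apply,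
    MvPowerSeries.coeff_C_mul]

theorem const_lin (w : ρ → MvPowerSeries σ ℂ) (l : ρ → ℂ) :
    MvPowerSeries.constantCoeff (aeval w (VI.lin l)) =
      ∑ j, l j * MvPowerSeries.constantCoeff (w j) := by
  have := coeff_lin w l 0
  simpa only [MvPowerSeries.coeff_zero_eq_constantCoeff_apply] using this

variable (e : σ → ℕ) (he : ∀ t, 2 ≤ e t) (m : ℕ)
    (L : Option σ → ρ → ℂ) (w : ρ → MvPowerSeries σ ℂ) (V : MvPowerSeries σ ℂ)
    (hL0 : ∀ t, ∑ j, L t j * MvPowerSeries.constantCoeff (w j) = if t = none then 1 else 0)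
    (hL1 : ∀ t s, ∑ j, L (some t) j * MvPowerSeries.coeff (Finsupp.single s 1) (w j) =
      if s = t then 1 else 0)

include he hL0 hL1 in
theorem lin_four (t : σ) : Wt e 4 (aeval w (VI.lin (L (some t))) - MvPowerSeries.X t) := by
  refine Wt.four he ?_ fun s _ => ?_
  · rw [map_sub, const_lin, hL0, if_neg (Option.some_ne_none t), MvPowerSeries.constantCoeff_X,
      sub_zero]
  · rw [map_sub, coeff_lin, hL1, MvPowerSeries.coeff_X]
    by_cases h : s = t
    · rw [if_pos h, if_pos (by rw [h]), sub_self]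
    · rw [if_neg h, if_neg, sub_self]
      intro h2
      rcases (Finsupp.single_eq_single_iff _ _ _ _).1 h2 with h3 | h3
      · exact h h3.1
      · exact absurd h3.1 one_ne_zero

include he hL0 hL1 in
/-- The tangent member, in the chart. -/
theorem tangent_data3 (R : Finset σ) (δ : σ → ℕ) (hδ : ∀ t ∈ R, δ t = 2 ∨ δ t = 3)
    (heδ : ∀ t ∈ R, e t * δ t = 6) :
    (∀ t ∈ R, MvPowerSeries.coeff (Finsupp.single t (δ t))
      (V * MvPolynomial.aeval w (tform R δ m L)) = MvPowerSeries.constantCoeff V) ∧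
    (∀ μ, MvPowerSeries.coeff μ (V * MvPolynomial.aeval w (tform R δ m L)) ≠ 0 →
      6 < VG.wt e μ ∨ ∃ t ∈ R, μ = Finsupp.single t (δ t)) := by
  have h1 : MvPolynomial.aeval w (tform R δ m L) =
      ∑ t ∈ R, aeval w (VI.lin (L (some t))) ^ δ t * aeval w (VI.lin (L none)) ^ (m - δ t) := by
    rw [tform, map_sum]
    refine Finset.sum_congr rfl fun t _ => ?_
    rw [map_mul, map_pow, map_pow]
  rw [h1]
  exact tangent he R δ hδ heδ (fun t => aeval w (VI.lin (L (some t)))) (aeval w (VI.lin (L none)))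
    V m (fun t _ => lin_four e he L w hL0 hL1 t) (by rw [const_lin, hL0, if_pos rfl])

include he hL0 hL1 in
theorem lead_pair (t : σ) (het : e t = 3) :
    Lead e (Finsupp.single t 1) (MvPowerSeries.constantCoeff V)
      (V * aeval w (VI.lin (L (some t)) * VI.lin (L none) ^ (m - 1))) := by
  have h1 := pair_wt he t het (aeval w (VI.lin (L (some t)))) (aeval w (VI.lin (L none))) V m
    (lin_four e he L w hL0 hL1 t) (by rw [const_lin, hL0, if_pos rfl])
  rw [map_mul, map_pow]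
  obtain ⟨h, hh⟩ : ∃ h, h = V * (aeval w (VI.lin (L (some t))) * aeval w (VI.lin (L none)) ^
    (m - 1)) := ⟨_, rfl⟩
  rw [← hh] at h1 ⊢
  have hw : VG.wt e (Finsupp.single t 1) = 3 := by rw [wt_single, het]
  have h2 : ∀ μ, MvPowerSeries.coeff μ (MvPowerSeries.C (MvPowerSeries.constantCoeff V) *
      (MvPowerSeries.X t : MvPowerSeries σ ℂ)) =
      if μ = Finsupp.single t 1 then MvPowerSeries.constantCoeff V else 0 := by
    intro μ
    rw [MvPowerSeries.coeff_C_mul, MvPowerSeries.coeff_X, mul_ite, mul_one, mul_zero]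
  refine ⟨?_, fun μ hμ => ?_⟩
  · have h3 : MvPowerSeries.coeff (Finsupp.single t 1) (h - MvPowerSeries.C
        (MvPowerSeries.constantCoeff V) * MvPowerSeries.X t) = 0 := by
      by_contra h4
      have := h1 _ h4
      omega
    rw [map_sub, h2, if_pos rfl, sub_eq_zero] at h3
    exact h3
  · by_cases hμ1 : μ = Finsupp.single t 1
    · exact Or.inl hμ1
    · right
      have h3 := h1 μ (by rw [map_sub, h2, if_neg hμ1, sub_zero]; exact hμ)
      have h4 : VH.wt e (Finsupp.single t 1) = 3 := hw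
      have h5 : 4 ≤ VH.wt e μ := h3
      omega

end Lin

variable {ρ σ ι : Type} [Fintype ρ] [DecidableEq ρ] [Fintype σ] [DecidableEq σ]
  [Fintype ι] [DecidableEq ι]
variable {P : MvPolynomial σ ℂ} {g : ρ → MvPolynomial σ ℂ} {κ a' a : σ → ℕ}
variable (Λ : Loc P g κ a' a) (m : ℕ) (hm : 2 ≤ m)

theorem tform_homog2 (R : Finset σ) (L : Option σ → ρ → ℂ) (hm : 2 ≤ m) :
    (tform R (fun _ => 2) m L).IsHomogeneous m := tform_homog _ _ _ _ fun _ _ => hm

theorem linpow_homog (l : ρ → ℂ) : (VI.lin l ^ m).IsHomogeneous m := by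
  have := (lin_homog l).pow m
  rwa [one_mul] at this

theorem linpair_homog (l l' : ρ → ℂ) (hm : 2 ≤ m) :
    (VI.lin l * VI.lin l' ^ (m - 1)).IsHomogeneous m := by
  have h1 := (lin_homog l).mul ((lin_homog l').pow (m - 1))
  have h2 : 1 + 1 * (m - 1) = m := by omega
  rwa [h2] at h1

theorem pow_const (Λ : Loc P g κ a' a) (m : ℕ) (L : ρ → ℂ)
    (hL : ∑ j, L j * MvPowerSeries.constantCoeff (Λ.w j) = 1) :
    MvPowerSeries.constantCoeff ((locLS Λ m).mem fun ν => (VI.lin L ^ m).coeff ν.1) ≠ 0 := by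
  rw [locLS_mem Λ m _ (linpow_homog m L), map_mul, map_pow, map_pow, const_lin, hL, one_pow,
    mul_one]
  exact Λ.hV

include hm in
/-- **Immersions.** -/
theorem pt3_strong (j0 : ι) (L : Option σ → ρ → ℂ)
    (hL0 : ∀ t, ∑ j, L t j * MvPowerSeries.constantCoeff (Λ.w j) = if t = none then 1 else 0)
    (hL1 : ∀ t s, ∑ j, L (some t) j * MvPowerSeries.coeff (Finsupp.single s 1) (Λ.w j) =
      if s = t then 1 else 0) (T : Finset σ) (α : ℚ)
    (hT : VI.Rat κ (fun t => a' t + m * a t) T α) :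
    ∃ Γ : MvPolynomial (Option ι × Ex ρ m) ℂ, Γ ≠ 0 ∧ ∀ c : Option ι × Ex ρ m → ℂ,
      eval c Γ ≠ 0 → ∀ b : Polynomial ℂ,
        IsFunctionalEq (fun o => ∑ ν, C (c (o, ν)) * fsys P g m ν) b →
          (Polynomial.X - Polynomial.C (-(α : ℂ))) ^ T.card ∣ b := by
  have hv := locLS_ne Λ m (L none) (by rw [hL0, if_pos rfl])
  obtain ⟨hT1, hT2⟩ := tangent_data3 (fun _ => 3) (fun _ => by norm_num) m L Λ.w Λ.V hL0 hL1
    Finset.univ (fun _ => 2) (fun t _ => Or.inl rfl) (fun t _ => by norm_num)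
  obtain ⟨c0, hc0⟩ : ∃ c0 : Option ι → Ex ρ m → ℂ, c0 = fun o => o.elim
    (fun ν => (tform Finset.univ (fun _ => 2) m L).coeff ν.1)
    fun _ ν => (VI.lin (L none) ^ m).coeff ν.1 := ⟨_, rfl⟩
  refine gen3_E1 (locLS Λ m) hv c0 (fun _ => 3) (fun _ => 2) (fun _ => by norm_num)
    (fun _ => by norm_num) (fun _ => by norm_num) (fun _ => MvPowerSeries.constantCoeff Λ.V) hT j0
    T.card (le_refl _) (fun _ _ => le_refl 2) (fun _ => Or.inl Λ.hV) ?_ fun j => ?_
  · rw [hc0]
    simp only [Option.elim_none]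
    rw [locLS_mem Λ m _ (tform_homog2 m _ L hm)]
    exact ⟨hT1, hT2⟩
  · rw [hc0]
    exact pow_const Λ m (L none) (by rw [hL0, if_pos rfl])

include hm in
/-- **Immersions along the stratum.** -/
theorem pt3_weak (j0 : ι) (L : Option σ → ρ → ℂ) (T : Finset σ)
    (hL0 : ∀ t, (∀ s ∈ T, t ≠ some s) →
      ∑ j, L t j * MvPowerSeries.constantCoeff (Λ.w j) = if t = none then 1 else 0)
    (hL1 : ∀ t s, t ∉ T → s ∉ T → ∑ j, L (some t) j *
      MvPowerSeries.coeff (Finsupp.single s 1) (Λ.w j) = if s = t then 1 else 0) (α : ℚ)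
    (hT : VI.Rat κ (fun t => a' t + m * a t) T α) (hTne : T.Nonempty) :
    ∃ Γ : MvPolynomial (Option ι × Ex ρ m) ℂ, Γ ≠ 0 ∧ ∀ c : Option ι × Ex ρ m → ℂ,
      eval c Γ ≠ 0 → ∀ b : Polynomial ℂ,
        IsFunctionalEq (fun o => ∑ ν, C (c (o, ν)) * fsys P g m ν) b →
          (Polynomial.X - Polynomial.C (-(α : ℂ))) ^ 1 ∣ b := by
  have hL00 : ∑ j, L none j * MvPowerSeries.constantCoeff (Λ.w j) = 1 := by
    rw [hL0 _ fun s _ => (Option.some_ne_none s).symm, if_pos rfl]
  have hv := locLS_ne Λ m (L none) hL00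
  obtain ⟨e, he⟩ : ∃ e : σ → ℕ, e = fun t => if t ∈ T then 6 else 3 := ⟨_, rfl⟩
  have heo : ∀ t ∈ T, e t = 6 := fun t ht => by rw [he]; simp [ht]
  have het : ∀ t, t ∉ T → e t = 3 := fun t ht => by rw [he]; simp [ht]
  obtain ⟨d, hd⟩ : ∃ d : σ → ℕ, d = fun t => if t ∈ T then 1 else 2 := ⟨_, rfl⟩
  have hdo : ∀ t ∈ T, d t = 1 := fun t ht => by rw [hd]; simp [ht]
  have hdt : ∀ t, t ∉ T → d t = 2 := fun t ht => by rw [hd]; simp [ht]
  have hR : ∀ t, t ∈ Finset.univ \ T ↔ t ∉ T := fun t => by simp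
  obtain ⟨hT1, hT2, -⟩ := tangent_data e
    (fun t => by
      by_cases h : t ∈ T
      · rw [heo t h]; norm_num
      · rw [het t h]; norm_num) (Finset.univ \ T) (fun _ => 2)
    (fun t _ => Or.inl rfl) (fun t ht => by rw [het t ((hR t).1 ht)])
    (fun t ht => by
      rw [hR, not_not] at ht
      rw [heo t ht]; norm_num) m L Λ.w Λ.V
    (fun t ht => by
      rw [hL0 _ (fun s hs h => (hR t).1 ht ((Option.some_injective _ h : t = s) ▸ hs)),
        if_neg (Option.some_ne_none t)])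
    hL00 (fun t ht s hs => hL1 t s ((hR t).1 ht) ((hR s).1 hs))
  have hne : ∀ s t, (Finsupp.single s 1 : σ →₀ ℕ) ≠ Finsupp.single t 2 := by
    intro s t h
    rcases (Finsupp.single_eq_single_iff _ _ _ _).1 h with h1 | h1
    · exact absurd h1.2 (by norm_num)
    · exact absurd h1.1 (by norm_num)
  obtain ⟨c0, hc0⟩ : ∃ c0 : Option ι → Ex ρ m → ℂ, c0 = fun q => q.elim
    (fun ν => (tform (Finset.univ \ T) (fun _ => 2) m L).coeff ν.1)
    fun _ ν => (VI.lin (L none) ^ m).coeff ν.1 := ⟨_, rfl⟩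
  have H : Tan e d Finset.univ (fun t => if t ∈ T then 0 else MvPowerSeries.constantCoeff Λ.V)
      ((locLS Λ m).mem (c0 none)) := by
    rw [hc0]
    simp only [Option.elim_none]
    rw [locLS_mem Λ m _ (tform_homog2 m _ L hm)]
    refine ⟨fun t _ => ?_, fun μ hμ => ?_⟩
    · by_cases h : t ∈ T
      · rw [if_pos h, hdo t h]
        by_contra h0
        rcases hT2 _ h0 with h1 | ⟨s, hs, h1⟩
        · rw [wt_single, heo t h] at h1
          omega
        · exact hne t s h1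
      · rw [if_neg h, hdt t h]
        exact hT1 t ((hR t).2 h)
    · rcases hT2 μ hμ with h | ⟨t, ht, h⟩
      · exact Or.inl h
      · exact Or.inr ⟨t, Finset.mem_univ _, by rw [hdt t ((hR t).1 ht)]; exact h⟩
  refine gen3_E1 (ι := ι) (locLS Λ m) hv c0 e d (fun t => ?_) (fun t => ?_) (fun t => ?_) _ hT
    j0 1 hTne.card_pos (fun t ht => ?_) (fun t => ?_) H fun j => ?_
  · by_cases h : t ∈ T
    · rw [heo t h]; norm_num
    · rw [het t h]; norm_num
  · by_cases h : t ∈ T
    · rw [hdo t h]; norm_num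
    · rw [hdt t h]; norm_num
  · by_cases h : t ∈ T
    · rw [heo t h, hdo t h]
    · rw [het t h, hdt t h]
  · rw [hdt t ht]
  · by_cases h : t ∈ T
    · exact Or.inr ⟨if_pos h, h, rfl⟩
    · left
      rw [if_neg h]
      exact Λ.hV
  · rw [hc0]
    exact pow_const Λ m (L none) hL00

include hm in
/-- **Immersions, the root `-c` for ideals with `c` generators.** -/
theorem pt3_top (L : Option σ → ρ → ℂ)
    (hL0 : ∀ t, ∑ j, L t j * MvPowerSeries.constantCoeff (Λ.w j) = if t = none then 1 else 0)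
    (hL1 : ∀ t s, ∑ j, L (some t) j * MvPowerSeries.coeff (Finsupp.single s 1) (Λ.w j) =
      if s = t then 1 else 0) (T : Finset σ) (α : ℚ)
    (hT : VI.Rat κ (fun t => a' t + m * a t) T α) (hα : α = Fintype.card ι + 1)
    (hc : T.card + (Fintype.card ι + 1) ≤ Fintype.card σ) :
    ∃ Γ : MvPolynomial (Option ι × Ex ρ m) ℂ, Γ ≠ 0 ∧ ∀ c : Option ι × Ex ρ m → ℂ,
      eval c Γ ≠ 0 → ∀ b : Polynomial ℂ,
        IsFunctionalEq (fun o => ∑ ν, C (c (o, ν)) * fsys P g m ν) b →
          (Polynomial.X - Polynomial.C (-(α : ℂ))) ^ (T.card + 1) ∣ b := by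
  have hv := locLS_ne Λ m (L none) (by rw [hL0, if_pos rfl])
  -- the coordinates which are used for the other functions
  obtain ⟨C', hC, hTC, o, hoT, hoC⟩ : ∃ C' : ι → σ, Function.Injective C' ∧ (∀ j, C' j ∉ T) ∧
      ∃ o, o ∉ T ∧ ∀ j, C' j ≠ o := by
    have h1 : Fintype.card (Option ι) ≤ Fintype.card {t : σ // t ∉ T} := by
      rw [Fintype.card_option, Fintype.card_subtype_compl]
      have h2 : Fintype.card {t : σ // t ∈ T} = T.card := Fintype.card_coe T
      omega
    obtain ⟨φ⟩ := Function.Embedding.nonempty_of_card_le h1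
    exact ⟨fun j => (φ (some j)).1, fun i j h => Option.some_injective _
      (φ.injective (Subtype.ext h)), fun j => (φ (some j)).2, (φ none).1, (φ none).2,
      fun j h => Option.some_ne_none j (φ.injective (Subtype.ext h))⟩
  obtain ⟨R, hR⟩ : ∃ R : Finset σ, R = Finset.univ \ Finset.univ.image C' := ⟨_, rfl⟩
  have hmemR : ∀ t, t ∈ R ↔ ∀ j, C' j ≠ t := by
    intro t
    rw [hR, Finset.mem_sdiff, Finset.mem_image]
    simp
  obtain ⟨hT1, hT2⟩ := tangent_data3 (fun _ => 3) (fun _ => by norm_num) m L Λ.w Λ.V hL0 hL1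
    R (fun _ => 2) (fun t _ => Or.inl rfl) (fun t _ => by norm_num)
  obtain ⟨c0, hc0⟩ : ∃ c0 : Option ι → Ex ρ m → ℂ, c0 = fun o => o.elim
    (fun ν => (tform R (fun _ => 2) m L).coeff ν.1)
    fun j ν => (VI.lin (L (some (C' j))) * VI.lin (L none) ^ (m - 1)).coeff ν.1 := ⟨_, rfl⟩
  refine gen3_E2 (locLS Λ m) hv c0 (fun _ => 3) (fun _ => 2) (fun _ => by norm_num)
    (fun _ => by norm_num) (fun _ => by norm_num)
    (fun t => if t ∈ R then MvPowerSeries.constantCoeff Λ.V else 0) hT hα C' hC hTC o hoT hoC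
    (fun _ _ => le_refl 2) (fun _ => rfl) (fun t ht => ?_) (fun j => ?_) ?_
    (fun _ => MvPowerSeries.constantCoeff Λ.V) (fun _ => Λ.hV) fun j => ?_
  · rw [if_pos ((hmemR t).2 ht)]
    exact Λ.hV
  · rw [if_neg fun h => (hmemR _).1 h j rfl]
  · rw [hc0]
    simp only [Option.elim_none]
    rw [locLS_mem Λ m _ (tform_homog2 m _ L hm)]
    refine ⟨fun t _ => ?_, fun μ hμ => ?_⟩
    · split_ifs with h
      · exact hT1 t h
      · by_contra h0
        rcases hT2 _ h0 with h1 | ⟨s, hs, h1⟩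
        · rw [wt_single] at h1
          omega
        · rcases (Finsupp.single_eq_single_iff _ _ _ _).1 h1 with h2 | h2
          · exact h (h2.1 ▸ hs)
          · exact absurd h2.1 (by norm_num)
    · rcases hT2 μ hμ with h | ⟨t, ht, h⟩
      · exact Or.inl h
      · exact Or.inr ⟨t, Finset.mem_univ _, h⟩
  · rw [hc0]
    simp only [Option.elim_some]
    rw [locLS_mem Λ m _ (linpair_homog m _ _ hm)]
    exact lead_pair (fun _ => 3) (fun _ => by norm_num) m L Λ.w Λ.V hL0 hL1 (C' j) rfl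

end Pool.Agent.H63.VM
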