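import Pool.Agent.H63.VM.Lin
import Pool.Agent.H63.VL.Trans

set_option autoImplicit false
set_option linter.unusedSectionVars false

/-! # From very general to general coefficients, for ideals and arbitrary exponents -/

namespace Pool.Agent.H63.VM

open MvPolynomial Pool.Agent.H63.VG Pool.Agent.H63.VI Pool.Agent.H63.VK Pool.Agent.H63.VL
open Pool.Agent.W574.SM

variable {K τ ι : Type} [Fintype K] [Fintype τ] [DecidableEq τ] [Fintype ι] [DecidableEq ι]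

theorem Lead.trans {e : τ → ℕ} {δ : τ →₀ ℕ} {β : ℂ} {h : MvPowerSeries τ ℂ}
    (H : Lead e δ β h) (θ : ℂ →+* ℂ) : Lead e δ (θ β) (MvPowerSeries.map θ h) where
  co := by rw [MvPowerSeries.coeff_map, H.co]
  wt μ hμ := by
    refine H.wt μ fun h0 => hμ ?_
    rw [MvPowerSeries.coeff_map, h0, map_zero]

section Gen

variable {G : K → MvPolynomial τ ℂ} {κ A : τ → ℕ} (Λ : LS G κ A)
  (hv : ∃ μ, MvPowerSeries.constantCoeff (Λ.h μ) ≠ 0) (c0 : Option ι → K → ℂ)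
  (e d : τ → ℕ) (he : ∀ t, e t ≠ 0) (hd : ∀ t, d t ≠ 0) (hed : ∀ t, e t * d t = 6)
  (bt : τ → ℂ) {α : ℚ} {T : Finset τ} (hT : VI.Rat κ A T α)

include hv he hd hed hT in
theorem gen3_E1 (j0 : ι) (M : ℕ) (hM : M ≤ T.card) (hd2 : ∀ t, t ∉ T → 2 ≤ d t)
    (hbt : ∀ t, bt t ≠ 0 ∨ (bt t = 0 ∧ t ∈ T ∧ M = 1))
    (H : Tan e d Finset.univ bt (Λ.mem (c0 none)))
    (hc0 : ∀ j, MvPowerSeries.constantCoeff (Λ.mem (c0 (some j))) ≠ 0) :
    ∃ Γ : MvPolynomial (Option ι × K) ℂ, Γ ≠ 0 ∧ ∀ a : Option ι × K → ℂ, eval a Γ ≠ 0 →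
      ∀ b : Polynomial ℂ, IsFunctionalEq (fun o => ∑ μ, C (a (o, μ)) * G μ) b →
        (Polynomial.X - Polynomial.C (-(α : ℂ))) ^ M ∣ b := by
  refine ideal_gen Λ hv α _ fun θ c hc b hb => ?_
  have H' := H.trans θ
  rw [← Λ.trans_mem] at H'
  refine ls3_E1 (Λ.trans θ) c hc b hb (trans_hv Λ hv θ) (fun o μ => θ (c0 o μ)) e d he hd hed _ hT
    j0 M hM hd2 (fun t => ?_) H' fun j => ?_
  · rcases hbt t with h | ⟨h, h'⟩
    · exact Or.inl fun h1 => h ((map_eq_zero_iff θ θ.injective).1 h1)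
    · exact Or.inr ⟨by rw [h, map_zero], h'⟩
  · rw [Λ.trans_mem, MvPowerSeries.constantCoeff_map]
    exact fun h => hc0 j ((map_eq_zero_iff θ θ.injective).1 h)

include hv he hd hed hT in
theorem gen3_E2 (hα : α = Fintype.card ι + 1) (C' : ι → τ) (hC : Function.Injective C')
    (hTC : ∀ j, C' j ∉ T) (o : τ) (hoT : o ∉ T) (hoC : ∀ j, C' j ≠ o)
    (hd2 : ∀ t, t ∉ T → 2 ≤ d t) (heC : ∀ j, e (C' j) = 3)
    (hbt : ∀ t, (∀ j, C' j ≠ t) → bt t ≠ 0) (hbC : ∀ j, bt (C' j) = 0)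
    (H : Tan e d Finset.univ bt (Λ.mem (c0 none))) (β : ι → ℂ) (hβ : ∀ j, β j ≠ 0)
    (hL : ∀ j, Lead e (Finsupp.single (C' j) 1) (β j) (Λ.mem (c0 (some j)))) :
    ∃ Γ : MvPolynomial (Option ι × K) ℂ, Γ ≠ 0 ∧ ∀ a : Option ι × K → ℂ, eval a Γ ≠ 0 →
      ∀ b : Polynomial ℂ, IsFunctionalEq (fun o => ∑ μ, C (a (o, μ)) * G μ) b →
        (Polynomial.X - Polynomial.C (-(α : ℂ))) ^ (T.card + 1) ∣ b := by
  refine ideal_gen Λ hv α _ fun θ c hc b hb => ?_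
  have H' := H.trans θ
  rw [← Λ.trans_mem] at H'
  refine ls3_E2 (Λ.trans θ) c hc b hb (trans_hv Λ hv θ) (fun o μ => θ (c0 o μ)) e d he hd hed _ hT
    hα C' hC hTC o hoT hoC hd2 heC (fun t ht h => hbt t ht ((map_eq_zero_iff θ θ.injective).1 h))
    (fun j => by rw [hbC, map_zero]) H' (fun j => θ (β j))
    (fun j h => hβ j ((map_eq_zero_iff θ θ.injective).1 h)) fun j => ?_
  rw [Λ.trans_mem]
  exact (hL j).trans θ

end Gen

end Pool.Agent.H63.VM
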