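import Pool.Agent.H63.VM.Eng
import Pool.Agent.H63.VL.Words

set_option autoImplicit false
set_option linter.unusedSectionVars false

/-! # The functional equation of an ideal in terms of words, for arbitrary exponents -/

namespace Pool.Agent.H63.VM

open MvPolynomial Pool.Agent.H63.VG Pool.Agent.H628R4.TP Pool.Agent.W574.SM

section Om

variable {σ ι A : Type} [Fintype ι] [DecidableEq ι] [CommRing A]

/-- the form `ω` with `∂ k Ψ = (ω k / g) Ψ` for `Ψ = ∏ f_i ^ (s_i)`, `g = ∏ f_i` -/
noncomputable def om (f : ι → MvPolynomial σ A) (s : ι → A) (k : σ) : MvPolynomial σ A :=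
  ∑ i, C (s i) * ((∏ j ∈ Finset.univ.erase i, f j) * pderiv k (f i))

theorem map_om {B : Type} [CommRing B] (h : A →+* B) (f : ι → MvPolynomial σ A) (s : ι → A)
    (k : σ) : map h (om f s k) = om (fun i => map h (f i)) (fun i => h (s i)) k := by
  rw [om, om, map_sum]
  refine Finset.sum_congr rfl fun i _ => ?_
  rw [map_mul, map_mul, map_C, map_prod, pderiv_map]

/-- the size of a type -/
def na (c : ι → ℤ) : ℕ := ∑ i, (c i).natAbs

theorem le_na (c : ι → ℤ) (i : ι) : (c i).natAbs ≤ na c :=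
  Finset.single_le_sum (f := fun i => (c i).natAbs) (fun _ _ => Nat.zero_le _) (Finset.mem_univ i)

/-- the polynomial which belongs to a type -/
noncomputable def qt (f : ι → MvPolynomial σ A) (c : ι → ℤ) : MvPolynomial σ A :=
  ∏ i, f i ^ (c i + na c).toNat

theorem map_qt {B : Type} [CommRing B] (h : A →+* B) (f : ι → MvPolynomial σ A) (c : ι → ℤ) :
    map h (qt f c) = qt (fun i => map h (f i)) c := by
  rw [qt, qt, map_prod]
  simp only [map_pow]

theorem der_prod_pow (k : σ) (f : ι → MvPolynomial σ A) (m : ι → ℕ) (s : Finset ι) :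
    pderiv k (∏ i ∈ s, f i ^ m i) * ∏ i ∈ s, f i =
      (∑ i ∈ s, C (m i : A) * ((∏ j ∈ s.erase i, f j) * pderiv k (f i))) *
        ∏ i ∈ s, f i ^ m i := by
  induction s using Finset.induction_on with
  | empty => simp
  | insert a s ha ih =>
    rw [Finset.prod_insert ha, Finset.prod_insert ha, Finset.sum_insert ha,
      Finset.erase_insert ha, Derivation.leibniz, Derivation.leibniz_pow]
    have h1 : ∀ i ∈ s, C (m i : A) * ((∏ j ∈ (insert a s).erase i, f j) * pderiv k (f i)) =
        f a * (C (m i : A) * ((∏ j ∈ s.erase i, f j) * pderiv k (f i))) := by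
      intro i hi
      have hia : a ≠ i := fun h => ha (h ▸ hi)
      rw [Finset.erase_insert_of_ne hia, Finset.prod_insert fun h => ha (Finset.mem_of_mem_erase h)]
      ring
    rw [Finset.sum_congr rfl h1, ← Finset.mul_sum]
    have e1 : (m a : MvPolynomial σ A) * (f a ^ (m a - 1) * f a) = m a * f a ^ m a := by
      rcases Nat.eq_zero_or_pos (m a) with h | h
      · rw [h]; simp
      · rw [← pow_succ]
        congr 2
        omega
    have e2 : (C (m a : A) : MvPolynomial σ A) = m a := map_natCast _ _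
    rw [e2]
    simp only [smul_eq_mul, nsmul_eq_mul]
    linear_combination (f a ^ m a * f a) * ih +
      ((∏ i ∈ s, f i ^ m i) * (∏ i ∈ s, f i) * pderiv k (f a)) * e1

theorem der_prod (k : σ) (f : ι → MvPolynomial σ A) :
    pderiv k (∏ i, f i) = ∑ i, (∏ j ∈ Finset.univ.erase i, f j) * pderiv k (f i) := by
  have key : ∀ s : Finset ι, pderiv k (∏ i ∈ s, f i) =
      ∑ i ∈ s, (∏ j ∈ s.erase i, f j) * pderiv k (f i) := by
    intro s
    induction s using Finset.induction_on with
    | empty => simp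
    | insert a s ha ih =>
      rw [Finset.prod_insert ha, Finset.sum_insert ha, Finset.erase_insert ha,
        Derivation.leibniz, ih]
      have h1 : ∀ i ∈ s, (∏ j ∈ (insert a s).erase i, f j) * pderiv k (f i) =
          f a * ((∏ j ∈ s.erase i, f j) * pderiv k (f i)) := by
        intro i hi
        have hia : a ≠ i := fun h => ha (h ▸ hi)
        rw [Finset.erase_insert_of_ne hia,
          Finset.prod_insert fun h => ha (Finset.mem_of_mem_erase h)]
        ring
      rw [Finset.sum_congr rfl h1, ← Finset.mul_sum, smul_eq_mul, smul_eq_mul]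
      ring
  exact key Finset.univ

/-- the differential equation of `∏ f_i ^ (s_i + 1 - l)` -/
theorem der_phi (f : ι → MvPolynomial σ ℂ) (s : ι → ℕ) (l : ℕ) (hl : ∀ i, l ≤ s i + 1) (k : σ) :
    pderiv k (∏ i, f i ^ (s i + 1 - l)) * ∏ i, f i =
      (om f (fun i => (s i : ℂ)) k + C (1 - (l : ℂ)) * pderiv k (∏ i, f i)) *
        ∏ i, f i ^ (s i + 1 - l) := by
  rw [der_prod_pow, om, der_prod, Finset.mul_sum, ← Finset.sum_add_distrib]
  congr 1
  refine Finset.sum_congr rfl fun i _ => ?_
  rw [← add_mul, ← C_add]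
  congr 2
  have h1 := hl i
  have h2 : ((s i + 1 - l : ℕ) : ℂ) = s i + 1 - l := by
    rw [Nat.cast_sub h1]
    push_cast
    ring
  rw [h2]
  ring

end Om

section Rep

variable {σ ι : Type} [Fintype ι] [DecidableEq ι] (f : ι → MvPolynomial σ ℂ)

/-- the types -/
abbrev Ty (ι : Type) [Fintype ι] : Type := {c : ι → ℤ // ∑ i, c i = 1}

/-- the functions of `s` which are combinations of the `w (∏ f_i ^ (s_i + c_i))` -/
def Rep3 (E : (ι → ℕ) → MvPolynomial σ ℂ) : Prop :=
  ∃ (c : (List (σ ⊕ σ) × Ty ι) →₀ MvPolynomial ι ℂ) (s0 : ℕ),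
    ∀ s : ι → ℕ, (∀ i, s0 ≤ s i) → E s =
      c.sum fun w p => C (eval (fun i => (s i : ℂ)) p) *
        act w.1 (∏ i, f i ^ ((s i : ℤ) + w.2.1 i).toNat)

variable {f} {E E' : (ι → ℕ) → MvPolynomial σ ℂ}

theorem Rep3.zero : Rep3 f fun _ => 0 := ⟨0, 0, fun s _ => by simp⟩

theorem Rep3.add (h : Rep3 f E) (h' : Rep3 f E') : Rep3 f fun s => E s + E' s := by
  classical
  obtain ⟨c, s0, hc⟩ := h
  obtain ⟨c', s0', hc'⟩ := h'
  refine ⟨c + c', max s0 s0', fun s hs => ?_⟩
  rw [Finsupp.sum_add_index' (by simp) (by intros; simp [add_mul]),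
    ← hc s fun i => le_trans (le_max_left _ _) (hs i),
    ← hc' s fun i => le_trans (le_max_right _ _) (hs i)]

theorem Rep3.sum {K : Type} (t : Finset K) (E : K → (ι → ℕ) → MvPolynomial σ ℂ)
    (h : ∀ k ∈ t, Rep3 f (E k)) : Rep3 f fun s => ∑ k ∈ t, E k s := by
  classical
  induction t using Finset.induction_on with
  | empty => simpa using Rep3.zero
  | insert k t hk ih =>
    have := Rep3.add (h k (Finset.mem_insert_self k t))
      (ih fun l hl => h l (Finset.mem_insert_of_mem hl))
    simpa [Finset.sum_insert hk] using this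

theorem Rep3.mul (h : Rep3 f E) (p : MvPolynomial ι ℂ) :
    Rep3 f fun s => C (eval (fun i => (s i : ℂ)) p) * E s := by
  obtain ⟨c, s0, hc⟩ := h
  refine ⟨c.mapRange (fun r => p * r) (mul_zero _), s0, fun s hs => ?_⟩
  rw [Finsupp.sum_mapRange_index (by simp)]
  simp only [hc s hs]
  rw [Finsupp.sum, Finsupp.sum, Finset.mul_sum]
  refine Finset.sum_congr rfl fun w _ => ?_
  rw [map_mul, C_mul, mul_assoc]

theorem Rep3.word (w : List (σ ⊕ σ)) (c : Ty ι) :
    Rep3 f fun s => act w (∏ i, f i ^ ((s i : ℤ) + c.1 i).toNat) :=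
  ⟨Finsupp.single (w, c) 1, 0, fun s _ => by
    rw [Finsupp.sum_single_index (by simp)]
    simp⟩

theorem Rep3.op (P : Module.End ℂ (MvPolynomial σ ℂ)) (hP : P ∈ weylS σ) (c : Ty ι) :
    Rep3 f fun s => P (∏ i, f i ^ ((s i : ℤ) + c.1 i).toNat) := by
  obtain ⟨r, rfl⟩ := weyl_span P hP
  have h1 := Rep3.sum (f := f) r.support
    (fun w s => C (eval (fun i => (s i : ℂ)) (C (r w))) *
      act w (∏ i, f i ^ ((s i : ℤ) + c.1 i).toNat))
    (fun w _ => (Rep3.word w c).mul (C (r w)))
  refine (iff_of_eq (congrArg (Rep3 f) ?_)).1 h1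
  funext s
  rw [Finsupp.sum, LinearMap.sum_apply]
  refine Finset.sum_congr rfl fun w _ => ?_
  rw [eval_C, C_mul', LinearMap.smul_apply]

theorem Rep3.congr (h : Rep3 f E) (hE : ∀ s, E' s = E s) : Rep3 f E' := by
  obtain ⟨c, s1, hc⟩ := h
  exact ⟨c, s1, fun s hs => by rw [hE s, hc s hs]⟩

open Pool.Agent.H63.VL in
/-- **The functional equation of an ideal.** -/
theorem rep3_ideal (b : Polynomial ℂ) (hb : IsFunctionalEq f b) :
    Rep3 f fun s => C (b.eval ((∑ i, s i : ℕ) : ℂ)) * ∏ i, f i ^ s i := by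
  classical
  obtain ⟨S, P, hS, hP⟩ := hb
  have hall : Rep3 f fun s => ∑ c ∈ S, applyAt (P c) s
          (C ((∏ j, (if c j < 0 then (s j).choose (-c j).toNat else 1) : ℕ) : ℂ) *
            ∏ j, f j ^ ((s j : ℤ) + c j).toNat) := by
    refine Rep3.sum S _ fun c hc => ?_
    have hone : Rep3 f fun s => ∑ γ ∈ (P c).support,
            C (eval (fun i => (s i : ℂ)) ((∏ j, X j ^ γ j) *
              (∏ j, if c j < 0 then Polynomial.aeval (X j : MvPolynomial ι ℂ)
                (chp (-c j).toNat) else 1))) *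
              (P c γ : Module.End ℂ (MvPolynomial σ ℂ))
                (∏ j, f j ^ ((s j : ℤ) + c j).toNat) :=
      Rep3.sum _ _ fun γ _ => (Rep3.op _ (P c γ).2 ⟨c, hS c hc⟩).mul _
    refine hone.congr fun s => ?_
    rw [applyAt, Finsupp.sum]
    refine Finset.sum_congr rfl fun γ _ => ?_
    have h1 : eval (fun i => (s i : ℂ)) (∏ j, X j ^ γ j : MvPolynomial ι ℂ) =
        ∏ j, (s j : ℂ) ^ γ j := by
      rw [map_prod]
      simp only [map_pow, eval_X]
    have h2 : eval (fun i => (s i : ℂ)) (∏ j, if c j < 0 then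
        Polynomial.aeval (X j : MvPolynomial ι ℂ) (chp (-c j).toNat) else 1) =
        ((∏ j, (if c j < 0 then (s j).choose (-c j).toNat else 1) : ℕ) : ℂ) := by
      rw [map_prod]
      push_cast
      refine Finset.prod_congr rfl fun j _ => ?_
      split_ifs
      · rw [← eval_chp, Polynomial.aeval_def, Polynomial.hom_eval₂, eval_X]
        have h3 : (eval fun i => (s i : ℂ)).comp (algebraMap ℂ (MvPolynomial ι ℂ)) =
            RingHom.id ℂ := by
          ext r
          simp
        rw [h3]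
        rfl
      · rw [map_one]
    rw [map_mul (eval _), h1, h2, C_mul', map_smul, smul_smul, C_mul']
  refine hall.congr fun s => ?_
  exact hP s

/-- **The functional equation in terms of words.** -/
theorem words3_poly (hf : ∀ i, f i ≠ 0) (b : Polynomial ℂ)
    (hb : Rep3 f fun s => C (b.eval ((∑ i, s i : ℕ) : ℂ)) * ∏ i, f i ^ s i) :
    ∃ (N : ℕ) (S : Finset (List (σ ⊕ σ) × Ty ι))
      (c : List (σ ⊕ σ) × Ty ι → MvPolynomial ι ℂ),
      (∀ w ∈ S, w.1.length + (na w.2.1 + 1) ≤ N) ∧
      C (Polynomial.aeval (∑ i, X i : MvPolynomial ι ℂ) b) * (map C (∏ i, f i)) ^ N =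
        ∑ w ∈ S, C (c w) * (map C (∏ i, f i)) ^ (N + 1 - (w.1.length + (na w.2.1 + 1))) *
          q3 (map C (∏ i, f i)) (om (fun i => map C (f i)) X) (map C (qt f w.2.1))
            (na w.2.1 + 1) w.1 := by
  classical
  obtain ⟨c, s0, hc⟩ := hb
  obtain ⟨g, hg⟩ : ∃ g, g = ∏ i, f i := ⟨_, rfl⟩
  obtain ⟨N, hN⟩ : ∃ N, N = max s0 (c.support.sup fun w => w.1.length + (na w.2.1 + 1)) := ⟨_, rfl⟩
  have hSN : ∀ w ∈ c.support, w.1.length + (na w.2.1 + 1) ≤ N := fun w hw => by
    rw [hN]
    exact le_trans (Finset.le_sup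
      (f := fun w : List (σ ⊕ σ) × Ty ι => w.1.length + (na w.2.1 + 1)) hw) (le_max_right _ _)
  have h : ∀ s : ι → ℕ, (∀ i, N ≤ s i) → C (b.eval ((∑ i, s i : ℕ) : ℂ)) * g ^ N =
      ∑ w ∈ c.support,
      C (eval (fun i => (s i : ℂ)) (c w)) * g ^ (N + 1 - (w.1.length + (na w.2.1 + 1))) *
        q3 g (om f fun i => (s i : ℂ)) (qt f w.2.1) (na w.2.1 + 1) w.1 := by
    intro s hs
    have hs0 : ∀ i, s0 ≤ s i := fun i => le_trans (by rw [hN]; exact le_max_left _ _) (hs i)
    have hne : (∏ i, f i ^ s i) ≠ 0 := Finset.prod_ne_zero_iff.2 fun i _ => pow_ne_zero _ (hf i)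
    refine mul_left_cancel₀ hne ?_
    have h2 : C (b.eval ((∑ i, s i : ℕ) : ℂ)) * ∏ i, f i ^ s i = _ := hc s hs0
    rw [Finsupp.sum] at h2
    calc (∏ i, f i ^ s i) * (C (b.eval ((∑ i, s i : ℕ) : ℂ)) * g ^ N) =
          (C (b.eval ((∑ i, s i : ℕ) : ℂ)) * ∏ i, f i ^ s i) * g ^ N := by ring
      _ = ∑ w ∈ c.support, C (eval (fun i => (s i : ℂ)) (c w)) *
          (act w.1 (∏ i, f i ^ ((s i : ℤ) + w.2.1 i).toNat) * g ^ N) := by
          rw [h2, Finset.sum_mul]
          refine Finset.sum_congr rfl fun w _ => ?_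
          ring
      _ = (∏ i, f i ^ s i) * ∑ w ∈ c.support, C (eval (fun i => (s i : ℂ)) (c w)) *
          g ^ (N + 1 - (w.1.length + (na w.2.1 + 1))) *
            q3 g (om f fun i => (s i : ℂ)) (qt f w.2.1) (na w.2.1 + 1) w.1 := by
          rw [Finset.mul_sum]
          refine Finset.sum_congr rfl fun w hw => ?_
          have hwN := hSN w hw
          have hl : ∀ i, na w.2.1 + 1 ≤ s i + 1 := fun i => by
            have := hs i
            omega
          obtain ⟨Φ, hΦ⟩ : ∃ Φ, Φ = ∏ i, f i ^ (s i + 1 - (na w.2.1 + 1)) := ⟨_, rfl⟩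
          have h4 : ∏ i, f i ^ ((s i : ℤ) + w.2.1 i).toNat = qt f w.2.1 * Φ := by
            rw [qt, hΦ, ← Finset.prod_mul_distrib]
            refine Finset.prod_congr rfl fun i _ => ?_
            rw [← pow_add]
            congr 1
            have h5 := le_na w.2.1 i
            have h6 := hl i
            omega
          have h5 := act_q3 g Φ (qt f w.2.1) (om f fun i => (s i : ℂ)) (na w.2.1 + 1) (fun k => by
            rw [hΦ, hg]
            have := der_phi f s (na w.2.1 + 1) hl k
            exact this) w.1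
          obtain ⟨m, hm⟩ : ∃ m, N = w.1.length + m := ⟨N - w.1.length, by omega⟩
          have h6 : act w.1 (qt f w.2.1 * Φ) * g ^ N =
              q3 g (om f fun i => (s i : ℂ)) (qt f w.2.1) (na w.2.1 + 1) w.1 * (Φ * g ^ m) := by
            rw [hm, pow_add, ← mul_assoc, h5, mul_assoc]
          have h7 : Φ * g ^ m =
              (∏ i, f i ^ s i) * g ^ (N + 1 - (w.1.length + (na w.2.1 + 1))) := by
            rw [hΦ, hg, ← Finset.prod_pow, ← Finset.prod_pow, ← Finset.prod_mul_distrib,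
              ← Finset.prod_mul_distrib]
            refine Finset.prod_congr rfl fun i _ => ?_
            rw [← pow_add, ← pow_add]
            congr 1
            have h8 := hl i
            omega
          rw [h4, h6, h7]
          ring
  refine ⟨N, c.support, fun w => c w, hSN, ?_⟩
  rw [← hg, ← sub_eq_zero]
  obtain ⟨E, hE⟩ : ∃ E : MvPolynomial σ (MvPolynomial ι ℂ),
    E = C (Polynomial.aeval (∑ i, X i : MvPolynomial ι ℂ) b) * (map C g) ^ N -
    ∑ w ∈ c.support, C (c w) * (map C g) ^ (N + 1 - (w.1.length + (na w.2.1 + 1))) *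
      q3 (map C g) (om (fun i => map C (f i)) X) (map C (qt f w.2.1)) (na w.2.1 + 1) w.1 :=
    ⟨_, rfl⟩
  rw [← hE]
  have h0 : ∀ (z : ι → ℂ) (p : MvPolynomial σ ℂ), map (eval z) (map C p) = p := by
    intro z p
    rw [map_map]
    have : (eval z).comp C = RingHom.id ℂ := by
      ext r
      simp
    rw [this, map_id]
  have h1 : ∀ z : ι → ℂ, map (eval z) E = C (b.eval (∑ i, z i)) * g ^ N -
      ∑ w ∈ c.support, C (eval z (c w)) * g ^ (N + 1 - (w.1.length + (na w.2.1 + 1))) *
        q3 g (om f z) (qt f w.2.1) (na w.2.1 + 1) w.1 := by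
    intro z
    have hb' : eval z (Polynomial.aeval (∑ i, X i : MvPolynomial ι ℂ) b) = b.eval (∑ i, z i) := by
      rw [Polynomial.aeval_def, Polynomial.hom_eval₂, map_sum]
      simp only [eval_X]
      have h3 : (eval z).comp (algebraMap ℂ (MvPolynomial ι ℂ)) = RingHom.id ℂ := by
        ext r
        simp
      rw [h3]
      rfl
    rw [hE, map_sub, map_mul, map_C, map_pow, h0, map_sum, hb']
    congr 1
    refine Finset.sum_congr rfl fun w _ => ?_
    rw [map_mul, map_mul, map_C, map_pow, h0, map_q3, h0, h0]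
    congr 2
    funext k
    rw [map_om]
    simp only [h0, eval_X]
  refine MvPolynomial.ext _ _ fun μ => ?_
  rw [coeff_zero]
  refine MvPolynomial.funext_set (fun _ => Set.range fun n : ℕ => ((n + N : ℕ) : ℂ))
    (fun _ => Set.infinite_range_of_injective fun x y hxy => by
      have h3 : x + N = y + N := Nat.cast_injective (R := ℂ) hxy
      omega) fun x hx => ?_
  have hx' : ∀ i, ∃ n : ℕ, ((n + N : ℕ) : ℂ) = x i := fun i => hx i (Set.mem_univ i)
  choose s hs using hx'
  have hxs : x = fun i => (((s i + N : ℕ)) : ℂ) := funext fun i => (hs i).symm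
  have h3 := h1 x
  have h4 := h (fun i => s i + N) fun i => by omega
  have h5 : ((∑ i, (s i + N) : ℕ) : ℂ) = ∑ i, x i := by
    rw [hxs]
    push_cast
    rfl
  rw [h5] at h4
  rw [hxs] at h3 h4
  rw [h4, sub_self] at h3
  have h6 := congrArg (coeff μ) h3
  rw [coeff_map, coeff_zero] at h6
  rw [map_zero, hxs]
  exact h6

end Rep

end Pool.Agent.H63.VM
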